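import Pool.Agent.Lib_helper21.AVK.Defs
import Pool.Agent.Lib_helper21.AV.W.STa

/-! # STa: simple bounds for the weights -/

set_option autoImplicit false

namespace Pool.Agent.AVK

open Finset
open Pool.Agent.AV (om js Lam K4 n4)

variable {ι : Type} [Fintype ι] [DecidableEq ι]

theorem gwa_nonneg (α : ℝ) (h0 : 0 ≤ α) (m : ℕ) : 0 ≤ gwa α m := by
  unfold gwa
  split_ifs
  · positivity
  · exact le_refl _

theorem gwa_le (α : ℝ) (h0 : 0 ≤ α) (h1 : α ≤ 1) (m : ℕ) : gwa α m ≤ 1 := by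
  unfold gwa
  split_ifs
  · exact pow_le_one₀ h0 h1
  · norm_num

theorem phg_abs (oc : ι → ι → Bool) (u v : ι) (a b : ℕ) : |phg oc u v a b| ≤ 1 := by
  unfold phg
  rw [abs_mul]
  have h1 : |(if Nat.Coprime a b then (1 : ℝ) else 0)| ≤ 1 := by
    split_ifs <;> norm_num
  have h2 : |(if oc u v then js b a else 1)| ≤ 1 := by
    split_ifs
    · exact Pool.Agent.AV.js_abs _ _
    · norm_num
  exact mul_le_one₀ h1 (abs_nonneg _) h2

theorem wtg_abs (α : ℝ) (h0 : 0 ≤ α) (oc : ι → ι → Bool) (κ : ι → ℤ) (D : ι → ℕ) :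
    |wtg α oc κ D| ≤ ∏ u, gwa α (D u) := by
  unfold wtg
  rw [abs_mul]
  have h1 : |∏ u, gwa α (D u) * js (κ u) (D u)| ≤ ∏ u, gwa α (D u) := by
    rw [Finset.abs_prod]
    refine Finset.prod_le_prod (fun i _ => abs_nonneg _) (fun i _ => ?_)
    rw [abs_mul, abs_of_nonneg (gwa_nonneg α h0 _)]
    exact mul_le_of_le_one_right (gwa_nonneg α h0 _) (Pool.Agent.AV.js_abs _ _)
  have h2 : |∏ u, ∏ v ∈ univ.erase u, phg oc u v (D u) (D v)| ≤ 1 := by
    rw [Finset.abs_prod]
    refine Finset.prod_le_one (fun i _ => abs_nonneg _) (fun i _ => ?_)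
    rw [Finset.abs_prod]
    exact Finset.prod_le_one (fun j _ => abs_nonneg _) (fun j _ => phg_abs _ _ _ _ _)
  have h3 : 0 ≤ ∏ u, gwa α (D u) := Finset.prod_nonneg fun i _ => gwa_nonneg α h0 _
  calc |∏ u, gwa α (D u) * js (κ u) (D u)| *
        |∏ u, ∏ v ∈ univ.erase u, phg oc u v (D u) (D v)|
      ≤ (∏ u, gwa α (D u)) * 1 := mul_le_mul h1 h2 (abs_nonneg _) h3
    _ = ∏ u, gwa α (D u) := mul_one _

/-- the weight vanishes unless the product is odd and squarefree -/
theorem wtg_zero (α : ℝ) (oc : ι → ι → Bool) (κ : ι → ℤ) (D : ι → ℕ)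
    (h : ¬ (Squarefree (∏ u, D u) ∧ Odd (∏ u, D u))) : wtg α oc κ D = 0 := by
  by_contra hw
  apply h
  unfold wtg at hw
  have hw1 := left_ne_zero_of_mul hw
  have hw2 := right_ne_zero_of_mul hw
  rw [Finset.prod_ne_zero_iff] at hw1 hw2
  have hg : ∀ u, Squarefree (D u) ∧ Odd (D u) := by
    intro u
    have h1 := left_ne_zero_of_mul (hw1 u (Finset.mem_univ u))
    unfold gwa at h1
    by_contra hc
    rw [if_neg hc] at h1
    exact h1 rfl
  have hc : ∀ u v : ι, u ≠ v → Nat.Coprime (D u) (D v) := by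
    intro u v huv
    have h1 := hw2 u (Finset.mem_univ u)
    rw [Finset.prod_ne_zero_iff] at h1
    have h2 := h1 v (Finset.mem_erase.mpr ⟨huv.symm, Finset.mem_univ v⟩)
    unfold phg at h2
    by_contra hc
    rw [if_neg hc] at h2
    simp at h2
  refine ⟨?_, ?_⟩
  · refine Finset.squarefree_prod_of_pairwise_isCoprime ?_ (fun u _ => (hg u).1)
    intro u _ v _ huv
    exact Nat.coprime_iff_isRelPrime.mp (hc u v huv)
  · have : ∀ s : Finset ι, Odd (∏ u ∈ s, D u) := by
      intro s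
      induction s using Finset.induction_on with
      | empty => simp
      | insert a s ha ih =>
        rw [Finset.prod_insert ha]
        exact Nat.odd_mul.mpr ⟨(hg a).2, ih⟩
    exact this _

end Pool.Agent.AVK
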