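import Pool.Agent.Lib_helper21.AVK.Defs
import Pool.Agent.Lib_helper21.AVK.W.STa

/-! # STb: the weight of a tuple as a function of one or two variables -/

set_option autoImplicit false

namespace Pool.Agent.AVK

open Finset
open Pool.Agent.AV (om js Lam K4 n4)

variable {ι : Type} [Fintype ι] [DecidableEq ι]

theorem STb_gw_one (α : ℝ) : gwa α 1 = 1 := by
  unfold gwa Pool.Agent.AV.om
  rw [if_pos ⟨squarefree_one, odd_one⟩]
  simp

theorem STb_js_one (a : ℤ) : js a 1 = 1 := by
  simp [Pool.Agent.AV.js]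

theorem STb_one_js (m : ℕ) : js ((1 : ℕ) : ℤ) m = 1 := by
  simp [Pool.Agent.AV.js]

theorem STb_ph_left (oc : ι → ι → Bool) (u v : ι) (b : ℕ) : phg oc u v 1 b = 1 := by
  unfold phg
  rw [if_pos (Nat.coprime_one_left b), STb_js_one]
  simp

theorem STb_ph_right (oc : ι → ι → Bool) (u v : ι) (a : ℕ) : phg oc u v a 1 = 1 := by
  unfold phg
  rw [if_pos (Nat.coprime_one_right a), STb_one_js]
  simp

theorem STb_fu_one (α : ℝ) (oc : ι → ι → Bool) (κ : ι → ℤ) (D : ι → ℕ) (u : ι) : fug α oc κ D u 1 = 1 := by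
  unfold fug
  rw [STb_gw_one, STb_js_one]
  rw [Finset.prod_eq_one]
  · norm_num
  · intro w _
    rw [STb_ph_left, STb_ph_right, one_mul]

theorem STb_split (α : ℝ) (oc : ι → ι → Bool) (κ : ι → ℤ) (D : ι → ℕ) (u : ι) : ∃ R : ℝ,
    ∀ m, wtg α oc κ (Function.update D u m) = R * fug α oc κ D u m := by
  refine ⟨(∏ w ∈ univ.erase u, gwa α (D w) * js (κ w) (D w)) *
    ∏ w ∈ univ.erase u, ∏ v ∈ (univ.erase w).erase u, phg oc w v (D w) (D v), fun m => ?_⟩
  unfold wtg fug
  rw [← Finset.mul_prod_erase univ _ (mem_univ u)]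
  rw [← Finset.mul_prod_erase univ (fun a => ∏ v ∈ univ.erase a,
    phg oc a v (Function.update D u m a) (Function.update D u m v)) (mem_univ u)]
  simp only [Function.update_self]
  have h1 : ∏ x ∈ univ.erase u, gwa α (Function.update D u m x) * js (κ x) (Function.update D u m x) =
      ∏ w ∈ univ.erase u, gwa α (D w) * js (κ w) (D w) := by
    refine Finset.prod_congr rfl fun w hw => ?_
    rw [Function.update_of_ne (mem_erase.1 hw).1]
  have h2 : ∏ v ∈ univ.erase u, phg oc u v m (Function.update D u m v) =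
      ∏ v ∈ univ.erase u, phg oc u v m (D v) := by
    refine Finset.prod_congr rfl fun w hw => ?_
    rw [Function.update_of_ne (mem_erase.1 hw).1]
  have h3 : ∏ a ∈ univ.erase u, ∏ v ∈ univ.erase a,
      phg oc a v (Function.update D u m a) (Function.update D u m v) =
      ∏ a ∈ univ.erase u, (phg oc a u (D a) m *
        ∏ v ∈ (univ.erase a).erase u, phg oc a v (D a) (D v)) := by
    refine Finset.prod_congr rfl fun a ha => ?_
    have hau : a ≠ u := (mem_erase.1 ha).1
    have hmem : u ∈ univ.erase a := mem_erase.2 ⟨hau.symm, mem_univ u⟩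
    rw [← Finset.mul_prod_erase (univ.erase a) _ hmem, Function.update_self,
      Function.update_of_ne hau]
    congr 1
    refine Finset.prod_congr rfl fun v hv => ?_
    rw [Function.update_of_ne (mem_erase.1 hv).1]
  have h4 : ∏ a ∈ univ.erase u, (phg oc a u (D a) m *
        ∏ v ∈ (univ.erase a).erase u, phg oc a v (D a) (D v)) =
      (∏ a ∈ univ.erase u, phg oc a u (D a) m) *
        ∏ a ∈ univ.erase u, ∏ v ∈ (univ.erase a).erase u, phg oc a v (D a) (D v) :=
    Finset.prod_mul_distrib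
  have h5 : ∏ w ∈ univ.erase u, phg oc u w m (D w) * phg oc w u (D w) m =
      (∏ w ∈ univ.erase u, phg oc u w m (D w)) * ∏ w ∈ univ.erase u, phg oc w u (D w) m :=
    Finset.prod_mul_distrib
  rw [h1, h2, h3, h4, h5]
  ring

theorem STb_wt (α : ℝ) (oc : ι → ι → Bool) (κ : ι → ℤ) (D : ι → ℕ) (u : ι) (m : ℕ) :
    wtg α oc κ (Function.update D u m) = wtg α oc κ (Function.update D u 1) * fug α oc κ D u m := by
  obtain ⟨R, hR⟩ := STb_split α oc κ D u
  rw [hR m, hR 1, STb_fu_one, mul_one]

/-- one variable -/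
theorem wtg_one (α : ℝ) (h0 : 0 ≤ α) (h1 : α ≤ 1) (oc : ι → ι → Bool) (κ : ι → ℤ) (D : ι → ℕ) (u : ι) : ∃ R : ℝ, |R| ≤ ∏ w ∈ univ.erase u, gwa α (D w) ∧
    (¬ (Squarefree (∏ w ∈ univ.erase u, D w) ∧ Odd (∏ w ∈ univ.erase u, D w)) → R = 0) ∧
    ∀ m, wtg α oc κ (Function.update D u m) = R * fug α oc κ D u m := by
  refine ⟨wtg α oc κ (Function.update D u 1), ?_, ?_, STb_wt α oc κ D u⟩
  · refine (wtg_abs α h0 oc κ _).trans (le_of_eq ?_)
    rw [← Finset.mul_prod_erase univ _ (mem_univ u), Function.update_self, STb_gw_one, one_mul]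
    refine Finset.prod_congr rfl fun w hw => ?_
    rw [Function.update_of_ne (mem_erase.1 hw).1]
  · intro h
    apply wtg_zero
    have h1 : ∏ w, Function.update D u 1 w = ∏ w ∈ univ.erase u, D w := by
      rw [← Finset.mul_prod_erase univ _ (mem_univ u), Function.update_self, one_mul]
      refine Finset.prod_congr rfl fun w hw => ?_
      rw [Function.update_of_ne (mem_erase.1 hw).1]
    rw [h1]
    exact h

theorem STb_prod_le (s : Finset ι) (f : ι → ℝ) (hf : ∀ w, |f w| ≤ 1) : |∏ w ∈ s, f w| ≤ 1 := by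
  rw [Finset.abs_prod]
  exact Finset.prod_le_one (fun _ _ => abs_nonneg _) (fun w _ => hf w)

/-- two variables -/
theorem wtg_two (α : ℝ) (h0 : 0 ≤ α) (h1 : α ≤ 1) (oc : ι → ι → Bool) (κ : ι → ℤ) (D : ι → ℕ) (u v : ι) (huv : u ≠ v) : ∃ a b : ℕ → ℝ,
    (∀ m, |a m| ≤ 1) ∧ (∀ n, |b n| ≤ 1) ∧ (∀ m, ¬ (Squarefree m ∧ Odd m) → a m = 0) ∧
    (∀ n, ¬ (Squarefree n ∧ Odd n) → b n = 0) ∧
    ∀ m n, wtg α oc κ (Function.update (Function.update D u m) v n) =
      a m * b n * (phg oc u v m n * phg oc v u n m) := by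
  refine ⟨fun m => wtg α oc κ (Function.update (Function.update D u m) v 1),
    fun n => gwa α n * (js (κ v) n * ∏ w ∈ (univ.erase v).erase u, phg oc v w n (D w) * phg oc w v (D w) n),
    ?_, ?_, ?_, ?_, ?_⟩
  · intro m
    refine (wtg_abs α h0 oc κ _).trans ?_
    exact Finset.prod_le_one (fun _ _ => gwa_nonneg α h0 _) (fun w _ => gwa_le α h0 h1 _)
  · intro n
    simp only
    rw [abs_mul, abs_mul, abs_of_nonneg (gwa_nonneg α h0 n)]
    have h1' := gwa_le α h0 h1 n
    have h2 := Pool.Agent.AV.js_abs (κ v) n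
    have h3 := STb_prod_le ((univ.erase v).erase u) (fun w => phg oc v w n (D w) * phg oc w v (D w) n)
      (fun w => by
        rw [abs_mul]
        exact mul_le_one₀ (phg_abs _ _ _ _ _) (abs_nonneg _) (phg_abs _ _ _ _ _))
    exact mul_le_one₀ h1' (by positivity) (mul_le_one₀ h2 (abs_nonneg _) h3)
  · intro m hm
    have h1 := wtg_abs α h0 oc κ (Function.update (Function.update D u m) v 1)
    have h2 : ∏ w, gwa α (Function.update (Function.update D u m) v 1 w) = 0 := by
      refine Finset.prod_eq_zero (mem_univ u) ?_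
      rw [Function.update_of_ne huv, Function.update_self]
      unfold gwa
      rw [if_neg hm]
    rw [h2] at h1
    exact abs_nonpos_iff.1 h1
  · intro n hn
    simp only
    unfold gwa
    rw [if_neg hn, zero_mul]
  · intro m n
    rw [STb_wt α oc κ (Function.update D u m) v n]
    simp only
    unfold fug
    have hmem : u ∈ univ.erase v := mem_erase.2 ⟨huv, mem_univ u⟩
    rw [← Finset.mul_prod_erase (univ.erase v) _ hmem, Function.update_self]
    have h1 : ∏ x ∈ (univ.erase v).erase u,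
        phg oc v x n (Function.update D u m x) * phg oc x v (Function.update D u m x) n =
        ∏ w ∈ (univ.erase v).erase u, phg oc v w n (D w) * phg oc w v (D w) n := by
      refine Finset.prod_congr rfl fun w hw => ?_
      rw [Function.update_of_ne (mem_erase.1 hw).1]
    rw [h1]
    ring

end Pool.Agent.AVK
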