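import Mathlib
import Pool.Agent.Lib_helper21.AVK.Defs
import Pool.Agent.Lib_helper21.AV.W.C1
import Pool.Agent.Lib_helper21.AV.W.BL
import Pool.Agent.Lib_helper21.AVK.W.STb
import Pool.Agent.Lib_helper21.AVK.W.IS

/-! # C1: two linked large variables -/

set_option autoImplicit false

namespace Pool.Agent.AVK

open Finset
open Pool.Agent.AV (om js Lam K4 n4 C1_harm C1_js_zero bil)

variable {ι : Type} [Fintype ι] [DecidableEq ι]

theorem C1_inner (α : ℝ) (h0 : 0 ≤ α) (h1 : α ≤ 1) (oc : ι → ι → Bool) :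
    ∃ C : ℝ, 0 ≤ C ∧ ∀ (κ : ι → ℤ) (T N : ℕ) (Y : ℝ) (D : ι → ℕ) (u v : ι),
    1 ≤ N → 0 < Y → lkg oc u v = true →
    |∑ m ∈ Ioc T N, ∑ n ∈ Ioc T N, wtg α oc κ (Function.update (Function.update D u m) v n) *
        Lam (Real.log ((m : ℝ) * n / Y))| ≤
      C * Y * (1 + Real.log N) * ((T : ℝ) + 1) ^ (-(1 / 40 : ℝ)) := by
  obtain ⟨C, hC0, hC⟩ := bil
  refine ⟨C, hC0, fun κ T N Y D u v hN hY hlk => ?_⟩
  have huv : u ≠ v := by
    rintro rfl
    simp [lkg] at hlk
  obtain ⟨a, b, ha, hb, ha0, hb0, hab⟩ := wtg_two α h0 h1 oc κ D u v huv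
  by_cases g1 : oc u v = true
  · have g2 : oc v u = false := by
      unfold lkg at hlk
      rw [g1] at hlk
      simpa using hlk
    have hterm : ∀ m ∈ Ioc T N, ∀ n ∈ Ioc T N,
        wtg α oc κ (Function.update (Function.update D u m) v n) * Lam (Real.log ((m : ℝ) * n / Y)) =
          b n * a m * js (n : ℤ) m * Lam (Real.log ((n : ℝ) * m / Y)) := by
      intro m hm n hn
      have hm0 : m ≠ 0 := by
        have := (mem_Ioc.1 hm).1
        omega
      rw [hab]
      have h3 : phg oc u v m n * phg oc v u n m = js (n : ℤ) m := by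
        unfold phg
        rw [g1, g2]
        by_cases hc : Nat.Coprime m n
        · rw [if_pos hc, if_pos (Nat.Coprime.symm hc)]
          simp
        · have h4 : js (n : ℤ) m = 0 := C1_js_zero hm0 (by
            rw [Int.natAbs_natCast]
            exact fun h => hc h.symm)
          simp [hc, h4]
      rw [h3, mul_comm (m : ℝ) (n : ℝ)]
      ring
    rw [sum_congr rfl fun m hm => sum_congr rfl fun n hn => hterm m hm n hn, sum_comm]
    exact hC T N Y hN hY b a hb ha hb0 ha0
  · have g1' : oc u v = false := by simpa using g1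
    have g2 : oc v u = true := by
      unfold lkg at hlk
      rw [g1'] at hlk
      simpa using hlk
    have hterm : ∀ m ∈ Ioc T N, ∀ n ∈ Ioc T N,
        wtg α oc κ (Function.update (Function.update D u m) v n) * Lam (Real.log ((m : ℝ) * n / Y)) =
          a m * b n * js (m : ℤ) n * Lam (Real.log ((m : ℝ) * n / Y)) := by
      intro m hm n hn
      have hn0 : n ≠ 0 := by
        have := (mem_Ioc.1 hn).1
        omega
      rw [hab]
      have h3 : phg oc u v m n * phg oc v u n m = js (m : ℤ) n := by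
        unfold phg
        rw [g1', g2]
        by_cases hc : Nat.Coprime m n
        · rw [if_pos hc, if_pos (Nat.Coprime.symm hc)]
          simp
        · have h4 : js (m : ℤ) n = 0 := C1_js_zero hn0 (by
            rw [Int.natAbs_natCast]
            exact hc)
          simp [hc, h4]
      rw [h3]
    rw [sum_congr rfl fun m hm => sum_congr rfl fun n hn => hterm m hm n hn]
    exact hC T N Y hN hY a b ha hb ha0 hb0

theorem case1 (α : ℝ) (h0 : 0 ≤ α) (h1 : α ≤ 1) (oc : ι → ι → Bool) :
    ∃ C : ℝ, 0 ≤ C ∧ ∀ (κ : ι → ℤ) (X : ℝ) (T N : ℕ) (A : ι → Finset ℕ) (u v : ι),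
    1 ≤ X → 1 ≤ N → lkg oc u v = true → A u = Ioc T N → A v = Ioc T N → (∀ w, A w ⊆ Icc 1 N) →
    |MSg α oc κ X A| ≤
      C * X * (1 + Real.log N) ^ Fintype.card ι * ((T : ℝ) + 1) ^ (-(1 / 40 : ℝ)) := by
  obtain ⟨C, hC0, hC⟩ := C1_inner α h0 h1 oc
  refine ⟨C, hC0, fun κ X T N A u v hX hN hlk hAu hAv hA => ?_⟩
  have hX0 : 0 < X := by linarith
  have huv : u ≠ v := by
    rintro rfl
    simp [lkg] at hlk
  have hL : 0 ≤ Real.log N := Real.log_natCast_nonneg N
  set B : ι → Finset ℕ := Function.update (Function.update A u {1}) v {1} with hB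
  have hBu : B u = {1} := by rw [hB, Function.update_of_ne huv, Function.update_self]
  have hBv : B v = {1} := by rw [hB, Function.update_self]
  have hBw : ∀ w, w ≠ u → w ≠ v → B w = A w := by
    intro w h1 h2
    rw [hB, Function.update_of_ne h2, Function.update_of_ne h1]
  have hBI : ∀ w, B w ⊆ Icc 1 N := by
    intro w
    by_cases h1 : w = u
    · rw [h1, hBu]
      simpa using hN
    by_cases h2 : w = v
    · rw [h2, hBv]
      simpa using hN
    rw [hBw w h1 h2]
    exact hA w
  set Q : ℝ := (1 + Real.log N) * ((T : ℝ) + 1) ^ (-(1 / 40 : ℝ)) with hQ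
  have hQ0 : 0 ≤ Q := by positivity
  have hinner : ∀ D ∈ Fintype.piFinset B,
      |∑ m ∈ A u, ∑ n ∈ A v, wtg α oc κ (Function.update (Function.update D u m) v n) *
        Lam (Real.log ((∏ w, ((Function.update (Function.update D u m) v n w : ℕ) : ℝ)) / X))| ≤
        C * X * Q * ∏ w, (D w : ℝ)⁻¹ := by
    intro D hD
    have hDB := Fintype.mem_piFinset.1 hD
    have hDu : D u = 1 := by
      have := hDB u
      rw [hBu] at this
      simpa using this
    have hDv : D v = 1 := by
      have := hDB v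
      rw [hBv] at this
      simpa using this
    have hD1 : ∀ w, 1 ≤ D w := fun w => (mem_Icc.1 (hBI w (hDB w))).1
    set P : ℝ := ∏ w, (D w : ℝ) with hP
    have hP0 : 0 < P := prod_pos fun w _ => by exact_mod_cast hD1 w
    have hprod : ∀ m n : ℕ, (∏ w, ((Function.update (Function.update D u m) v n w : ℕ) : ℝ)) =
        m * n * P := by
      intro m n
      have hv1 : v ∈ (univ : Finset ι) := mem_univ v
      have hu1 : u ∈ (univ.erase v : Finset ι) := mem_erase.2 ⟨huv, mem_univ u⟩
      rw [hP, ← mul_prod_erase univ _ hv1, ← mul_prod_erase (univ.erase v) _ hu1,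
        ← mul_prod_erase univ (fun w => (D w : ℝ)) hv1,
        ← mul_prod_erase (univ.erase v) (fun w => (D w : ℝ)) hu1, hDu, hDv,
        Function.update_self, Function.update_of_ne huv, Function.update_self]
      have h3 : ∏ w ∈ (univ.erase v).erase u,
          ((Function.update (Function.update D u m) v n w : ℕ) : ℝ) =
          ∏ w ∈ (univ.erase v).erase u, (D w : ℝ) := by
        refine prod_congr rfl fun w hw => ?_
        have h4 := mem_erase.1 hw
        rw [Function.update_of_ne (mem_erase.1 h4.2).1, Function.update_of_ne h4.1]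
      rw [h3]
      push_cast
      ring
    have h1 := hC κ T N (X / P) D u v hN (by positivity) hlk
    rw [hAu, hAv]
    have h2 : ∀ m n : ℕ, (∏ w, ((Function.update (Function.update D u m) v n w : ℕ) : ℝ)) / X =
        (m : ℝ) * n / (X / P) := by
      intro m n
      rw [hprod, div_div_eq_mul_div]
    simp only [h2]
    refine h1.trans (le_of_eq ?_)
    rw [prod_inv_distrib, hQ, ← hP, div_eq_mul_inv]
    ring
  have hexp : MSg α oc κ X A = ∑ D ∈ Fintype.piFinset B, ∑ m ∈ A u, ∑ n ∈ A v,
      wtg α oc κ (Function.update (Function.update D u m) v n) *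
        Lam (Real.log ((∏ w, ((Function.update (Function.update D u m) v n w : ℕ) : ℝ)) / X)) := by
    unfold MSg
    exact pi_two A u v huv (fun D => wtg α oc κ D * Lam (Real.log ((∏ w, (D w : ℝ)) / X)))
  have hprodsum : ∑ D ∈ Fintype.piFinset B, ∏ w, (D w : ℝ)⁻¹ = ∏ w, ∑ m ∈ B w, (m : ℝ)⁻¹ :=
    (prod_univ_sum B (fun _ m => (m : ℝ)⁻¹)).symm
  have hprodle : ∏ w, ∑ m ∈ B w, (m : ℝ)⁻¹ ≤ (1 + Real.log N) ^ (Fintype.card ι - 2) := by
    have hv1 : v ∈ (univ : Finset ι) := mem_univ v
    have hu1 : u ∈ (univ.erase v : Finset ι) := mem_erase.2 ⟨huv, mem_univ u⟩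
    rw [← mul_prod_erase univ _ hv1, ← mul_prod_erase (univ.erase v) _ hu1, hBu, hBv]
    have hcard : ((univ.erase v).erase u : Finset ι).card = Fintype.card ι - 2 := by
      rw [card_erase_of_mem hu1, card_erase_of_mem hv1, card_univ]
      omega
    have h1 : ∏ w ∈ (univ.erase v).erase u, ∑ m ∈ B w, (m : ℝ)⁻¹ ≤
        ∏ w ∈ (univ.erase v).erase u, (1 + Real.log N) := by
      refine prod_le_prod (fun w _ => sum_nonneg fun m _ => by positivity) fun w _ => ?_
      refine le_trans ?_ (C1_harm N)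
      exact sum_le_sum_of_subset_of_nonneg (hBI w) fun m _ _ => by positivity
    rw [prod_const, hcard] at h1
    simpa using h1
  calc |MSg α oc κ X A| ≤ ∑ D ∈ Fintype.piFinset B, C * X * Q * ∏ w, (D w : ℝ)⁻¹ := by
        rw [hexp]
        exact (abs_sum_le_sum_abs _ _).trans (sum_le_sum hinner)
    _ = C * X * Q * ∏ w, ∑ m ∈ B w, (m : ℝ)⁻¹ := by rw [← mul_sum, hprodsum]
    _ ≤ C * X * Q * (1 + Real.log N) ^ (Fintype.card ι - 2) := by gcongr
    _ = C * X * ((1 + Real.log N) ^ (Fintype.card ι - 2) * (1 + Real.log N)) *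
        ((T : ℝ) + 1) ^ (-(1 / 40 : ℝ)) := by rw [hQ]; ring
    _ ≤ _ := by
        have hl1 : (1 : ℝ) ≤ 1 + Real.log N := by linarith
        have hc2 : Fintype.card ι - 2 + 1 ≤ Fintype.card ι := by
          have : 1 ≤ Fintype.card ι := Fintype.card_pos_iff.2 ⟨u⟩
          omega
        rw [← pow_succ]
        have := pow_le_pow_right₀ hl1 hc2
        gcongr

end Pool.Agent.AVK
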