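import Pool.Agent.Lib_helper21.AVK.Defs

/-! # HTa: logarithmic mean value of `θ^ω` -/

set_option autoImplicit false

namespace Pool.Agent.AVK

open Finset
open Pool.Agent.AV (om js Lam K4 n4)

/-- the monoid homomorphism `n ↦ n ^ (-s)` -/
noncomputable def HTa_hom (s : ℝ) (hs : s ≠ 0) : ℕ →*₀ ℝ where
  toFun n := (n : ℝ) ^ (-s)
  map_zero' := by simp [Real.zero_rpow (neg_ne_zero.2 hs)]
  map_one' := by simp
  map_mul' a b := by
    push_cast
    exact Real.mul_rpow (Nat.cast_nonneg a) (Nat.cast_nonneg b)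

theorem HTa_summable {s : ℝ} (hs : 1 < s) : Summable (fun n : ℕ => (n : ℝ) ^ (-s)) := by
  have := Real.summable_nat_rpow (p := -s)
  exact this.2 (by linarith)

theorem HTa_zeta {s : ℝ} (hs : 1 < s) : ∑' n : ℕ, (n : ℝ) ^ (-s) ≤ 1 + 1 / (s - 1) := by
  have h0 : ∑' n : ℕ, (n : ℝ) ^ (-s) = ∑' n : ℕ, 1 / (n + 1 : ℝ) ^ s := by
    rw [(HTa_summable hs).tsum_eq_zero_add]
    have h1 : ((0 : ℕ) : ℝ) ^ (-s) = 0 := by
      rw [Nat.cast_zero, Real.zero_rpow (by linarith)]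
    rw [h1, zero_add]
    refine tsum_congr fun n => ?_
    push_cast
    rw [Real.rpow_neg (by positivity), one_div]
  have h2 := ZetaAsymptotics.zeta_limit_aux1 hs
  have h3 : 0 ≤ ZetaAsymptotics.termTSum s := tsum_nonneg fun n => ZetaAsymptotics.term_nonneg _ _
  rw [h0]
  have h4 : 0 ≤ s * ZetaAsymptotics.termTSum s := mul_nonneg (by linarith) h3
  linarith

theorem HTa_euler {s : ℝ} (hs : 1 < s) (N : ℕ) :
    ∏ p ∈ N.primesBelow, (1 - (p : ℝ) ^ (-s))⁻¹ ≤ 1 + 1 / (s - 1) := by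
  have hs0 : s ≠ 0 := by linarith
  have h := EulerProduct.prod_primesBelow_geometric_eq_tsum_smoothNumbers
    (f := (HTa_hom s hs0 : ℕ →* ℝ)) (HTa_summable hs) N
  have h' : ∏ p ∈ N.primesBelow, (1 - (p : ℝ) ^ (-s))⁻¹ =
      ∑' m : N.smoothNumbers, ((m : ℕ) : ℝ) ^ (-s) := h
  rw [h']
  refine le_trans ?_ (HTa_zeta hs)
  exact Summable.tsum_subtype_le (fun n : ℕ => (n : ℝ) ^ (-s)) _
    (fun n => Real.rpow_nonneg (Nat.cast_nonneg n) _) (HTa_summable hs)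

theorem HTa_bern {θ : ℝ} (t0 : 0 ≤ θ) (t1 : θ ≤ 1) {x : ℝ} (h0 : 0 ≤ x) (h1 : x < 1) :
    1 + θ * x ≤ ((1 - x)⁻¹) ^ θ := by
  have h2 : (1 + -x) ^ θ ≤ 1 + θ * -x :=
    rpow_one_add_le_one_add_mul_self (by linarith) t0 t1
  have h3 : 0 < (1 - x) ^ θ := Real.rpow_pos_of_pos (by linarith) _
  have h5 : 0 ≤ θ * x := mul_nonneg t0 h0
  have h6 : θ * x < 1 := by
    have : θ * x ≤ 1 * x := mul_le_mul_of_nonneg_right t1 h0
    linarith
  rw [Real.inv_rpow (by linarith)]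
  rw [le_inv_comm₀ (by linarith) h3]
  have h4 : (1 - x) ^ θ ≤ 1 - θ * x := by
    have : (1 + -x) = 1 - x := by ring
    rw [this] at h2
    linarith
  refine h4.trans ?_
  rw [le_inv_comm₀ (by linarith) (by linarith), ← one_div, le_div_iff₀ (by linarith)]
  nlinarith [mul_self_nonneg (θ * x)]

/-- the weight -/
noncomputable def HTa_g (θ s : ℝ) (m : ℕ) : ℝ := θ ^ om m * (m : ℝ) ^ (-s)

theorem HTa_g_sq (θ s : ℝ) {m : ℕ} (hm : Squarefree m) :
    HTa_g θ s m = ∏ p ∈ m.primeFactors, (θ * (p : ℝ) ^ (-s)) := by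
  rw [Finset.prod_mul_distrib, Finset.prod_const]
  unfold HTa_g om
  congr 1
  have h1 : (∏ p ∈ m.primeFactors, p) = m := Nat.prod_primeFactors_of_squarefree hm
  conv_lhs => rw [← h1]
  rw [Nat.cast_prod, Real.finsetProd_rpow]
  intro i _
  exact Nat.cast_nonneg i

theorem HTa_sum {θ : ℝ} (t0 : 0 ≤ θ) (s : ℝ) (N : ℕ) :
    ∑ m ∈ (Icc 1 N).filter Squarefree, HTa_g θ s m ≤
      ∏ p ∈ (N + 1).primesBelow, (1 + θ * (p : ℝ) ^ (-s)) := by
  rw [Finset.prod_one_add]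
  have h1 : ∑ m ∈ (Icc 1 N).filter Squarefree, HTa_g θ s m =
      ∑ S ∈ ((Icc 1 N).filter Squarefree).image Nat.primeFactors,
        ∏ p ∈ S, (θ * (p : ℝ) ^ (-s)) := by
    rw [Finset.sum_image]
    · refine Finset.sum_congr rfl fun m hm => ?_
      exact HTa_g_sq θ s (Finset.mem_filter.1 hm).2
    · intro a ha b hb hab
      have ha2 : Squarefree a := (Finset.mem_filter.1 (Finset.mem_coe.1 ha)).2
      have hb2 : Squarefree b := (Finset.mem_filter.1 (Finset.mem_coe.1 hb)).2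
      rw [← Nat.prod_primeFactors_of_squarefree ha2, ← Nat.prod_primeFactors_of_squarefree hb2, hab]
  rw [h1]
  refine Finset.sum_le_sum_of_subset_of_nonneg ?_ fun S _ _ =>
    Finset.prod_nonneg fun p _ => mul_nonneg t0 (Real.rpow_nonneg (Nat.cast_nonneg p) _)
  intro S hS
  obtain ⟨m, hm, rfl⟩ := Finset.mem_image.1 hS
  rw [Finset.mem_powerset]
  intro p hp
  have hm1 := (Finset.mem_Icc.1 (Finset.mem_filter.1 hm).1)
  have hpp := Nat.prime_of_mem_primeFactors hp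
  have hpm := Nat.le_of_mem_primeFactors hp
  exact Nat.mem_primesBelow.2 ⟨by omega, hpp⟩

theorem HTa_prod {θ : ℝ} (t0 : 0 ≤ θ) (t1 : θ ≤ 1) {s : ℝ} (hs : 1 < s) (N : ℕ) :
    ∏ p ∈ N.primesBelow, (1 + θ * (p : ℝ) ^ (-s)) ≤ (1 + 1 / (s - 1)) ^ θ := by
  have hx : ∀ p ∈ N.primesBelow, 0 ≤ (p : ℝ) ^ (-s) ∧ (p : ℝ) ^ (-s) < 1 := by
    intro p hp
    have hpp := (Nat.mem_primesBelow.1 hp).2
    have h2 : (1 : ℝ) < p := by exact_mod_cast hpp.one_lt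
    exact ⟨by positivity, Real.rpow_lt_one_of_one_lt_of_neg h2 (by linarith)⟩
  calc ∏ p ∈ N.primesBelow, (1 + θ * (p : ℝ) ^ (-s))
      ≤ ∏ p ∈ N.primesBelow, ((1 - (p : ℝ) ^ (-s))⁻¹) ^ θ := by
        refine Finset.prod_le_prod (fun p hp => ?_) fun p hp => ?_
        · have := mul_nonneg t0 (hx p hp).1
          linarith
        · exact HTa_bern t0 t1 (hx p hp).1 (hx p hp).2
    _ = (∏ p ∈ N.primesBelow, (1 - (p : ℝ) ^ (-s))⁻¹) ^ θ := by
        rw [Real.finsetProd_rpow]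
        intro p hp
        exact inv_nonneg.2 (by linarith [(hx p hp).2])
    _ ≤ (1 + 1 / (s - 1)) ^ θ := by
        refine Real.rpow_le_rpow ?_ (HTa_euler hs N) t0
        exact Finset.prod_nonneg fun p hp => inv_nonneg.2 (by linarith [(hx p hp).2])

theorem ht_log (θ : ℝ) (h0 : 0 ≤ θ) (h1 : θ ≤ 1) : ∃ C : ℝ, 0 ≤ C ∧ ∀ Y : ℝ, 1 ≤ Y →
    ∑ m ∈ (Icc 1 ⌊Y⌋₊).filter Squarefree, θ ^ om m / m ≤
      C * (1 + Real.log Y) ^ θ := by
  refine ⟨Real.exp 1 * (2 : ℝ) ^ θ, by positivity, fun Y hY => ?_⟩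
  obtain ⟨L, hL⟩ : ∃ L, L = 1 + Real.log Y := ⟨_, rfl⟩
  have hlog : 0 ≤ Real.log Y := Real.log_nonneg hY
  have hL1 : 1 ≤ L := by linarith
  have hL0 : 0 < L := by linarith
  obtain ⟨s, hs⟩ : ∃ s, s = 1 + 1 / L := ⟨_, rfl⟩
  rw [← hL]
  have hs1 : 1 < s := by
    have : 0 < 1 / L := by positivity
    linarith
  have hterm : ∀ m ∈ (Icc 1 ⌊Y⌋₊).filter Squarefree,
      θ ^ om m / m ≤ Real.exp 1 * HTa_g θ s m := by
    intro m hm
    have hm1 := (Finset.mem_Icc.1 (Finset.mem_filter.1 hm).1)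
    have hm0 : (0 : ℝ) < m := by exact_mod_cast hm1.1
    have hmY : (m : ℝ) ≤ Y := (Nat.le_floor_iff (by linarith)).1 hm1.2
    have e1 : (m : ℝ) ^ (-s) * (m : ℝ) ^ (1 / L) = (m : ℝ)⁻¹ := by
      rw [← Real.rpow_add hm0, ← Real.rpow_neg_one]
      congr 1
      rw [hs]; ring
    have e2 : (m : ℝ) ^ (1 / L) ≤ Real.exp 1 := by
      calc (m : ℝ) ^ (1 / L) ≤ Y ^ (1 / L) := Real.rpow_le_rpow hm0.le hmY (by positivity)
        _ = Real.exp (Real.log Y * (1 / L)) := by rw [Real.rpow_def_of_pos (by linarith)]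
        _ ≤ Real.exp 1 := by
            apply Real.exp_le_exp.2
            rw [mul_one_div, div_le_one hL0]
            linarith
    unfold HTa_g
    rw [div_eq_mul_inv, ← e1]
    have e3 : 0 ≤ θ ^ om m := pow_nonneg h0 _
    have e4 : 0 ≤ (m : ℝ) ^ (-s) := Real.rpow_nonneg hm0.le _
    have e5 := mul_le_mul_of_nonneg_left e2 (mul_nonneg e3 e4)
    calc θ ^ om m * ((m : ℝ) ^ (-s) * (m : ℝ) ^ (1 / L))
        = θ ^ om m * (m : ℝ) ^ (-s) * (m : ℝ) ^ (1 / L) := by ring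
      _ ≤ θ ^ om m * (m : ℝ) ^ (-s) * Real.exp 1 := e5
      _ = Real.exp 1 * (θ ^ om m * (m : ℝ) ^ (-s)) := by ring
  calc ∑ m ∈ (Icc 1 ⌊Y⌋₊).filter Squarefree, θ ^ om m / m
      ≤ ∑ m ∈ (Icc 1 ⌊Y⌋₊).filter Squarefree, Real.exp 1 * HTa_g θ s m :=
        Finset.sum_le_sum hterm
    _ = Real.exp 1 * ∑ m ∈ (Icc 1 ⌊Y⌋₊).filter Squarefree, HTa_g θ s m := by
        rw [Finset.mul_sum]
    _ ≤ Real.exp 1 * (1 + 1 / (s - 1)) ^ θ := by
        refine mul_le_mul_of_nonneg_left ?_ (Real.exp_pos 1).le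
        exact (HTa_sum h0 s _).trans (HTa_prod h0 h1 hs1 _)
    _ ≤ Real.exp 1 * (2 * L) ^ θ := by
        refine mul_le_mul_of_nonneg_left ?_ (Real.exp_pos 1).le
        have h6 : 1 + 1 / (s - 1) = 1 + L := by
          have : s - 1 = 1 / L := by rw [hs]; ring
          rw [this, one_div_one_div]
        rw [h6]
        exact Real.rpow_le_rpow (by linarith) (by linarith) h0
    _ = Real.exp 1 * (2 : ℝ) ^ θ * L ^ θ := by
        rw [Real.mul_rpow (by norm_num) hL0.le]; ring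

end Pool.Agent.AVK
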