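import Pool.Agent.Lib_helper21.AVK.Defs
import Pool.Agent.Lib_helper21.AVK.W.HTa

/-! # HTb: mean value of `θ^ω` -/

set_option autoImplicit false

namespace Pool.Agent.AVK

open Finset
open Pool.Agent.AV (om js Lam K4 n4)

/-- logarithm of a squarefree number -/
theorem HTb_log {m : ℕ} (hm : Squarefree m) :
    Real.log m = ∑ p ∈ m.primeFactors, Real.log p := by
  have h1 := Nat.prod_primeFactors_of_squarefree hm
  have h2 : ((∏ p ∈ m.primeFactors, p : ℕ) : ℝ) = (m : ℝ) := by rw [h1]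
  rw [← h2, Nat.cast_prod, Real.log_prod]
  intro p hp
  exact_mod_cast (Nat.prime_of_mem_primeFactors hp).ne_zero

/-- a prime factor is taken out -/
theorem HTb_om {m p : ℕ} (hm : Squarefree m) (hp : p ∈ m.primeFactors) :
    om m = om (m / p) + 1 := by
  obtain ⟨k, rfl⟩ := Nat.dvd_of_mem_primeFactors hp
  have hpp := Nat.prime_of_mem_primeFactors hp
  have hcop : Nat.Coprime p k := (Nat.squarefree_mul_iff.1 hm).1
  rw [Nat.mul_div_cancel_left k hpp.pos]
  unfold om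
  rw [hcop.primeFactors_mul, card_union_of_disjoint hcop.disjoint_primeFactors,
    hpp.primeFactors, card_singleton, add_comm]

theorem HTb_sum (θ : ℝ) (h0 : 0 ≤ θ) (Y : ℝ) (hY : 1 ≤ Y) :
    ∑ m ∈ (Icc 1 ⌊Y⌋₊).filter Squarefree, θ ^ om m * Real.log m ≤
      θ * Real.log 4 * Y * ∑ m ∈ (Icc 1 ⌊Y⌋₊).filter Squarefree, θ ^ om m / m := by
  classical
  set S := (Icc 1 ⌊Y⌋₊).filter Squarefree with hS
  set T : ℕ → Finset ℕ := fun m => (Ioc 0 ⌊Y / m⌋₊).filter Nat.Prime with hT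
  have h1 : ∑ m ∈ S, θ ^ om m * Real.log m =
      ∑ x ∈ S.sigma fun m => m.primeFactors, θ ^ om x.1 * Real.log x.2 := by
    rw [sum_sigma]
    refine sum_congr rfl fun m hm => ?_
    rw [HTb_log (mem_filter.1 hm).2, mul_sum]
  have h2 : ∑ x ∈ S.sigma fun m => m.primeFactors, θ ^ om x.1 * Real.log x.2 =
      ∑ y ∈ (S.sigma fun m => m.primeFactors).image
        (fun x : (_ : ℕ) × ℕ => (⟨x.1 / x.2, x.2⟩ : (_ : ℕ) × ℕ)),
        θ * (θ ^ om y.1 * Real.log y.2) := by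
    rw [sum_image]
    · refine sum_congr rfl fun x hx => ?_
      rw [mem_sigma] at hx
      rw [HTb_om (mem_filter.1 hx.1).2 hx.2, pow_succ]
      ring
    · rintro ⟨a, p⟩ hx ⟨b, q⟩ hy hxy
      simp only [coe_sigma, Set.mem_sigma_iff, mem_coe] at hx hy
      simp only [Sigma.mk.injEq, heq_eq_eq] at hxy
      obtain ⟨h3, rfl⟩ := hxy
      have h4 := Nat.div_mul_cancel (Nat.dvd_of_mem_primeFactors hx.2)
      have h5 := Nat.div_mul_cancel (Nat.dvd_of_mem_primeFactors hy.2)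
      have : a = b := by rw [← h4, ← h5, h3]
      subst this
      rfl
  have h3 : ∑ y ∈ (S.sigma fun m => m.primeFactors).image
        (fun x : (_ : ℕ) × ℕ => (⟨x.1 / x.2, x.2⟩ : (_ : ℕ) × ℕ)),
        θ * (θ ^ om y.1 * Real.log y.2) ≤
      ∑ y ∈ S.sigma T, θ * (θ ^ om y.1 * Real.log y.2) := by
    apply sum_le_sum_of_subset_of_nonneg
    · intro y hy
      rw [mem_image] at hy
      obtain ⟨⟨a, p⟩, hx, rfl⟩ := hy
      rw [mem_sigma] at hx
      obtain ⟨hx1, hx2⟩ := hx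
      simp only at hx1 hx2
      rw [hS, mem_filter, mem_Icc] at hx1
      have hpp := Nat.prime_of_mem_primeFactors hx2
      obtain ⟨k, rfl⟩ := Nat.dvd_of_mem_primeFactors hx2
      have hk : 0 < k := by
        rcases Nat.eq_zero_or_pos k with rfl | h
        · simp at hx1
        · exact h
      have hle : ((p * k : ℕ) : ℝ) ≤ Y :=
        (Nat.cast_le.2 hx1.1.2).trans (Nat.floor_le (by linarith))
      rw [mem_sigma]
      simp only [Nat.mul_div_cancel_left k hpp.pos]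
      constructor
      · rw [hS, mem_filter, mem_Icc]
        refine ⟨⟨hk, ?_⟩, (Nat.squarefree_mul_iff.1 hx1.2).2.2⟩
        exact (Nat.le_mul_of_pos_left k hpp.pos).trans hx1.1.2
      · rw [hT]
        simp only
        rw [mem_filter, mem_Ioc]
        refine ⟨⟨hpp.pos, Nat.le_floor ?_⟩, hpp⟩
        rw [le_div_iff₀ (by exact_mod_cast hk)]
        exact_mod_cast hle
    · rintro ⟨a, p⟩ hy _
      rw [mem_sigma] at hy
      have hp : Nat.Prime p := (mem_filter.1 hy.2).2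
      have : 0 ≤ Real.log (p : ℝ) := Real.log_nonneg (by exact_mod_cast hp.one_le)
      exact mul_nonneg h0 (mul_nonneg (pow_nonneg h0 _) this)
  rw [h1, h2]
  refine h3.trans ?_
  rw [sum_sigma, mul_sum]
  apply sum_le_sum
  intro m hm
  rw [hS, mem_filter, mem_Icc] at hm
  have hm0 : (0 : ℝ) < m := by exact_mod_cast hm.1.1
  have h4 : ∑ p ∈ T m, Real.log (p : ℝ) ≤ Real.log 4 * (Y / m) := by
    have := Chebyshev.theta_le_log4_mul_x (x := Y / m) (by positivity)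
    rwa [Chebyshev.theta] at this
  simp only
  rw [← mul_sum, ← mul_sum]
  calc θ * (θ ^ om m * ∑ p ∈ T m, Real.log (p : ℝ))
      ≤ θ * (θ ^ om m * (Real.log 4 * (Y / m))) :=
        mul_le_mul_of_nonneg_left (mul_le_mul_of_nonneg_left h4 (pow_nonneg h0 _)) h0
    _ = θ * Real.log 4 * Y * (θ ^ om m / m) := by ring

theorem ht (θ : ℝ) (h0 : 0 ≤ θ) (h1 : θ ≤ 1) : ∃ C : ℝ, 0 ≤ C ∧ ∀ Y : ℝ, 1 ≤ Y →
    ∑ m ∈ (Icc 1 ⌊Y⌋₊).filter Squarefree, θ ^ om m ≤ C * Y * (1 + Real.log Y) ^ (θ - 1) := by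
  obtain ⟨C, hC, hlog⟩ := ht_log θ h0 h1
  have hlog4 : 0 ≤ Real.log 4 := Real.log_nonneg (by norm_num)
  refine ⟨(2 + θ * Real.log 4) * C, by positivity, fun Y hY => ?_⟩
  have hY0 : 0 < Y := by linarith
  have hlY : 0 ≤ Real.log Y := Real.log_nonneg hY
  set S := (Icc 1 ⌊Y⌋₊).filter Squarefree with hS
  set L := ∑ m ∈ S, θ ^ om m / m with hL
  have hL1 : L ≤ C * (1 + Real.log Y) ^ θ := hlog Y hY
  have hmem : ∀ m ∈ S, (0 : ℝ) < m ∧ (m : ℝ) ≤ Y := by
    intro m hm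
    rw [hS, mem_filter, mem_Icc] at hm
    exact ⟨by exact_mod_cast hm.1.1, (Nat.cast_le.2 hm.1.2).trans (Nat.floor_le hY0.le)⟩
  have hpw : ∀ m : ℕ, 0 ≤ θ ^ om m := fun m => pow_nonneg h0 _
  have hA : ∑ m ∈ S, θ ^ om m ≤ Y * L := by
    rw [hL, mul_sum]
    apply sum_le_sum
    intro m hm
    obtain ⟨h1, h2⟩ := hmem m hm
    have : (1 : ℝ) ≤ Y / m := by rwa [le_div_iff₀ h1, one_mul]
    calc θ ^ om m = θ ^ om m * 1 := by ring
      _ ≤ θ ^ om m * (Y / m) := mul_le_mul_of_nonneg_left this (hpw m)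
      _ = Y * (θ ^ om m / m) := by ring
  have hB : ∑ m ∈ S, θ ^ om m * Real.log (Y / m) ≤ Y * L := by
    rw [hL, mul_sum]
    apply sum_le_sum
    intro m hm
    obtain ⟨h1, h2⟩ := hmem m hm
    have : Real.log (Y / m) ≤ Y / m :=
      (Real.log_le_sub_one_of_pos (by positivity)).trans (by linarith)
    calc θ ^ om m * Real.log (Y / m) ≤ θ ^ om m * (Y / m) :=
          mul_le_mul_of_nonneg_left this (hpw m)
      _ = Y * (θ ^ om m / m) := by ring
  have hD : (∑ m ∈ S, θ ^ om m) * Real.log Y =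
      ∑ m ∈ S, θ ^ om m * Real.log m + ∑ m ∈ S, θ ^ om m * Real.log (Y / m) := by
    rw [← sum_add_distrib, sum_mul]
    apply sum_congr rfl
    intro m hm
    obtain ⟨h1, h2⟩ := hmem m hm
    rw [Real.log_div hY0.ne' h1.ne']
    ring
  have hE := HTb_sum θ h0 Y hY
  rw [← hS, ← hL] at hE
  have hF : (∑ m ∈ S, θ ^ om m) * (1 + Real.log Y) ≤ (2 + θ * Real.log 4) * Y * L := by
    rw [mul_add, mul_one, hD]
    linarith
  have hpos : 0 < 1 + Real.log Y := by linarith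
  have hG : (∑ m ∈ S, θ ^ om m) * (1 + Real.log Y) ≤
      ((2 + θ * Real.log 4) * C * Y * (1 + Real.log Y) ^ (θ - 1)) * (1 + Real.log Y) := by
    have h1 : (1 + Real.log Y) ^ (θ - 1) * (1 + Real.log Y) = (1 + Real.log Y) ^ θ := by
      rw [← Real.rpow_add_one hpos.ne', sub_add_cancel]
    have h2 : 0 ≤ (2 + θ * Real.log 4) * Y := by positivity
    calc (∑ m ∈ S, θ ^ om m) * (1 + Real.log Y)
        ≤ (2 + θ * Real.log 4) * Y * L := hF
      _ ≤ (2 + θ * Real.log 4) * Y * (C * (1 + Real.log Y) ^ θ) :=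
          mul_le_mul_of_nonneg_left hL1 h2
      _ = (2 + θ * Real.log 4) * C * Y *
          ((1 + Real.log Y) ^ (θ - 1) * (1 + Real.log Y)) := by rw [h1]; ring
      _ = _ := by ring
  exact le_of_mul_le_mul_right hG hpos

end Pool.Agent.AVK
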