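import Mathlib
import Pool.Agent.Lib_helper21.AVK.Defs
import Pool.Agent.Lib_helper21.AVK.W.HTb
import Pool.Agent.Lib_helper21.AVK.W.TU
import Pool.Agent.Lib_helper21.AVK.W.STa

/-! # C2: not too many large variables -/

set_option autoImplicit false

namespace Pool.Agent.AVK

open Finset
open Pool.Agent.AV (om js Lam K4 n4)

variable {ι : Type} [Fintype ι] [DecidableEq ι]

theorem C2_gw_le (α : ℝ) (h0 : 0 ≤ α) (m : ℕ) : gwa α m ≤ α ^ om m := by
  unfold gwa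
  split_ifs
  · exact le_rfl
  · positivity

theorem C2_Lam_nonneg (x : ℝ) : 0 ≤ Lam x := le_max_left _ _

theorem C2_Lam_le (x : ℝ) : Lam x ≤ 1 := by
  unfold Lam
  apply max_le (by norm_num)
  linarith [abs_nonneg x]

theorem C2_Lam_zero (x : ℝ) (hx : 1 < x) : Lam x = 0 := by
  unfold Lam
  apply max_eq_left
  linarith [le_abs_self x]

/-- one term -/
theorem C2_term (α : ℝ) (h0 : 0 ≤ α) (oc : ι → ι → Bool) (κ : ι → ℤ) (X : ℝ) (hX : 1 ≤ X)
    (D : ι → ℕ) :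
    |wtg α oc κ D * Lam (Real.log ((∏ u, (D u : ℝ)) / X))| ≤
      if (Squarefree (∏ u, D u) ∧ ((∏ u, D u : ℕ) : ℝ) ≤ Real.exp 1 * X) then
        ∏ u, gwa α (D u) else 0 := by
  by_cases h1 : Squarefree (∏ u, D u)
  · by_cases h2 : ((∏ u, D u : ℕ) : ℝ) ≤ Real.exp 1 * X
    · rw [if_pos ⟨h1, h2⟩, abs_mul, abs_of_nonneg (C2_Lam_nonneg _)]
      calc |wtg α oc κ D| * Lam (Real.log ((∏ u, (D u : ℝ)) / X))
          ≤ |wtg α oc κ D| * 1 := mul_le_mul_of_nonneg_left (C2_Lam_le _) (abs_nonneg _)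
        _ = |wtg α oc κ D| := mul_one _
        _ ≤ _ := wtg_abs α h0 oc κ D
    · rw [if_neg (fun h => h2 h.2), C2_Lam_zero, mul_zero, abs_zero]
      push_cast at h2
      push Not at h2
      have hX0 : 0 < X := by linarith
      rw [Real.lt_log_iff_exp_lt (by
        apply div_pos _ hX0
        refine lt_trans ?_ h2
        positivity)]
      rw [lt_div_iff₀ hX0]
      exact h2
  · rw [if_neg (fun h => h1 h.1), wtg_zero α oc κ D (fun h => h1 h.1), zero_mul, abs_zero]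

omit [Fintype ι] in
theorem C2_inner (α : ℝ) (h0 : 0 ≤ α) (θ : ℝ) (hθ0 : 0 ≤ θ) (hθ1 : θ ≤ 1) (C : ℝ) (hC : 0 ≤ C)
    (hht : ∀ Y : ℝ, 1 ≤ Y →
    ∑ m ∈ (Icc 1 ⌊Y⌋₊).filter Squarefree, θ ^ om m ≤
      C * Y * (1 + Real.log Y) ^ (θ - 1)) (J : Finset ι) (hJ : (J.card : ℝ) * α ≤ θ)
    (A : {x : ι // x ∈ J} → Finset ℕ) (X : ℝ) (hX : 1 ≤ X) (M : ℕ) (hM : 1 ≤ M)
    (hMX : (M : ℝ) ≤ √X) :
    ∑ D ∈ Fintype.piFinset A, (if (Squarefree ((∏ i, D i) * M) ∧
      (((∏ i, D i) * M : ℕ) : ℝ) ≤ Real.exp 1 * X) then ∏ i, α ^ om (D i) else 0) ≤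
      (2 * C * Real.exp 1 * X * (1 + Real.log X) ^ (θ - 1)) * (1 / (M : ℝ)) := by
  have hM0 : (0 : ℝ) < M := by exact_mod_cast hM
  have hX0 : 0 < X := by linarith
  have hsX : 1 ≤ √X := by
    rw [Real.one_le_sqrt]
    exact hX
  have he : (1 : ℝ) ≤ Real.exp 1 := Real.one_le_exp (by norm_num)
  have hY : √X ≤ Real.exp 1 * X / M := by
    rw [le_div_iff₀ hM0]
    calc √X * M ≤ √X * √X := by gcongr
      _ = X := Real.mul_self_sqrt hX0.le
      _ = 1 * X := (one_mul X).symm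
      _ ≤ Real.exp 1 * X := by gcongr
  have hY1 : 1 ≤ Real.exp 1 * X / M := hsX.trans hY
  have hlogX : 0 ≤ Real.log X := Real.log_nonneg hX
  have hlogY : (1 + Real.log X) / 2 ≤ 1 + Real.log (Real.exp 1 * X / M) := by
    have h1 : Real.log (√X) ≤ Real.log (Real.exp 1 * X / M) :=
      Real.log_le_log (by linarith) hY
    rw [Real.log_sqrt hX0.le] at h1
    linarith
  have hpow : (1 + Real.log (Real.exp 1 * X / M)) ^ (θ - 1) ≤
      2 * (1 + Real.log X) ^ (θ - 1) := by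
    calc (1 + Real.log (Real.exp 1 * X / M)) ^ (θ - 1)
        ≤ ((1 + Real.log X) / 2) ^ (θ - 1) := by
          apply Real.rpow_le_rpow_of_nonpos (by positivity) hlogY (by linarith)
      _ = (1 + Real.log X) ^ (θ - 1) / 2 ^ (θ - 1) := by
          rw [Real.div_rpow (by positivity) (by norm_num)]
      _ = (2 : ℝ) ^ (1 - θ) * (1 + Real.log X) ^ (θ - 1) := by
          have e1 : (2 : ℝ) ^ (1 - θ) = ((2 : ℝ) ^ (θ - 1))⁻¹ := by
            rw [← Real.rpow_neg (by norm_num : (0 : ℝ) ≤ 2)]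
            congr 1
            ring
          rw [e1, div_eq_inv_mul]
      _ ≤ 2 * (1 + Real.log X) ^ (θ - 1) := by
          apply mul_le_mul_of_nonneg_right _ (by positivity)
          calc (2 : ℝ) ^ (1 - θ) ≤ (2 : ℝ) ^ (1 : ℝ) :=
                Real.rpow_le_rpow_of_exponent_le (by norm_num) (by linarith)
            _ = 2 := Real.rpow_one _
  have h1 := tup α h0 A ⌊Real.exp 1 * X / M⌋₊
  have hcard : (Fintype.card {x : ι // x ∈ J} : ℝ) = (J.card : ℝ) := by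
    rw [Fintype.card_coe]
  rw [hcard] at h1
  have h1' : ∑ m ∈ (Icc 1 ⌊Real.exp 1 * X / M⌋₊).filter Squarefree,
      ((J.card : ℝ) * α) ^ om m ≤
      ∑ m ∈ (Icc 1 ⌊Real.exp 1 * X / M⌋₊).filter Squarefree, θ ^ om m :=
    Finset.sum_le_sum fun m _ => pow_le_pow_left₀ (by positivity) hJ _
  have h2 := hht _ hY1
  have h3 : ∑ D ∈ Fintype.piFinset A, (if (Squarefree ((∏ i, D i) * M) ∧
      (((∏ i, D i) * M : ℕ) : ℝ) ≤ Real.exp 1 * X) then ∏ i, α ^ om (D i) else 0) ≤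
      ∑ D ∈ (Fintype.piFinset A).filter (fun D => ∏ i, D i ≤ ⌊Real.exp 1 * X / M⌋₊ ∧
        Squarefree (∏ i, D i)), ∏ i, α ^ om (D i) := by
    rw [Finset.sum_filter]
    apply Finset.sum_le_sum
    intro D _
    by_cases g : (Squarefree ((∏ i, D i) * M) ∧
      (((∏ i, D i) * M : ℕ) : ℝ) ≤ Real.exp 1 * X)
    · rw [if_pos g, if_pos]
      refine ⟨?_, g.1.of_mul_left⟩
      apply Nat.le_floor
      rw [le_div_iff₀ hM0]
      have := g.2
      rwa [Nat.cast_mul] at this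
    · rw [if_neg g]
      split_ifs
      · exact Finset.prod_nonneg fun i _ => pow_nonneg h0 _
      · exact le_rfl
  refine h3.trans (h1.trans (h1'.trans (h2.trans ?_)))
  calc C * (Real.exp 1 * X / M) * (1 + Real.log (Real.exp 1 * X / M)) ^ (θ - 1)
      ≤ C * (Real.exp 1 * X / M) * (2 * (1 + Real.log X) ^ (θ - 1)) := by gcongr
    _ = _ := by ring

theorem case2 (α : ℝ) (h0 : 0 ≤ α) (h1 : α ≤ 1) (oc : ι → ι → Bool) (θ : ℝ) (hθ0 : 0 ≤ θ)
    (hθ1 : θ ≤ 1) : ∃ C : ℝ, 0 ≤ C ∧ ∀ (κ : ι → ℤ) (X : ℝ) (A : ι → Finset ℕ) (J : Finset ι)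
    (R : ι → ℕ), 1 ≤ X → (J.card : ℝ) * α ≤ θ → (∀ v, 1 ≤ R v) → (∀ v ∉ J, A v ⊆ Icc 1 (R v)) →
    ((∏ v ∈ univ \ J, (R v : ℝ)) ≤ √X) →
    |MSg α oc κ X A| ≤ C * X * (1 + Real.log X) ^ (θ - 1) *
      ∏ v ∈ univ \ J, (1 + Real.log (R v)) := by
  classical
  obtain ⟨C, hC, hht⟩ := ht θ hθ0 hθ1
  refine ⟨2 * C * Real.exp 1, by positivity, ?_⟩
  intro κ X A J R hX hJ hR hA hprod
  have hX0 : 0 < X := by linarith
  have hlogX : 0 ≤ Real.log X := Real.log_nonneg hX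
  -- passage to the subtype of the complement
  have hsub : ∀ g : ι → ℝ, ∏ v ∈ univ \ J, g v = ∏ v : {x : ι // ¬ x ∈ J}, g v := by
    intro g
    apply Finset.prod_subtype
    intro x
    simp
  unfold MSg
  have s1 : |∑ D ∈ Fintype.piFinset A, wtg α oc κ D * Lam (Real.log ((∏ u, (D u : ℝ)) / X))| ≤
      ∑ D ∈ Fintype.piFinset A, (if (Squarefree (∏ u, D u) ∧
        ((∏ u, D u : ℕ) : ℝ) ≤ Real.exp 1 * X) then ∏ u, gwa α (D u) else 0) :=
    (Finset.abs_sum_le_sum_abs _ _).trans (Finset.sum_le_sum fun D _ => C2_term α h0 oc κ X hX D)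
  refine s1.trans ?_
  -- splitting
  have s2 : ∑ D ∈ Fintype.piFinset A, (if (Squarefree (∏ u, D u) ∧
        ((∏ u, D u : ℕ) : ℝ) ≤ Real.exp 1 * X) then ∏ u, gwa α (D u) else 0) =
      ∑ p ∈ (Fintype.piFinset fun i : {x : ι // x ∈ J} => A i) ×ˢ
        (Fintype.piFinset fun i : {x : ι // ¬ x ∈ J} => A i),
        (if (Squarefree ((∏ i, p.1 i) * ∏ i, p.2 i) ∧
          (((∏ i, p.1 i) * ∏ i, p.2 i : ℕ) : ℝ) ≤ Real.exp 1 * X) then
            (∏ i, gwa α (p.1 i)) * ∏ i, gwa α (p.2 i) else 0) := by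
    apply Finset.sum_equiv (Equiv.piEquivPiSubtypeProd (fun x : ι => x ∈ J) (fun _ => ℕ))
    · intro D
      rw [Finset.mem_product, Fintype.mem_piFinset, Fintype.mem_piFinset, Fintype.mem_piFinset]
      constructor
      · intro h
        exact ⟨fun i => h i, fun i => h i⟩
      · rintro ⟨h1, h2⟩ v
        by_cases hv : v ∈ J
        · exact h1 ⟨v, hv⟩
        · exact h2 ⟨v, hv⟩
    · intro D _
      have e1 : (∏ i : {x : ι // x ∈ J}, D i) * ∏ i : {x : ι // ¬ x ∈ J}, D i = ∏ u, D u := by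
        rw [Finset.prod_coe_sort J D, ← Finset.prod_subtype (univ \ J) (by simp) D, mul_comm,
          Finset.prod_sdiff (Finset.subset_univ J)]
      have e2 : (∏ i : {x : ι // x ∈ J}, gwa α (D i)) * ∏ i : {x : ι // ¬ x ∈ J}, gwa α (D i) =
          ∏ u, gwa α (D u) := by
        rw [Finset.prod_coe_sort J (fun u => gwa α (D u)),
          ← Finset.prod_subtype (univ \ J) (by simp) (fun u => gwa α (D u)), mul_comm,
          Finset.prod_sdiff (Finset.subset_univ J)]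
      rw [← e1, ← e2]
      rfl
  rw [s2, Finset.sum_product_right]
  -- the inner sums
  have s3 : ∀ E ∈ (Fintype.piFinset fun i : {x : ι // ¬ x ∈ J} => A i),
      ∑ D ∈ (Fintype.piFinset fun i : {x : ι // x ∈ J} => A i),
        (if (Squarefree ((∏ i, D i) * ∏ i, E i) ∧
          (((∏ i, D i) * ∏ i, E i : ℕ) : ℝ) ≤ Real.exp 1 * X) then
            (∏ i, gwa α (D i)) * ∏ i, gwa α (E i) else 0) ≤
      (2 * C * Real.exp 1 * X * (1 + Real.log X) ^ (θ - 1)) *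
        ∏ i, (1 / (E i : ℝ)) := by
    intro E hE
    rw [Fintype.mem_piFinset] at hE
    have hE1 : ∀ i, 1 ≤ E i ∧ E i ≤ R i := by
      intro i
      have := hA i i.2 (hE i)
      rwa [Finset.mem_Icc] at this
    have hM1 : 1 ≤ ∏ i, E i := Finset.one_le_prod' fun i _ => (hE1 i).1
    have hM2 : ((∏ i, E i : ℕ) : ℝ) ≤ √X := by
      refine le_trans ?_ hprod
      rw [hsub, Nat.cast_prod]
      apply Finset.prod_le_prod
      · intro i _
        positivity
      · intro i _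
        exact_mod_cast (hE1 i).2
    have h1' := C2_inner α h0 θ hθ0 hθ1 C hC hht J hJ (fun i => A i) X hX _ hM1 hM2
    have h2 : ∏ i, (1 / (E i : ℝ)) = 1 / ((∏ i, E i : ℕ) : ℝ) := by
      rw [Finset.prod_div_distrib, Finset.prod_const_one, Nat.cast_prod]
    rw [h2]
    refine le_trans (Finset.sum_le_sum ?_) h1'
    intro D _
    split_ifs with g
    · have g1 : ∏ i, gwa α (E i) ≤ 1 :=
        Finset.prod_le_one (fun i _ => gwa_nonneg α h0 _) (fun i _ => gwa_le α h0 h1 _)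
      calc (∏ i, gwa α (D i)) * ∏ i, gwa α (E i) ≤ (∏ i, gwa α (D i)) * 1 := by
            apply mul_le_mul_of_nonneg_left g1
            exact Finset.prod_nonneg fun i _ => gwa_nonneg α h0 _
        _ = ∏ i, gwa α (D i) := mul_one _
        _ ≤ ∏ i, α ^ om (D i) :=
            Finset.prod_le_prod (fun i _ => gwa_nonneg α h0 _) (fun i _ => C2_gw_le α h0 _)
    · exact le_rfl
  refine (Finset.sum_le_sum s3).trans ?_
  rw [← Finset.mul_sum, hsub]
  have s4 : ∑ E ∈ (Fintype.piFinset fun i : {x : ι // ¬ x ∈ J} => A i), ∏ i, (1 / (E i : ℝ)) =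
      ∏ i : {x : ι // ¬ x ∈ J}, ∑ n ∈ A i, (1 / (n : ℝ)) :=
    (Finset.prod_univ_sum (fun i : {x : ι // ¬ x ∈ J} => A i)
      (fun _ n => (1 / (n : ℝ)))).symm
  rw [s4]
  have s5 : ∏ i : {x : ι // ¬ x ∈ J}, ∑ n ∈ A i, (1 / (n : ℝ)) ≤
      ∏ i : {x : ι // ¬ x ∈ J}, (1 + Real.log (R i)) := by
    apply Finset.prod_le_prod
    · intro i _
      positivity
    · intro i _
      have h1' : ∑ n ∈ A i, (1 / (n : ℝ)) ≤ ∑ n ∈ Icc 1 (R i), (1 / (n : ℝ)) := by
        apply Finset.sum_le_sum_of_subset_of_nonneg (hA i i.2)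
        intro n _ _
        positivity
      refine h1'.trans ?_
      have h2 := harmonic_le_one_add_log (R i)
      rw [harmonic_eq_sum_Icc] at h2
      push_cast at h2
      simpa [one_div] using h2
  calc _ ≤ (2 * C * Real.exp 1 * X * (1 + Real.log X) ^ (θ - 1)) *
        ∏ i : {x : ι // ¬ x ∈ J}, (1 + Real.log (R i)) := by
        apply mul_le_mul_of_nonneg_left s5
        positivity
    _ = _ := by ring

end Pool.Agent.AVK
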