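import Mathlib
import Pool.Agent.Lib_helper21.AVK.Defs
import Pool.Agent.Lib_helper21.AV.W.SF
import Pool.Agent.Lib_helper21.AVK.W.STb

/-! # SF: the factor of one variable is a character -/

set_option autoImplicit false

namespace Pool.Agent.AVK

open Finset
open Pool.Agent.AV (om js Lam K4 n4 SF_eps SF_eps_cases SF_js_one SF_js_mul SF_js_prod_left
  SF_js_prod_right SF_rec SF_sq SF_K4_prod)

variable {ι : Type} [Fintype ι] [DecidableEq ι]

theorem SF_pair (oc : ι → ι → Bool) (u w : ι) (m d : ℕ) (hm : Odd m) (hd : Odd d) (hc : Nat.Coprime m d) :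
    phg oc u w m d * phg oc w u d m =
      (if lkg oc u w = true then js (m : ℤ) d else 1) * js (if oc u w = true then SF_eps d else 1) m := by
  unfold phg lkg
  rw [if_pos hc, if_pos hc.symm]
  cases h1 : oc u w <;> cases h2 : oc w u
  · simp [SF_js_one]
  · simp [SF_js_one]
  · simp only [if_true, Bool.false_eq_true, if_false, one_mul, mul_one,
      Bool.xor_false]
    rw [SF_rec hd hm]
  · simp only [if_true, one_mul, Bool.xor_true, Bool.not_true, Bool.false_eq_true, if_false]
    rw [SF_rec hd hm]
    have := SF_sq hc
    calc js (m : ℤ) d * js (SF_eps d) m * js (m : ℤ) d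
        = (js (m : ℤ) d * js (m : ℤ) d) * js (SF_eps d) m := by ring
      _ = _ := by rw [this, one_mul]

theorem fug_char (α : ℝ) (oc : ι → ι → Bool) (κ : ι → ℤ) (hκ : ∀ u, K4 (κ u)) (D : ι → ℕ)
    (hD : ∀ w, Odd (D w)) (u : ι) : ∃ k : ℤ, K4 k ∧ ∀ m : ℕ, fug α oc κ D u m =
      (if Nat.Coprime m (∏ w ∈ univ.erase u, D w) then gwa α m else 0) *
        (js (m : ℤ) (∏ w ∈ univ.filter (fun w => lkg oc u w = true), D w) * js k m) := by
  refine ⟨κ u * ∏ w ∈ univ.erase u, (if oc u w = true then SF_eps (D w) else 1), ?_, ?_⟩
  · apply SF_K4_prod _ _ _ _ (hκ u)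
    intro w
    split_ifs
    · exact SF_eps_cases _
    · left; rfl
  intro m
  unfold fug
  by_cases hm : Squarefree m ∧ Odd m
  · by_cases hc : Nat.Coprime m (∏ w ∈ univ.erase u, D w)
    · rw [if_pos hc]
      rw [Nat.coprime_prod_right_iff] at hc
      have h1 : ∏ w ∈ univ.erase u, (phg oc u w m (D w) * phg oc w u (D w) m) =
          ∏ w ∈ univ.erase u, ((if lkg oc u w = true then js (m : ℤ) (D w) else 1) *
            js (if oc u w = true then SF_eps (D w) else 1) m) := by
        apply Finset.prod_congr rfl
        intro w hw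
        exact SF_pair oc u w m (D w) hm.2 (hD w) (hc w hw)
      rw [h1, Finset.prod_mul_distrib, SF_js_mul, SF_js_prod_left]
      have h2 : ∏ w ∈ univ.erase u, (if lkg oc u w = true then js (m : ℤ) (D w) else 1) =
          js (m : ℤ) (∏ w ∈ univ.filter (fun w => lkg oc u w = true), D w) := by
        rw [SF_js_prod_right _ _ _ (fun i => by
          have := hD i
          rintro h0
          rw [h0] at this
          exact absurd this (by decide))]
        rw [← Finset.prod_filter]
        apply Finset.prod_congr
        · ext w
          simp only [Finset.mem_filter, Finset.mem_erase, Finset.mem_univ, and_true, true_and,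
            and_iff_right_iff_imp]
          intro h
          rintro rfl
          unfold lkg at h
          simp at h
        · intro _ _
          rfl
      rw [h2]
      ring
    · rw [if_neg hc, zero_mul]
      rw [Nat.coprime_prod_right_iff] at hc
      push Not at hc
      obtain ⟨w, hw, hnc⟩ := hc
      have : ∏ w ∈ univ.erase u, (phg oc u w m (D w) * phg oc w u (D w) m) = 0 := by
        apply Finset.prod_eq_zero hw
        unfold phg
        rw [if_neg hnc]
        ring
      rw [this]
      ring
  · have : gwa α m = 0 := by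
      unfold gwa
      rw [if_neg hm]
    rw [this]
    split_ifs <;> ring

end Pool.Agent.AVK
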