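import Pool.Agent.Lib_helper21.AVK.Defs
import Pool.Agent.Lib_helper21.AV.W.SWa
import Pool.Agent.Lib_helper21.AV.W.SM
import Pool.Agent.Lib_helper21.AV.W.PSe

/-! # SW: twisted sums of the weight (Siegel and Walfisz) -/

set_option autoImplicit false

namespace Pool.Agent.AVK

open Finset
open Pool.Agent.AV (om js Lam K4 n4)

/-! ### the summand -/

theorem SW_js_le (a : ℤ) (n : ℕ) : |js a n| ≤ 1 := by
  unfold js
  rcases jacobiSym.trichotomy a n with h | h | h <;> rw [h] <;> norm_num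

/-- the summand -/
noncomputable def SW_F (α : ℝ) (q K : ℕ) (k : ℤ) (m : ℕ) : ℝ :=
  (if Nat.Coprime m K then gwa α m else 0) * (js (m : ℤ) q * js k m)

theorem SW_gw0 (α : ℝ) (m : ℕ) (h : ¬ Squarefree m) : gwa α m = 0 := by
  unfold gwa
  rw [if_neg (fun h1 => h h1.1)]

theorem SW_gw_nonneg (α : ℝ) (h0 : 0 ≤ α) (m : ℕ) : 0 ≤ gwa α m := by
  unfold gwa
  split_ifs
  · positivity
  · exact le_refl _

theorem SW_gw_le (α : ℝ) (h0 : 0 ≤ α) (h1 : α ≤ 1) (m : ℕ) : gwa α m ≤ 1 := by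
  unfold gwa
  split_ifs
  · exact pow_le_one₀ h0 h1
  · exact zero_le_one

theorem SW_F0 (α : ℝ) (q K : ℕ) (k : ℤ) (m : ℕ) (h : ¬ Squarefree m) : SW_F α q K k m = 0 := by
  unfold SW_F
  rw [SW_gw0 α m h]
  simp

theorem SW_F_le (α : ℝ) (h0 : 0 ≤ α) (h1 : α ≤ 1) (q K : ℕ) (k : ℤ) (m : ℕ) : |SW_F α q K k m| ≤ 1 := by
  unfold SW_F
  rw [abs_mul, abs_mul]
  have h1 : |if Nat.Coprime m K then gwa α m else 0| ≤ 1 := by
    split_ifs
    · rw [abs_of_nonneg (SW_gw_nonneg α h0 m)]; exact SW_gw_le α h0 h1 m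
    · simp
  have h2 := SW_js_le (m : ℤ) q
  have h3 := SW_js_le k m
  calc _ ≤ (1 : ℝ) * (1 * 1) := by gcongr
    _ = 1 := by norm_num

/-- the values at a prime -/
noncomputable def SW_g (q : ℕ) (k : ℤ) (p : ℕ) : ℝ := js (p : ℤ) q * js k p

theorem SW_g_le (q : ℕ) (k : ℤ) (p : ℕ) : |SW_g q k p| ≤ 1 := by
  unfold SW_g
  rw [abs_mul]
  have h2 := SW_js_le (p : ℤ) q
  have h3 := SW_js_le k p
  calc _ ≤ (1 : ℝ) * 1 := by gcongr
    _ = 1 := by norm_num

theorem SW_gw_mul (α : ℝ) {m p : ℕ} (hp : p.Prime) (hp2 : 2 < p) (hm : ¬ p ∣ m) :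
    gwa α (m * p) = gwa α m * α := by
  have hodd : Odd p := hp.odd_of_ne_two (by omega)
  have hcop : Nat.Coprime m p := ((Nat.Prime.coprime_iff_not_dvd hp).2 hm).symm
  unfold gwa
  by_cases h : Squarefree m ∧ Odd m
  · have h1 : Squarefree (m * p) ∧ Odd (m * p) :=
      ⟨(Nat.squarefree_mul hcop).2 ⟨h.1, hp.prime.squarefree⟩, h.2.mul hodd⟩
    rw [if_pos h, if_pos h1]
    unfold om
    rw [Nat.Coprime.primeFactors_mul hcop, card_union_of_disjoint hcop.disjoint_primeFactors,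
      hp.primeFactors, card_singleton, pow_succ]
  · rw [if_neg h, if_neg, zero_mul]
    rintro ⟨h1, h2⟩
    exact h ⟨((Nat.squarefree_mul hcop).1 h1).1, (Nat.odd_mul.1 h2).1⟩

theorem SW_F_mul (α : ℝ) (q K : ℕ) (k : ℤ) {m p : ℕ} (hm0 : m ≠ 0) (hp : p.Prime) (hp2 : 2 < p)
    (hm : ¬ p ∣ m) :
    SW_F α q K k (m * p) = SW_F α q K k m * α * (if p ∣ K then 0 else SW_g q k p) := by
  unfold SW_F SW_g
  have h1 : js ((m * p : ℕ) : ℤ) q = js (m : ℤ) q * js (p : ℤ) q := by
    unfold js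
    rw [Nat.cast_mul, jacobiSym.mul_left]
    push_cast
    rfl
  have h2 : js k (m * p) = js k m * js k p := by
    unfold js
    rw [jacobiSym.mul_right' _ hm0 hp.ne_zero]
    push_cast
    rfl
  rw [h1, h2, SW_gw_mul α hp hp2 hm]
  by_cases h3 : p ∣ K
  · rw [if_pos h3, if_neg]
    · ring
    · intro h4
      exact (Nat.Prime.coprime_iff_not_dvd hp).1 (Nat.Coprime.coprime_mul_left h4) h3
  · rw [if_neg h3]
    have h4 : Nat.Coprime (m * p) K ↔ Nat.Coprime m K := by
      rw [Nat.coprime_mul_iff_left]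
      exact and_iff_left ((Nat.Prime.coprime_iff_not_dvd hp).2 h3)
    by_cases h5 : Nat.Coprime m K
    · rw [if_pos h5, if_pos (h4.2 h5)]
      ring
    · rw [if_neg h5, if_neg (fun h => h5 (h4.1 h))]
      ring

/-! ### primes dividing `K` -/

theorem SW_omega (K : ℕ) (hK : 1 ≤ K) : (K.primeFactors.card : ℝ) ≤ 2 * Real.log K := by
  have h1 : 2 ^ K.primeFactors.card ≤ ∏ p ∈ K.primeFactors, p :=
    pow_card_le_prod (s := K.primeFactors) (f := fun p => p) 2
      fun p hp => (Nat.prime_of_mem_primeFactors hp).two_le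
  have h2 : ∏ p ∈ K.primeFactors, p ≤ K := Nat.le_of_dvd hK (Nat.prod_primeFactors_dvd K)
  have h3 : (2 : ℝ) ^ K.primeFactors.card ≤ K := by exact_mod_cast h1.trans h2
  have h4 := Real.log_le_log (by positivity) h3
  rw [Real.log_pow] at h4
  have h5 : (0.5 : ℝ) ≤ Real.log 2 := by
    have := Real.log_two_gt_d9
    linarith
  have h6 : (0 : ℝ) ≤ K.primeFactors.card := by positivity
  nlinarith

/-! ### numerical bounds -/

theorem SW_exp (n : ℕ) (L : ℝ) (hL : 0 ≤ L) :
    Real.exp (-(√L / 2)) * L ^ n ≤ 4 ^ n * (2 * n).factorial := by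
  have h1 := Real.pow_div_factorial_le_exp (√L / 2) (by positivity) (2 * n)
  have h2 : L ^ n = 4 ^ n * (√L / 2) ^ (2 * n) := by
    rw [pow_mul, div_pow, Real.sq_sqrt hL, div_pow]
    norm_num
    field_simp
  rw [div_le_iff₀ (by positivity)] at h1
  rw [Real.exp_neg, h2]
  have h3 : (0 : ℝ) < Real.exp (√L / 2) := Real.exp_pos _
  rw [inv_mul_le_iff₀ h3]
  have h4 : (0 : ℝ) ≤ 4 ^ n := by positivity
  calc (4 : ℝ) ^ n * (√L / 2) ^ (2 * n) ≤
      4 ^ n * (Real.exp (√L / 2) * (2 * n).factorial) := mul_le_mul_of_nonneg_left h1 h4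
    _ = _ := by ring

/-- the inner sums -/
theorem SW_inner (α : ℝ) (h0 : 0 ≤ α) (h1α : α ≤ 1) (q K : ℕ) (k : ℤ) (z t m : ℕ) (hz : 2 ≤ z) (hm0 : m ≠ 0) (E : ℝ) (hE : 0 ≤ E)
    (hP : ∀ u, z ≤ u → u ≤ t → |∑ p ∈ (Icc 1 u).filter Nat.Prime, SW_g q k p| ≤ E) (hK : 1 ≤ K) :
    |∑ p ∈ (Icc 1 t).filter (fun p => p.Prime ∧ z < p ∧ ∀ l ∈ m.primeFactors, l < p),
      SW_F α q K k (m * p)| ≤ if z < t then (2 * E + K.primeFactors.card) else 0 := by
  set w := max z (m.primeFactors.sup id) with hw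
  have e0 : (Icc 1 t).filter (fun p => p.Prime ∧ z < p ∧ ∀ l ∈ m.primeFactors, l < p) =
      (Icc 1 t).filter (fun p => p.Prime ∧ w < p) := by
    ext p
    simp only [mem_filter]
    refine and_congr_right fun _ => and_congr_right fun hp => ?_
    rw [hw, max_lt_iff, Finset.sup_lt_iff (by simpa using hp.pos)]
    simp
  rw [e0]
  by_cases ht : w < t
  · have hzt : z < t := (le_max_left _ _).trans_lt ht
    rw [if_pos hzt]
    have e1 : ∑ p ∈ (Icc 1 t).filter (fun p => p.Prime ∧ w < p), SW_F α q K k (m * p) =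
        SW_F α q K k m * α * (∑ p ∈ (Icc 1 t).filter (fun p => p.Prime ∧ w < p), SW_g q k p -
          ∑ p ∈ ((Icc 1 t).filter (fun p => p.Prime ∧ w < p)).filter (fun p => p ∣ K),
            SW_g q k p) := by
      rw [sum_filter (fun p => p ∣ K), ← sum_sub_distrib, mul_sum]
      refine sum_congr rfl fun p hp => ?_
      obtain ⟨-, hp1, hp2⟩ := mem_filter.1 hp
      have h1 : ¬ p ∣ m := by
        intro h
        have h2 : p ∈ m.primeFactors := Nat.mem_primeFactors.2 ⟨hp1, h, hm0⟩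
        have h3 : p ≤ m.primeFactors.sup id := Finset.le_sup (f := id) h2
        have h4 : m.primeFactors.sup id ≤ w := le_max_right _ _
        omega
      have h5 : z ≤ w := le_max_left _ _
      rw [SW_F_mul α q K k hm0 hp1 (by omega) h1]
      split_ifs <;> simp
    have e2 : ∑ p ∈ (Icc 1 t).filter (fun p => p.Prime ∧ w < p), SW_g q k p =
        ∑ p ∈ (Icc 1 t).filter Nat.Prime, SW_g q k p -
          ∑ p ∈ (Icc 1 w).filter Nat.Prime, SW_g q k p := by
      rw [eq_sub_iff_add_eq, ← sum_union]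
      · refine sum_congr ?_ fun _ _ => rfl
        ext p
        simp only [mem_union, mem_filter, mem_Icc]
        constructor
        · rintro (⟨⟨h1, h2⟩, h3, h4⟩ | ⟨⟨h1, h2⟩, h3⟩)
          · exact ⟨⟨h1, h2⟩, h3⟩
          · exact ⟨⟨h1, by omega⟩, h3⟩
        · rintro ⟨⟨h1, h2⟩, h3⟩
          by_cases h4 : w < p
          · exact Or.inl ⟨⟨h1, h2⟩, h3, h4⟩
          · exact Or.inr ⟨⟨h1, by omega⟩, h3⟩
      · rw [disjoint_left]
        intro p h1 h2
        have h3 := (mem_filter.1 h1).2.2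
        have h4 := (mem_Icc.1 (mem_filter.1 h2).1).2
        omega
    have e3 : |∑ p ∈ ((Icc 1 t).filter (fun p => p.Prime ∧ w < p)).filter (fun p => p ∣ K),
        SW_g q k p| ≤ K.primeFactors.card := by
      refine (abs_sum_le_sum_abs _ _).trans ?_
      refine (sum_le_sum fun p _ => SW_g_le q k p).trans ?_
      rw [sum_const, nsmul_eq_mul, mul_one]
      norm_cast
      apply card_le_card
      intro p hp
      obtain ⟨h1, h2⟩ := mem_filter.1 hp
      exact Nat.mem_primeFactors.2 ⟨(mem_filter.1 h1).2.1, h2, by omega⟩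
    have e4 := hP t hzt.le le_rfl
    have e5 := hP w (le_max_left _ _) ht.le
    rw [e1, e2, abs_mul, abs_mul]
    have e6 := SW_F_le α h0 h1α q K k m
    have e7 : |∑ p ∈ (Icc 1 t).filter Nat.Prime, SW_g q k p -
          ∑ p ∈ (Icc 1 w).filter Nat.Prime, SW_g q k p -
        ∑ p ∈ ((Icc 1 t).filter (fun p => p.Prime ∧ w < p)).filter (fun p => p ∣ K),
            SW_g q k p| ≤ 2 * E + K.primeFactors.card := by
      refine (abs_sub _ _).trans ?_
      have := abs_sub (∑ p ∈ (Icc 1 t).filter Nat.Prime, SW_g q k p)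
        (∑ p ∈ (Icc 1 w).filter Nat.Prime, SW_g q k p)
      linarith
    have e8 : |SW_F α q K k m| * |α| ≤ 1 := by
      rw [abs_of_nonneg h0]
      have := abs_nonneg (SW_F α q K k m)
      nlinarith
    calc _ ≤ 1 * (2 * E + K.primeFactors.card) := by
          refine mul_le_mul e8 e7 (abs_nonneg _) (by norm_num)
      _ = _ := by ring
  · have h1 : (Icc 1 t).filter (fun p => p.Prime ∧ w < p) = ∅ := by
      rw [filter_eq_empty_iff]
      rintro p hp ⟨-, h2⟩
      have := (mem_Icc.1 hp).2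
      omega
    rw [h1, sum_empty, abs_zero]
    split_ifs
    · positivity
    · exact le_refl _

theorem sw (α : ℝ) (h0 : 0 ≤ α) (h1 : α ≤ 1) (A B : ℕ) : ∃ C : ℝ, 0 ≤ C ∧ ∀ (y q K : ℕ) (k : ℤ), 3 ≤ y → Odd q →
    Squarefree q → 1 < q → K4 k → 1 ≤ K → (q : ℝ) ≤ Real.log y ^ B → Real.log K ≤ Real.log y ^ B →
    |∑ m ∈ Icc 1 y, (if Nat.Coprime m K then gwa α m else 0) * (js (m : ℤ) q * js k m)| ≤
      C * y * Real.log y ^ (-(A : ℤ)) := by
  obtain ⟨C₁, hC₁, h1s⟩ := Pool.Agent.AV.smooth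
  obtain ⟨C₂, hC₂, h2⟩ := Pool.Agent.AV.prime_sum (2 * A + 2) (2 * B)
  refine ⟨C₁ * 256 * (4 ^ (A + 4) * (2 * (A + 4)).factorial) + (4 * C₂ +
    4 * (4 ^ (A + B) * (2 * (A + B)).factorial)), by positivity, ?_⟩
  intro y q K k hy hq hqs hq1 hk hK hqy hKy
  set L := Real.log y with hL
  have hyR : (3 : ℝ) ≤ y := by exact_mod_cast hy
  have hL1 : 1 ≤ L := by
    have h3 : Real.exp 1 ≤ y := by
      have := Real.exp_one_lt_d9
      linarith
    have h4 := Real.log_le_log (Real.exp_pos 1) h3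
    rwa [Real.log_exp] at h4
  have hs1 : 1 ≤ √L := by
    rw [← Real.sqrt_one]
    exact Real.sqrt_le_sqrt hL1
  have hss : √L * √L = L := Real.mul_self_sqrt (by linarith)
  set z := ⌈Real.exp (√L)⌉₊ with hz
  have hz1 : Real.exp (√L) ≤ z := Nat.le_ceil _
  have hz2 : (z : ℝ) < Real.exp (√L) + 1 := Nat.ceil_lt_add_one (Real.exp_pos _).le
  have hz3 : 3 ≤ z := by
    have h3 : (2 : ℝ) < z := by
      have h4 : Real.exp 1 ≤ Real.exp (√L) := Real.exp_le_exp.2 hs1
      have := Real.exp_one_gt_d9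
      linarith
    exact_mod_cast h3
  have hz0 : (0 : ℝ) < z := by positivity
  have hlz1 : √L ≤ Real.log z := by
    rw [Real.le_log_iff_exp_le hz0]
    exact hz1
  have hlz2 : Real.log z ≤ 2 * √L := by
    have h3 : (z : ℝ) ≤ Real.exp (√L + 1) := by
      rw [Real.exp_add]
      have h4 := Real.exp_one_gt_d9
      have h5 : 1 ≤ Real.exp (√L) := Real.one_le_exp (by linarith)
      nlinarith
    have h4 := Real.log_le_log hz0 h3
    rw [Real.log_exp] at h4
    linarith
  have hF : ∑ m ∈ Icc 1 y, (if Nat.Coprime m K then gwa α m else 0) * (js (m : ℤ) q * js k m) =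
    ∑ m ∈ Icc 1 y, SW_F α q K k m := rfl
  rw [hF, Pool.Agent.AV.lpf_split (SW_F α q K k) y z (fun m hm => SW_F0 α q K k m hm)]
  have hLA : (L ^ (-(A : ℤ)) : ℝ) = (L ^ A)⁻¹ := by rw [zpow_neg, zpow_natCast]
  have hLA0 : (0 : ℝ) < L ^ A := by positivity
  -- the smooth part
  have hS : |∑ m ∈ (Icc 1 y).filter (fun m => Squarefree m ∧ ∀ p ∈ m.primeFactors, p ≤ z),
      SW_F α q K k m| ≤ C₁ * 256 * (4 ^ (A + 4) * (2 * (A + 4)).factorial) * y *
        L ^ (-(A : ℤ)) := by
    refine (abs_sum_le_sum_abs _ _).trans ?_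
    refine (sum_le_sum fun m _ => SW_F_le α h0 h1 q K k m).trans ?_
    rw [sum_const, nsmul_eq_mul, mul_one]
    refine (h1s y z (by omega) hz3).trans ?_
    have h3 : Real.exp (-(Real.log y / Real.log z)) ≤ Real.exp (-(√L / 2)) := by
      apply Real.exp_le_exp.2
      apply neg_le_neg
      rw [← hL, div_le_div_iff₀ (by norm_num) (by linarith)]
      nlinarith
    have h4 : Real.log z ^ 8 ≤ 256 * L ^ 4 := by
      have h5 : Real.log z ^ 8 ≤ (2 * √L) ^ 8 := by
        have : 0 ≤ Real.log z := by linarith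
        gcongr
      have h6 : (2 * √L) ^ 8 = 256 * L ^ 4 := by
        have : (2 * √L) ^ 8 = 256 * (√L * √L) ^ 4 := by ring
        rw [this, hss]
      linarith
    have h5 := SW_exp (A + 4) L (by linarith)
    have h6 : Real.exp (-(√L / 2)) * L ^ 4 ≤
        4 ^ (A + 4) * (2 * (A + 4)).factorial * (L ^ A)⁻¹ := by
      rw [← div_eq_mul_inv, le_div_iff₀ hLA0]
      calc Real.exp (-(√L / 2)) * L ^ 4 * L ^ A = Real.exp (-(√L / 2)) * L ^ (A + 4) := by
            rw [pow_add]; ring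
        _ ≤ _ := h5
    calc C₁ * y * Real.exp (-(Real.log y / Real.log z)) * Real.log z ^ 8 ≤
        C₁ * y * Real.exp (-(√L / 2)) * (256 * L ^ 4) := by gcongr
      _ = C₁ * 256 * y * (Real.exp (-(√L / 2)) * L ^ 4) := by ring
      _ ≤ C₁ * 256 * y * (4 ^ (A + 4) * (2 * (A + 4)).factorial * (L ^ A)⁻¹) := by gcongr
      _ = _ := by rw [hLA]; ring
  -- the other part
  have hT : |∑ m ∈ Icc 1 y, ∑ p ∈ (Icc 1 (y / m)).filter
      (fun p => p.Prime ∧ z < p ∧ ∀ l ∈ m.primeFactors, l < p), SW_F α q K k (m * p)| ≤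
      (4 * C₂ + 4 * (4 ^ (A + B) * (2 * (A + B)).factorial)) * y * L ^ (-(A : ℤ)) := by
    refine (abs_sum_le_sum_abs _ _).trans ?_
    have h3 : ∀ m ∈ Icc 1 y, |∑ p ∈ (Icc 1 (y / m)).filter
        (fun p => p.Prime ∧ z < p ∧ ∀ l ∈ m.primeFactors, l < p), SW_F α q K k (m * p)| ≤
        2 * C₂ * y * (L ^ (A + 1))⁻¹ * (m : ℝ)⁻¹ + if z < y / m then 2 * L ^ B else 0 := by
      intro m hm
      obtain ⟨hm1, hm2⟩ := mem_Icc.1 hm
      have hm0 : (0 : ℝ) < m := by exact_mod_cast hm1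
      have h4 := SW_inner α h0 h1 q K k z (y / m) m (by omega) (by omega)
        (C₂ * (y / m) * (L ^ (A + 1))⁻¹) (by positivity) (fun u hu1 hu2 => by
          have huR : (z : ℝ) ≤ u := by exact_mod_cast hu1
          have hlu : √L ≤ Real.log u := hlz1.trans (Real.log_le_log hz0 huR)
          have hlu2 : ∀ n : ℕ, L ^ n ≤ Real.log u ^ (2 * n) := by
            intro n
            rw [pow_mul]
            have : L ≤ Real.log u ^ 2 := by nlinarith
            gcongr
          have h5 := h2 u q k (by omega) hq hqs hq1 hk (hqy.trans (hlu2 B))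
          have h6 : (u : ℝ) ≤ y / m := by
            have : ((u : ℕ) : ℝ) ≤ ((y / m : ℕ) : ℝ) := by exact_mod_cast hu2
            exact this.trans Nat.cast_div_le
          have h7 : Real.log u ^ (-((2 * A + 2 : ℕ) : ℤ)) ≤ (L ^ (A + 1))⁻¹ := by
            rw [zpow_neg, zpow_natCast]
            apply inv_anti₀ (by positivity)
            have := hlu2 (A + 1)
            rwa [Nat.mul_add, Nat.mul_one] at this
          refine h5.trans ?_
          have h8 : 0 ≤ Real.log u ^ (-((2 * A + 2 : ℕ) : ℤ)) := by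
            apply zpow_nonneg
            linarith
          calc C₂ * u * Real.log u ^ (-((2 * A + 2 : ℕ) : ℤ)) ≤
              C₂ * (y / m) * Real.log u ^ (-((2 * A + 2 : ℕ) : ℤ)) := by gcongr
            _ ≤ _ := by gcongr) hK
      refine h4.trans ?_
      split_ifs with h9
      · have h10 := SW_omega K hK
        have h11 : (K.primeFactors.card : ℝ) ≤ 2 * L ^ B := by linarith
        have h12 : (2 * (C₂ * (y / m) * (L ^ (A + 1))⁻¹) + (K.primeFactors.card : ℝ)) ≤
            (2 * (C₂ * (y / m) * (L ^ (A + 1))⁻¹) + 2 * L ^ B) := by linarith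
        refine h12.trans (le_of_eq ?_)
        rw [div_eq_mul_inv (y : ℝ)]
        ring
      · positivity
    refine (sum_le_sum h3).trans ?_
    rw [sum_add_distrib, ← mul_sum, ← sum_filter, sum_const, nsmul_eq_mul]
    have h4 : ∑ m ∈ Icc 1 y, (m : ℝ)⁻¹ ≤ 1 + L := by
      have := harmonic_le_one_add_log y
      rw [harmonic_eq_sum_Icc] at this
      push_cast at this
      exact this
    have h5 : (((Icc 1 y).filter fun m => z < y / m).card : ℝ) ≤ y * Real.exp (-√L) := by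
      have h6 : ((Icc 1 y).filter fun m => z < y / m).card ≤ y / z := by
        have h7 : ((Icc 1 y).filter fun m => z < y / m) ⊆ Icc 1 (y / z) := by
          intro m hm
          obtain ⟨h8, h9⟩ := mem_filter.1 hm
          obtain ⟨h10, h11⟩ := mem_Icc.1 h8
          refine mem_Icc.2 ⟨h10, ?_⟩
          rw [Nat.le_div_iff_mul_le (by omega)]
          have h12 : (y / m) * m ≤ y := Nat.div_mul_le_self y m
          nlinarith
        have := card_le_card h7
        simpa using this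
      have h8 : ((y / z : ℕ) : ℝ) ≤ y / z := Nat.cast_div_le
      have h9 : (y : ℝ) / z ≤ y * Real.exp (-√L) := by
        rw [div_eq_mul_inv, Real.exp_neg]
        gcongr
      have h10 : (((Icc 1 y).filter fun m => z < y / m).card : ℝ) ≤ ((y / z : ℕ) : ℝ) := by
        exact_mod_cast h6
      linarith
    have h6 : 2 * C₂ * y * (L ^ (A + 1))⁻¹ * ∑ m ∈ Icc 1 y, (m : ℝ)⁻¹ ≤
        4 * C₂ * y * L ^ (-(A : ℤ)) := by
      rw [hLA]
      calc 2 * C₂ * y * (L ^ (A + 1))⁻¹ * ∑ m ∈ Icc 1 y, (m : ℝ)⁻¹ ≤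
          2 * C₂ * y * (L ^ (A + 1))⁻¹ * (2 * L) := by
            gcongr
            linarith
        _ = 4 * C₂ * y * (L ^ A)⁻¹ := by
            rw [pow_succ]
            field_simp
            try ring
    have h7 : (((Icc 1 y).filter fun m => z < y / m).card : ℝ) * (2 * L ^ B) ≤
        4 * (4 ^ (A + B) * (2 * (A + B)).factorial) * y * L ^ (-(A : ℤ)) := by
      rw [hLA]
      have h8 := SW_exp (A + B) L (by linarith)
      have h9 : Real.exp (-√L) ≤ Real.exp (-(√L / 2)) := by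
        apply Real.exp_le_exp.2
        linarith
      have h10 : Real.exp (-(√L / 2)) * L ^ B ≤
          4 ^ (A + B) * (2 * (A + B)).factorial * (L ^ A)⁻¹ := by
        rw [← div_eq_mul_inv, le_div_iff₀ hLA0]
        calc Real.exp (-(√L / 2)) * L ^ B * L ^ A = Real.exp (-(√L / 2)) * L ^ (A + B) := by
              rw [pow_add]; ring
          _ ≤ _ := h8
      calc (((Icc 1 y).filter fun m => z < y / m).card : ℝ) * (2 * L ^ B) ≤
          y * Real.exp (-√L) * (2 * L ^ B) := by gcongr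
        _ ≤ y * Real.exp (-(√L / 2)) * (2 * L ^ B) := by gcongr
        _ = 2 * y * (Real.exp (-(√L / 2)) * L ^ B) := by ring
        _ ≤ 2 * y * (4 ^ (A + B) * (2 * (A + B)).factorial * (L ^ A)⁻¹) := by gcongr
        _ ≤ 4 * y * (4 ^ (A + B) * (2 * (A + B)).factorial * (L ^ A)⁻¹) := by
            gcongr
            norm_num
        _ = _ := by ring
    calc _ ≤ 4 * C₂ * y * L ^ (-(A : ℤ)) +
        4 * (4 ^ (A + B) * (2 * (A + B)).factorial) * y * L ^ (-(A : ℤ)) := add_le_add h6 h7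
      _ = _ := by ring
  calc _ ≤ _ := abs_add_le _ _
    _ ≤ _ := add_le_add hS hT
    _ = _ := by ring

end Pool.Agent.AVK
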