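import Pool.Agent.Lib_helper21.AVK.Defs
import Pool.Agent.Lib_helper21.AVK.W.SW
import Pool.Agent.Lib_helper21.AVK.W.SF
import Pool.Agent.Lib_helper21.AVK.W.IS
import Pool.Agent.Lib_helper21.AV.W.LA

/-! # C4: one large variable linked only to small ones -/

set_option autoImplicit false

namespace Pool.Agent.AVK

open Finset
open Pool.Agent.AV (om js Lam K4 n4)

variable {ι : Type} [Fintype ι] [DecidableEq ι]

/-- numerical facts about `log X` for `X ≥ 3` -/
private theorem C4_log {X : ℝ} (hX : 3 ≤ X) : 1.026 ≤ Real.log X := by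
  have h1 : Real.log 3 ≤ Real.log X := Real.log_le_log (by norm_num) hX
  have h2 : Real.log 3 = Real.log 2 + Real.log (3 / 2) := by
    rw [← Real.log_mul (by norm_num) (by norm_num)]
    norm_num
  have h3 := Real.one_sub_inv_le_log_of_pos (show (0 : ℝ) < 3 / 2 by norm_num)
  have h4 := Real.log_two_gt_d9
  norm_num at h3
  linarith

/-- `log y` against `log X` -/
private theorem C4_y {η : ℝ} (hη : 0 < η) {r : ℕ} (hr : 1 / η ≤ r) {X : ℝ} (hX : 3 ≤ X)
    {Z y : ℕ} (hZ : Real.exp (Real.log X ^ η) ≤ Z) (hy : Z ≤ y) :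
    3 ≤ y ∧ 1 ≤ Real.log y ∧ Real.log X ≤ Real.log y ^ r ∧ (1.026 : ℝ) ^ η ≤ Real.log y := by
  have hL := C4_log hX
  have h0 : (0 : ℝ) ≤ Real.log X := by linarith
  have h1 : (1 : ℝ) ≤ Real.log X ^ η := Real.one_le_rpow (by linarith) hη.le
  have hyr : Real.exp (Real.log X ^ η) ≤ y := hZ.trans (by exact_mod_cast hy)
  have hy0 : (0 : ℝ) < y := (Real.exp_pos _).trans_le hyr
  have h2 : Real.log X ^ η ≤ Real.log y := (Real.le_log_iff_exp_le hy0).2 hyr
  refine ⟨?_, h1.trans h2, ?_, ?_⟩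
  · have h3 : Real.exp 1 ≤ y := (Real.exp_le_exp.2 h1).trans hyr
    have h4 := Real.exp_one_gt_d9
    have h5 : (2 : ℝ) < y := by linarith
    exact_mod_cast h5
  · have h3 : (Real.log X ^ η) ^ (1 / η) = Real.log X := by
      rw [← Real.rpow_mul h0, mul_one_div_cancel hη.ne', Real.rpow_one]
    calc Real.log X = (Real.log X ^ η) ^ (1 / η) := h3.symm
      _ ≤ Real.log y ^ (1 / η) := Real.rpow_le_rpow (by linarith) h2 (by positivity)
      _ ≤ Real.log y ^ (r : ℝ) := Real.rpow_le_rpow_of_exponent_le (h1.trans h2) hr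
      _ = Real.log y ^ r := Real.rpow_natCast _ _
  · exact (Real.rpow_le_rpow (by norm_num) hL hη.le).trans h2

/-- the bound for the inner sum -/
private theorem C4_inner (α : ℝ) (B n : ℕ) {η : ℝ} (hη : 0 < η) {r s : ℕ} (hr : 1 / η ≤ r)
    (hs : (2 * n : ℝ) ≤ ((1.026 : ℝ) ^ η) ^ s) {C0 : ℝ} (hC0 : 0 ≤ C0)
    (hsw : ∀ (y q K : ℕ) (k : ℤ), 3 ≤ y → Odd q →
      Squarefree q → 1 < q → K4 k → 1 ≤ K → (q : ℝ) ≤ Real.log y ^ (r * (B * n) + (s + r)) →
      Real.log K ≤ Real.log y ^ (r * (B * n) + (s + r)) →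
      |∑ m ∈ Icc 1 y, (if Nat.Coprime m K then gwa α m else 0) * (js (m : ℤ) q * js k m)| ≤
        C0 * y * Real.log y ^ (-((r * n : ℕ) : ℤ)))
    {X : ℝ} (hX : 3 ≤ X) {T Z N : ℕ} (hT : (T : ℝ) ≤ Real.log X ^ B)
    (hZ : Real.exp (Real.log X ^ η) ≤ Z) {q K : ℕ} {k : ℤ} (hq : Odd q)
    (hq' : Squarefree q) (hq1 : 1 < q) (hk : K4 k) (hK : 1 ≤ K) (hqT : q ≤ T ^ n)
    (hKX : Real.log K ≤ 2 * n * Real.log X) :
    |∑ m ∈ Ioc Z N, ((if Nat.Coprime m K then gwa α m else 0) * (js (m : ℤ) q * js k m)) *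
      Lam (Real.log ((m : ℝ) / (X / K)))| ≤ 6 * (C0 * (Real.log X ^ n)⁻¹) * (X / K) := by
  have hL := C4_log hX
  have hK0 : (0 : ℝ) < K := by exact_mod_cast hK
  have hlX : 0 < Real.log X := by linarith
  refine Pool.Agent.AV.lam_sum _ Z N _ (X / K) (by positivity) (by positivity) ?_
  intro y hy
  obtain ⟨hy3, hy1, hy8, hy9⟩ := C4_y hη hr hX hZ hy
  have hpow : ∀ n : ℕ, (1 : ℝ) ≤ Real.log y ^ n := fun n => one_le_pow₀ hy1
  have e1 : (T : ℝ) ^ n ≤ Real.log y ^ (r * (B * n)) := by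
    calc (T : ℝ) ^ n ≤ (Real.log X ^ B) ^ n := pow_le_pow_left₀ (Nat.cast_nonneg _) hT n
      _ = Real.log X ^ (B * n) := by rw [← pow_mul]
      _ ≤ (Real.log y ^ r) ^ (B * n) := pow_le_pow_left₀ (by linarith) hy8 _
      _ = Real.log y ^ (r * (B * n)) := by rw [← pow_mul]
  have e2 : (2 * n : ℝ) ≤ Real.log y ^ s :=
    hs.trans (pow_le_pow_left₀ (Real.rpow_nonneg (by norm_num) _) hy9 s)
  have h1 : (q : ℝ) ≤ Real.log y ^ (r * (B * n) + (s + r)) := by
    have h2 : (q : ℝ) ≤ (T : ℝ) ^ n := by exact_mod_cast hqT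
    calc (q : ℝ) ≤ Real.log y ^ (r * (B * n)) * 1 := by rw [mul_one]; exact h2.trans e1
      _ ≤ Real.log y ^ (r * (B * n)) * Real.log y ^ (s + r) :=
        mul_le_mul_of_nonneg_left (hpow _) (by linarith [hpow (r * (B * n))])
      _ = _ := by rw [← pow_add]
  have h2 : Real.log K ≤ Real.log y ^ (r * (B * n) + (s + r)) := by
    calc Real.log K ≤ 2 * n * Real.log X := hKX
      _ ≤ Real.log y ^ s * Real.log y ^ r :=
        mul_le_mul e2 hy8 (by linarith) (by linarith [hpow s])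
      _ = 1 * Real.log y ^ (s + r) := by rw [← pow_add, one_mul]
      _ ≤ Real.log y ^ (r * (B * n)) * Real.log y ^ (s + r) :=
        mul_le_mul_of_nonneg_right (hpow _) (by linarith [hpow (s + r)])
      _ = _ := by rw [← pow_add]
  refine (hsw y q K k hy3 hq hq' hq1 hk hK h1 h2).trans ?_
  have h3 : Real.log y ^ (-((r * n : ℕ) : ℤ)) ≤ (Real.log X ^ n)⁻¹ := by
    rw [zpow_neg, zpow_natCast]
    apply inv_anti₀ (by positivity)
    calc Real.log X ^ n ≤ (Real.log y ^ r) ^ n := pow_le_pow_left₀ (by linarith) hy8 _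
      _ = Real.log y ^ (r * n) := by rw [← pow_mul]
  calc C0 * y * Real.log y ^ (-((r * n : ℕ) : ℤ)) ≤ C0 * y * (Real.log X ^ n)⁻¹ :=
        mul_le_mul_of_nonneg_left h3 (by positivity)
    _ = C0 * (Real.log X ^ n)⁻¹ * y := by ring

omit [Fintype ι] [DecidableEq ι] in
private theorem C4_lk_self (oc : ι → ι → Bool) (u : ι) : lkg oc u u = false := by
  unfold lkg
  cases oc u u <;> rfl

/-- a harmonic sum -/
private theorem C4_harm {S : Finset ℕ} {N : ℕ} (hS : S ⊆ Icc 1 N) (_hN : 1 ≤ N) :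
    ∑ d ∈ S, (1 / (d : ℝ)) ≤ 1 + Real.log N := by
  have h1 : ∑ d ∈ S, (1 / (d : ℝ)) ≤ ∑ d ∈ Icc 1 N, (1 / (d : ℝ)) :=
    sum_le_sum_of_subset_of_nonneg hS (fun _ _ _ => by positivity)
  have h2 := harmonic_le_one_add_log N
  rw [harmonic_eq_sum_Icc] at h2
  push_cast at h2
  refine h1.trans ?_
  simpa only [one_div] using h2

theorem case4 (α : ℝ) (h0 : 0 ≤ α) (h1 : α ≤ 1) (oc : ι → ι → Bool) (B : ℕ) (η : ℝ)
    (hη : 0 < η) : ∃ C : ℝ, 0 ≤ C ∧ ∀ (κ : ι → ℤ) (X : ℝ) (T Z N : ℕ) (A : ι → Finset ℕ)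
    (u v : ι), (∀ w, K4 (κ w)) → 3 ≤ X → 1 ≤ N → (N : ℝ) ≤ 3 * X → lkg oc u v = true →
    A u = Ioc Z N → A v ⊆ Icc 2 T → (∀ w, lkg oc u w = true → A w ⊆ Icc 1 T) →
    (∀ w, A w ⊆ Icc 1 N) → (T : ℝ) ≤ Real.log X ^ B →
    Real.exp (Real.log X ^ η) ≤ Z → |MSg α oc κ X A| ≤ C * X := by
  obtain ⟨r, hr⟩ := exists_nat_ge (1 / η)
  obtain ⟨s, hs'⟩ := pow_unbounded_of_one_lt (2 * (Fintype.card ι : ℝ))
    (Real.one_lt_rpow (show (1:ℝ) < 1.026 by norm_num) hη)
  have hs := hs'.le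
  obtain ⟨C0, hC0, hsw⟩ := sw α h0 h1 (r * Fintype.card ι)
    (r * (B * Fintype.card ι) + (s + r))
  refine ⟨6 * C0 * 3 ^ Fintype.card ι, by positivity, ?_⟩
  intro κ X T Z N A u v hκ hX hN hNX huv hAu hAv hAw hAN hT hZ
  have hL := C4_log hX
  have hX0 : 0 < X := by linarith
  have hlX : 0 < Real.log X := by linarith
  have hLN : Real.log N ≤ 2 * Real.log X := by
    have h1 : Real.log N ≤ Real.log (3 * X) :=
      Real.log_le_log (by exact_mod_cast hN) hNX
    rw [Real.log_mul (by norm_num) (by linarith)] at h1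
    have h2 : Real.log 3 ≤ Real.log X := Real.log_le_log (by norm_num) hX
    linarith
  have huv' : v ≠ u := by
    rintro rfl
    rw [C4_lk_self] at huv
    exact Bool.false_ne_true huv
  set A' : ι → Finset ℕ := Function.update A u {1} with hA'
  have hA'u : A' u = {1} := Function.update_self _ _ _
  have hA'w : ∀ w, w ≠ u → A' w = A w := fun w hw => Function.update_of_ne hw _ _
  have hA'N : ∀ w, A' w ⊆ Icc 1 N := by
    intro w
    by_cases hw : w = u
    · rw [hw, hA'u]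
      intro d hd
      rw [mem_singleton] at hd
      rw [hd]
      exact mem_Icc.2 ⟨le_rfl, hN⟩
    · rw [hA'w w hw]
      exact hAN w
  -- the bound for one `D`
  have key : ∀ D ∈ Fintype.piFinset A', |∑ m ∈ A u, wtg α oc κ (Function.update D u m) *
      Lam (Real.log ((∏ w, ((Function.update D u m w : ℕ) : ℝ)) / X))| ≤
      6 * (C0 * (Real.log X ^ Fintype.card ι)⁻¹) * X * ∏ w, (1 / (D w : ℝ)) := by
    intro D hD
    have hDm : ∀ w, D w ∈ A' w := fun w => (Fintype.mem_piFinset.1 hD) w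
    have hD1 : ∀ w, 1 ≤ D w := fun w => (mem_Icc.1 (hA'N w (hDm w))).1
    have hDN : ∀ w, D w ≤ N := fun w => (mem_Icc.1 (hA'N w (hDm w))).2
    have hDu : D u = 1 := by
      have := hDm u
      rw [hA'u, mem_singleton] at this
      exact this
    set K : ℕ := ∏ w ∈ univ.erase u, D w with hK
    have hK1 : 1 ≤ K := Finset.one_le_prod' fun w _ => hD1 w
    have hK0 : (0 : ℝ) < K := by exact_mod_cast hK1
    have hKall : ∏ w, (1 / (D w : ℝ)) = 1 / (K : ℝ) := by
      rw [← mul_prod_erase univ _ (mem_univ u), hDu, hK]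
      push_cast
      rw [prod_div_distrib]
      simp
    have hprod : ∀ m : ℕ, (∏ w, ((Function.update D u m w : ℕ) : ℝ)) / X =
        (m : ℝ) / (X / K) := by
      intro m
      have h1 : (∏ w, ((Function.update D u m w : ℕ) : ℝ)) = m * K := by
        rw [← mul_prod_erase univ _ (mem_univ u), Function.update_self, hK]
        push_cast
        congr 1
        refine prod_congr rfl fun w hw => ?_
        rw [Function.update_of_ne (ne_of_mem_erase hw)]
      rw [h1]
      field_simp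
    obtain ⟨R, hR, hR0, hRw⟩ := wtg_one α h0 h1 oc κ D u
    have hR1 : |R| ≤ 1 := hR.trans
      (prod_le_one (fun w _ => gwa_nonneg α h0 _) fun w _ => gwa_le α h0 h1 _)
    have hrew : ∑ m ∈ A u, wtg α oc κ (Function.update D u m) *
        Lam (Real.log ((∏ w, ((Function.update D u m w : ℕ) : ℝ)) / X)) =
        R * ∑ m ∈ A u, fug α oc κ D u m * Lam (Real.log ((m : ℝ) / (X / K))) := by
      rw [mul_sum]
      refine sum_congr rfl fun m _ => ?_
      rw [hRw m, hprod m, mul_assoc]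
    rw [hrew, abs_mul, hKall]
    by_cases hsq : Squarefree K ∧ Odd K
    swap
    · rw [hR0 hsq, abs_zero, zero_mul]
      positivity
    have hodd : ∀ w, Odd (D w) := by
      intro w
      by_cases hw : w = u
      · rw [hw, hDu]
        exact odd_one
      · have h1 : D w ∣ K := dvd_prod_of_mem _ (mem_erase.2 ⟨hw, mem_univ w⟩)
        exact hsq.2.of_dvd_nat h1
    obtain ⟨k, hk, hfu⟩ := fug_char α oc κ hκ D hodd u
    set q : ℕ := ∏ w ∈ univ.filter (fun w => lkg oc u w = true), D w with hq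
    have hqK : q ∣ K := by
      refine prod_dvd_prod_of_subset _ _ _ ?_
      intro w hw
      refine mem_erase.2 ⟨?_, mem_univ w⟩
      rintro rfl
      have := (mem_filter.1 hw).2
      rw [C4_lk_self] at this
      exact Bool.false_ne_true this
    have hDv : D v ∈ Icc 2 T := hAv (by rw [← hA'w v huv']; exact hDm v)
    have hT1 : 1 ≤ T := by
      have := mem_Icc.1 hDv
      omega
    have hq1 : 1 < q := by
      have h1 : D v ≤ q := by
        have hdv : D v ∣ q := dvd_prod_of_mem _ (mem_filter.2 ⟨mem_univ v, huv⟩)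
        exact Nat.le_of_dvd (Finset.prod_pos fun w _ => hD1 w) hdv
      have := mem_Icc.1 hDv
      omega
    have hqT : q ≤ T ^ Fintype.card ι := by
      have h1 : q ≤ T ^ (univ.filter (fun w => lkg oc u w = true)).card := by
        refine prod_le_pow_card _ _ _ ?_
        intro w hw
        have hw' := (mem_filter.1 hw).2
        have hwu : w ≠ u := by
          rintro rfl
          rw [C4_lk_self] at hw'
          exact Bool.false_ne_true hw'
        have := hAw w hw' (by rw [← hA'w w hwu]; exact hDm w)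
        exact (mem_Icc.1 this).2
      exact h1.trans (Nat.pow_le_pow_right hT1 (card_le_univ _))
    have hKX : Real.log K ≤ 2 * (Fintype.card ι) * Real.log X := by
      have h1 : K ≤ N ^ Fintype.card ι := by
        have h2 : K ≤ N ^ (univ.erase u : Finset ι).card :=
          prod_le_pow_card _ _ _ fun w _ => hDN w
        exact h2.trans (Nat.pow_le_pow_right hN (card_le_univ _))
      have h2 : Real.log K ≤ Real.log ((N : ℝ) ^ Fintype.card ι) :=
        Real.log_le_log hK0 (by exact_mod_cast h1)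
      rw [Real.log_pow] at h2
      have h3 : (Fintype.card ι : ℝ) * Real.log N ≤ (Fintype.card ι : ℝ) * (2 * Real.log X) :=
        mul_le_mul_of_nonneg_left hLN (Nat.cast_nonneg _)
      linarith
    have h4 := C4_inner α B (Fintype.card ι) hη hr hs hC0 hsw (N := N) hX hT hZ
      (hsq.2.of_dvd_nat hqK) (hsq.1.squarefree_of_dvd hqK) hq1 hk hK1 hqT hKX
    have h5 : ∑ m ∈ A u, fug α oc κ D u m * Lam (Real.log ((m : ℝ) / (X / K))) =
        ∑ m ∈ Ioc Z N, ((if Nat.Coprime m K then gwa α m else 0) * (js (m : ℤ) q * js k m)) *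
          Lam (Real.log ((m : ℝ) / (X / K))) := by
      rw [hAu]
      refine sum_congr rfl fun m _ => ?_
      rw [hfu m]
    rw [h5]
    calc |R| * _ ≤ 1 * (6 * (C0 * (Real.log X ^ Fintype.card ι)⁻¹) * (X / K)) :=
          mul_le_mul hR1 h4 (abs_nonneg _) zero_le_one
      _ = _ := by ring
  have hMS : MSg α oc κ X A = ∑ D ∈ Fintype.piFinset A', ∑ m ∈ A u,
      wtg α oc κ (Function.update D u m) *
      Lam (Real.log ((∏ w, ((Function.update D u m w : ℕ) : ℝ)) / X)) := by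
    unfold MSg
    exact pi_one A u fun D => wtg α oc κ D * Lam (Real.log ((∏ w, (D w : ℝ)) / X))
  rw [hMS]
  have hsum : ∑ D ∈ Fintype.piFinset A', ∏ w, (1 / (D w : ℝ)) ≤
      (3 * Real.log X) ^ Fintype.card ι := by
    rw [← prod_univ_sum A' (fun _ d => 1 / (d : ℝ))]
    calc ∏ w, ∑ d ∈ A' w, (1 / (d : ℝ)) ≤ ∏ _w : ι, (3 * Real.log X) := by
          refine prod_le_prod (fun w _ => sum_nonneg fun _ _ => by positivity) fun w _ => ?_
          have := C4_harm (hA'N w) hN
          linarith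
      _ = (3 * Real.log X) ^ Fintype.card ι := by
          rw [prod_const, card_univ]
  calc |∑ D ∈ Fintype.piFinset A', ∑ m ∈ A u, wtg α oc κ (Function.update D u m) *
        Lam (Real.log ((∏ w, ((Function.update D u m w : ℕ) : ℝ)) / X))|
      ≤ ∑ D ∈ Fintype.piFinset A', 6 * (C0 * (Real.log X ^ Fintype.card ι)⁻¹) * X *
          ∏ w, (1 / (D w : ℝ)) := (abs_sum_le_sum_abs _ _).trans (sum_le_sum key)
    _ = 6 * (C0 * (Real.log X ^ Fintype.card ι)⁻¹) * X *
          ∑ D ∈ Fintype.piFinset A', ∏ w, (1 / (D w : ℝ)) := by rw [mul_sum]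
    _ ≤ 6 * (C0 * (Real.log X ^ Fintype.card ι)⁻¹) * X * (3 * Real.log X) ^ Fintype.card ι :=
        mul_le_mul_of_nonneg_left hsum (by positivity)
    _ = 6 * C0 * 3 ^ Fintype.card ι * X := by
        have : Real.log X ^ Fintype.card ι ≠ 0 := by positivity
        rw [mul_pow]
        field_simp

end Pool.Agent.AVK
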