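import Pool.Agent.Lib_helper21.AVK.Defs

/-! # SZ: choice of the parameters -/

set_option autoImplicit false

namespace Pool.Agent.AVK

open Finset
open Pool.Agent.AV (om js Lam K4 n4)

theorem SZ_asym (B N : ℕ) (η : ℝ) (hη : 0 < η) : ∃ L₀ : ℝ, 16 ≤ L₀ ∧ ∀ L : ℝ, L₀ ≤ L →
    L ^ B ≤ Real.exp (L ^ η) ∧ 2 * L ^ N ≤ Real.exp (L / 4) := by
  have e1 : ∀ᶠ M : ℝ in Filter.atTop, M ^ ((B : ℝ) / η) ≤ Real.exp M := by
    have := (isLittleO_rpow_exp_atTop ((B : ℝ) / η)).bound (c := 1) one_pos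
    filter_upwards [this, Filter.eventually_ge_atTop 0] with M h h0
    rw [Real.norm_of_nonneg (Real.rpow_nonneg h0 _), Real.norm_of_nonneg (Real.exp_pos _).le,
      one_mul] at h
    exact h
  have e1' : ∀ᶠ L : ℝ in Filter.atTop,
      (L ^ η) ^ ((B : ℝ) / η) ≤ Real.exp (L ^ η) :=
    (tendsto_rpow_atTop hη).eventually e1
  have e3 : ∀ᶠ L : ℝ in Filter.atTop, 2 * L ^ N ≤ Real.exp (L / 4) := by
    have := (isLittleO_pow_exp_pos_mul_atTop (k := N) (b := 1 / 4) (by norm_num)).bound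
      (c := 1 / 2) (by norm_num)
    filter_upwards [this, Filter.eventually_ge_atTop 0] with M h h0
    rw [Real.norm_of_nonneg (by positivity), Real.norm_of_nonneg (Real.exp_pos _).le] at h
    calc 2 * M ^ N ≤ 2 * (1 / 2 * Real.exp (1 / 4 * M)) := by linarith
      _ = Real.exp (M / 4) := by ring_nf
  obtain ⟨L₀, h⟩ := Filter.eventually_atTop.mp (e1'.and e3)
  refine ⟨max 16 L₀, le_max_left _ _, fun L hL => ?_⟩
  obtain ⟨h1, h3⟩ := h L (le_trans (le_max_right _ _) hL)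
  have hL0 : (0 : ℝ) ≤ L := by
    have := le_trans (le_max_left (16 : ℝ) L₀) hL
    linarith
  refine ⟨?_, h3⟩
  rw [← Real.rpow_mul hL0, mul_div_cancel₀ _ hη.ne', Real.rpow_natCast] at h1
  exact h1

/-- powers of `1 + log T` -/
theorem SZ_log (B n : ℕ) (β : ℝ) (hβ : 0 < β) (L T : ℝ) (hL : 1 ≤ L) (hT : 1 ≤ T)
    (hTL : T ≤ L ^ B) :
    (1 + Real.log T) ^ n ≤ (1 + B * (2 * (n + 1) / β)) ^ n * L ^ (β / 2) := by
  have hn : (0 : ℝ) < n + 1 := by positivity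
  have hL0 : 0 < L := by linarith
  have hB : (0 : ℝ) ≤ B := Nat.cast_nonneg B
  set ε : ℝ := β / (2 * (n + 1)) with hε
  have hε0 : 0 < ε := by positivity
  have h1 : Real.log T ≤ B * Real.log L := by
    calc Real.log T ≤ Real.log (L ^ B) := Real.log_le_log (by linarith) hTL
      _ = B * Real.log L := Real.log_pow _ _
  have h2 : Real.log L ≤ L ^ ε / ε := Real.log_le_rpow_div hL0.le hε0
  have h3 : (1 : ℝ) ≤ L ^ ε := Real.one_le_rpow hL hε0.le
  have h4 : L ^ ε / ε = (2 * (n + 1) / β) * L ^ ε := by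
    rw [hε]
    field_simp
  rw [h4] at h2
  have h5 : 1 + Real.log T ≤ (1 + B * (2 * (n + 1) / β)) * L ^ ε := by
    have h6 := mul_le_mul_of_nonneg_left h2 hB
    nlinarith
  have h6 : 0 ≤ 1 + Real.log T := by
    have := Real.log_nonneg hT
    linarith
  have h7 : L ^ (ε * n) ≤ L ^ (β / 2) := by
    apply Real.rpow_le_rpow_of_exponent_le hL
    rw [hε, div_mul_eq_mul_div, div_le_div_iff₀ (by positivity) (by norm_num)]
    nlinarith
  calc (1 + Real.log T) ^ n ≤ ((1 + B * (2 * (n + 1) / β)) * L ^ ε) ^ n :=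
        pow_le_pow_left₀ h6 h5 n
    _ = (1 + B * (2 * (n + 1) / β)) ^ n * L ^ (ε * n) := by
        rw [mul_pow, ← Real.rpow_natCast (L ^ ε), ← Real.rpow_mul hL0.le]
    _ ≤ _ := mul_le_mul_of_nonneg_left h7 (by positivity)

theorem sizes (n : ℕ) (β : ℝ) (hβ : 0 < β) (hβ1 : β ≤ 1) :
    ∃ (C X₀ η : ℝ) (B : ℕ), 0 ≤ C ∧ 3 ≤ X₀ ∧ 0 < η ∧ ∀ X : ℝ, X₀ ≤ X → ∃ T Z : ℕ,
    1 ≤ T ∧ T ≤ Z ∧ Z ≤ ⌊3 * X⌋₊ ∧ (T : ℝ) ≤ Real.log X ^ B ∧
    Real.exp (Real.log X ^ η) ≤ Z ∧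
    (T : ℝ) ^ n ≤ √X ∧ (T : ℝ) ^ n * Z ≤ √X ∧
    (1 + Real.log (⌊3 * X⌋₊ : ℝ)) ^ n * ((T : ℝ) + 1) ^ (-(1 / 40 : ℝ)) ≤ C ∧
    (1 + Real.log X) ^ (-β) * (1 + Real.log T) ^ n ≤ C ∧
    (1 + Real.log X) ^ (-β) * ((1 + Real.log Z) * (1 + Real.log T) ^ n) ≤ C := by
  set B : ℕ := 40 * (n + 1) with hB
  set η : ℝ := β / 2 with hη
  have hη0 : 0 < η := by positivity
  have hη1 : η ≤ 1 / 2 := by rw [hη]; linarith
  obtain ⟨L₀, hL16, hL₀⟩ := SZ_asym B (B * n) η hη0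
  set K : ℝ := (1 + B * (2 * (n + 1) / β)) ^ n with hK
  have hK0 : 0 ≤ K := by positivity
  refine ⟨3 ^ n + (K + 3 * K), max 3 (Real.exp L₀), η, B, by positivity, le_max_left _ _, hη0,
    fun X hX => ?_⟩
  have hX3 : 3 ≤ X := le_trans (le_max_left _ _) hX
  have hX0 : 0 < X := by linarith
  have hLX : L₀ ≤ Real.log X := by
    rw [← Real.log_exp L₀]
    exact Real.log_le_log (Real.exp_pos _) (le_trans (le_max_right _ _) hX)
  set L := Real.log X with hLdef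
  have hL : 16 ≤ L := le_trans hL16 hLX
  have hL0 : 0 < L := by linarith
  have hL1 : 1 ≤ L := by linarith
  obtain ⟨a1, a3⟩ := hL₀ L hLX
  have hXe : X = Real.exp L := by rw [hLdef, Real.exp_log hX0]
  have hsq : √X = Real.exp (L / 2) := by
    rw [hXe, ← Real.exp_half]
  have hLB : (1 : ℝ) ≤ L ^ B := one_le_pow₀ hL1
  have hT1 : 1 ≤ ⌊L ^ B⌋₊ := by
    rw [Nat.one_le_floor_iff]
    exact hLB
  have hTle : ((⌊L ^ B⌋₊ : ℕ) : ℝ) ≤ L ^ B := Nat.floor_le (by positivity)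
  have hTge : L ^ B ≤ ((⌊L ^ B⌋₊ : ℕ) : ℝ) + 1 := (Nat.lt_floor_add_one _).le
  have hZge : Real.exp (L ^ η) ≤ ((⌈Real.exp (L ^ η)⌉₊ : ℕ) : ℝ) := Nat.le_ceil _
  have hZle : ((⌈Real.exp (L ^ η)⌉₊ : ℕ) : ℝ) ≤ Real.exp (L ^ η) + 1 :=
    (Nat.ceil_lt_add_one (Real.exp_pos _).le).le
  set T : ℕ := ⌊L ^ B⌋₊ with hT
  set Z : ℕ := ⌈Real.exp (L ^ η)⌉₊ with hZ
  have hT1' : (1 : ℝ) ≤ T := by exact_mod_cast hT1
  have hTZ : T ≤ Z := by
    have : (T : ℝ) ≤ Z := by linarith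
    exact_mod_cast this
  have hLη1 : (1 : ℝ) ≤ L ^ η := Real.one_le_rpow hL1 hη0.le
  have hLη : L ^ η ≤ L / 4 := by
    have h1 : L ^ η ≤ L ^ (1 / 2 : ℝ) := Real.rpow_le_rpow_of_exponent_le hL1 hη1
    have h2 : L ^ (1 / 2 : ℝ) = √L := (Real.sqrt_eq_rpow L).symm
    have h3 : 4 ≤ √L := by
      rw [show (4 : ℝ) = √16 by
        rw [show (16 : ℝ) = 4 ^ 2 by norm_num, Real.sqrt_sq (by norm_num)]]
      exact Real.sqrt_le_sqrt hL
    have h4 : √L * √L = L := Real.mul_self_sqrt hL0.le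
    rw [h2] at h1
    nlinarith
  have hLη' : L ^ η ≤ L := by linarith
  have hZX : (Z : ℝ) ≤ X + 1 := by
    have : Real.exp (L ^ η) ≤ X := by
      rw [hXe]; exact Real.exp_le_exp.mpr hLη'
    linarith
  have hZ3 : Z ≤ ⌊3 * X⌋₊ := by
    apply Nat.le_floor
    linarith
  have hfl : ((⌊3 * X⌋₊ : ℕ) : ℝ) ≤ 3 * X := Nat.floor_le (by linarith)
  have hfl1 : (1 : ℝ) ≤ ((⌊3 * X⌋₊ : ℕ) : ℝ) := by
    have : (1 : ℝ) ≤ Z := by
      have h : (T : ℝ) ≤ Z := by exact_mod_cast hTZ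
      linarith
    have h2 : (Z : ℝ) ≤ ((⌊3 * X⌋₊ : ℕ) : ℝ) := by exact_mod_cast hZ3
    linarith
  have hlog3 : Real.log 3 ≤ 2 := by
    have := Real.log_le_sub_one_of_pos (show (0 : ℝ) < 3 by norm_num)
    linarith
  have hlogfl : 1 + Real.log ((⌊3 * X⌋₊ : ℕ) : ℝ) ≤ 3 * L := by
    have h1 : Real.log ((⌊3 * X⌋₊ : ℕ) : ℝ) ≤ Real.log (3 * X) :=
      Real.log_le_log (by linarith) hfl
    rw [Real.log_mul (by norm_num) hX0.ne'] at h1
    linarith
  have hlogfl0 : 0 ≤ 1 + Real.log ((⌊3 * X⌋₊ : ℕ) : ℝ) := by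
    have := Real.log_nonneg hfl1
    linarith
  have hTneg : ((T : ℝ) + 1) ^ (-(1 / 40 : ℝ)) ≤ L ^ (-((n : ℝ) + 1)) := by
    calc ((T : ℝ) + 1) ^ (-(1 / 40 : ℝ)) ≤ (L ^ B) ^ (-(1 / 40 : ℝ)) :=
          Real.rpow_le_rpow_of_nonpos (by positivity) hTge (by norm_num)
      _ = L ^ (-((n : ℝ) + 1)) := by
          rw [← Real.rpow_natCast L B, ← Real.rpow_mul hL0.le]
          congr 1
          rw [hB]
          push_cast
          ring
  have hLneg : (1 + L) ^ (-β) ≤ L ^ (-β) :=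
    Real.rpow_le_rpow_of_nonpos hL0 (by linarith) (by linarith)
  have hLneg0 : 0 ≤ (1 + L) ^ (-β) := by positivity
  have hlogT := Real.log_nonneg hT1'
  have hlogTn : (1 + Real.log T) ^ n ≤ K * L ^ η :=
    SZ_log B n β hβ L T hL1 hT1' hTle
  have hββ : L ^ (-β) * (L ^ η * L ^ η) = 1 := by
    rw [← Real.rpow_add hL0, ← Real.rpow_add hL0, hη]
    have : -β + (β / 2 + β / 2) = 0 := by ring
    rw [this, Real.rpow_zero]
  have k1 : (1 + Real.log ((⌊3 * X⌋₊ : ℕ) : ℝ)) ^ n * ((T : ℝ) + 1) ^ (-(1 / 40 : ℝ)) ≤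
      3 ^ n := by
    calc (1 + Real.log ((⌊3 * X⌋₊ : ℕ) : ℝ)) ^ n * ((T : ℝ) + 1) ^ (-(1 / 40 : ℝ))
        ≤ (3 * L) ^ n * L ^ (-((n : ℝ) + 1)) := by
          apply mul_le_mul (pow_le_pow_left₀ hlogfl0 hlogfl n) hTneg (by positivity)
            (by positivity)
      _ = 3 ^ n * (L ^ (n : ℝ) * L ^ (-((n : ℝ) + 1))) := by
          rw [mul_pow, mul_assoc, Real.rpow_natCast]
      _ = 3 ^ n * L ^ (-1 : ℝ) := by
          rw [← Real.rpow_add hL0]
          congr 2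
          ring
      _ ≤ 3 ^ n * 1 := by
          apply mul_le_mul_of_nonneg_left _ (by positivity)
          exact Real.rpow_le_one_of_one_le_of_nonpos hL1 (by norm_num)
      _ = 3 ^ n := mul_one _
  have hlogZ : 1 + Real.log Z ≤ 3 * L ^ η := by
    have hZpos : (0 : ℝ) < Z := lt_of_lt_of_le (Real.exp_pos _) hZge
    have h1 : (Z : ℝ) ≤ Real.exp (L ^ η + 1) := by
      rw [Real.exp_add]
      have h2 : (2 : ℝ) ≤ Real.exp 1 := by
        have := Real.add_one_le_exp (1 : ℝ)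
        linarith
      have h3 : (1 : ℝ) ≤ Real.exp (L ^ η) := Real.one_le_exp (by linarith)
      nlinarith
    have h2 : Real.log Z ≤ L ^ η + 1 := by
      calc Real.log Z ≤ Real.log (Real.exp (L ^ η + 1)) := Real.log_le_log hZpos h1
        _ = _ := Real.log_exp _
    linarith
  have hlogZ0 : 0 ≤ 1 + Real.log Z := by
    have hZ1 : (1 : ℝ) ≤ Z := by
      have h : (T : ℝ) ≤ Z := by exact_mod_cast hTZ
      linarith
    have := Real.log_nonneg hZ1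
    linarith
  have k3 : (1 + L) ^ (-β) * ((1 + Real.log Z) * (1 + Real.log T) ^ n) ≤ 3 * K := by
    calc (1 + L) ^ (-β) * ((1 + Real.log Z) * (1 + Real.log T) ^ n)
        ≤ L ^ (-β) * ((3 * L ^ η) * (K * L ^ η)) := by
          apply mul_le_mul hLneg _ (by positivity) (by positivity)
          exact mul_le_mul hlogZ hlogTn (by positivity) (by positivity)
      _ = 3 * K * (L ^ (-β) * (L ^ η * L ^ η)) := by
          ring
      _ = 3 * K := by rw [hββ, mul_one]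
  have k2 : (1 + L) ^ (-β) * (1 + Real.log T) ^ n ≤ K := by
    calc (1 + L) ^ (-β) * (1 + Real.log T) ^ n ≤ L ^ (-β) * (K * L ^ η) :=
          mul_le_mul hLneg hlogTn (by positivity) (by positivity)
      _ ≤ L ^ (-β) * (K * (L ^ η * L ^ η)) := by
          apply mul_le_mul_of_nonneg_left _ (by positivity)
          apply mul_le_mul_of_nonneg_left _ hK0
          nlinarith
      _ = K * (L ^ (-β) * (L ^ η * L ^ η)) := by ring
      _ = K := by rw [hββ, mul_one]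
  have p3 : (0 : ℝ) ≤ 3 ^ n := by positivity
  have q2 : (T : ℝ) ^ n * Z ≤ Real.exp (L / 2) := by
    have h3 : (1 : ℝ) ≤ Real.exp (L ^ η) := Real.one_le_exp (by linarith)
    calc (T : ℝ) ^ n * Z ≤ (L ^ B) ^ n * (2 * Real.exp (L ^ η)) := by
          apply mul_le_mul (pow_le_pow_left₀ (by positivity) hTle n) (by linarith)
            (by positivity) (by positivity)
      _ = (2 * L ^ (B * n)) * Real.exp (L ^ η) := by
          rw [← pow_mul]
          ring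
      _ ≤ Real.exp (L / 4) * Real.exp (L / 4) := by
          apply mul_le_mul a3 (Real.exp_le_exp.mpr hLη) (by positivity) (by positivity)
      _ = Real.exp (L / 2) := by
          rw [← Real.exp_add]
          ring_nf
  have hZ1 : (1 : ℝ) ≤ Z := by
    have h : (T : ℝ) ≤ Z := by exact_mod_cast hTZ
    linarith
  refine ⟨T, Z, hT1, hTZ, hZ3, hTle, hZge, ?_, ?_, ?_, ?_, ?_⟩
  · rw [hsq]
    calc (T : ℝ) ^ n = (T : ℝ) ^ n * 1 := (mul_one _).symm
      _ ≤ (T : ℝ) ^ n * Z := mul_le_mul_of_nonneg_left hZ1 (by positivity)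
      _ ≤ _ := q2
  · rw [hsq]
    exact q2
  · exact le_trans k1 (by linarith)
  · exact le_trans k2 (by linarith)
  · exact le_trans k3 (by linarith)

end Pool.Agent.AVK
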