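import Pool.Agent.Lib_helper21.AVK.Defs
import Pool.Agent.Lib_helper21.AVK.W.MNa

/-! # MNb: the bound for the plain sum -/

set_option autoImplicit false

namespace Pool.Agent.AVK

open Finset
open Pool.Agent.AV (om js Lam K4 n4)

variable {ι : Type} [Fintype ι] [DecidableEq ι]

theorem MNb_lam_nonneg (x : ℝ) : 0 ≤ Lam x := le_max_left _ _

theorem MNb_lam_half {x : ℝ} (h : |x| ≤ 1 / 2) : 1 / 2 ≤ Lam x := by
  unfold Lam
  exact le_trans (by linarith) (le_max_right _ _)

theorem MNb_lam_zero {x : ℝ} (h : 1 ≤ |x|) : Lam x = 0 := by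
  unfold Lam
  exact max_eq_left (by linarith)

theorem MNb_group (α : ℝ) (oc : ι → ι → Bool) (κ : ι → ℤ) (Y : ℝ) (hY : 1 ≤ Y) :
    MSg α oc κ Y (fun _ => Icc 1 ⌊3 * Y⌋₊) =
      ∑ n ∈ Icc 1 ⌊3 * Y⌋₊, SSg α oc κ n * Lam (Real.log (n / Y)) := by
  unfold MSg
  set N := ⌊3 * Y⌋₊ with hN
  have hY0 : 0 < Y := by linarith
  have hpos : ∀ D ∈ Fintype.piFinset (fun _ : ι => Icc 1 N), 1 ≤ ∏ u, D u := by
    intro D hD
    rw [Fintype.mem_piFinset] at hD
    exact Nat.succ_le_of_lt (Finset.prod_pos (fun u _ => Nat.lt_of_succ_le (Finset.mem_Icc.1 (hD u)).1))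
  have h1 : ∑ D ∈ Fintype.piFinset (fun _ : ι => Icc 1 N),
      wtg α oc κ D * Lam (Real.log ((∏ u, (D u : ℝ)) / Y)) =
      ∑ D ∈ (Fintype.piFinset (fun _ : ι => Icc 1 N)).filter (fun D => ∏ u, D u ∈ Icc 1 N),
      wtg α oc κ D * Lam (Real.log ((∏ u, (D u : ℝ)) / Y)) := by
    symm
    apply Finset.sum_filter_of_ne
    intro D hD hne
    rw [Finset.mem_Icc]
    refine ⟨hpos D hD, ?_⟩
    by_contra hlt
    push Not at hlt
    apply hne
    have h3 : 3 * Y < ((∏ u, D u : ℕ) : ℝ) := by
      have := Nat.lt_of_floor_lt (by rw [← hN]; exact hlt : ⌊3 * Y⌋₊ < ∏ u, D u)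
      exact this
    have h4 : (1 : ℝ) ≤ |Real.log ((∏ u, (D u : ℝ)) / Y)| := by
      have h5 : (3 : ℝ) ≤ (∏ u, (D u : ℝ)) / Y := by
        rw [le_div_iff₀ hY0]
        push_cast at h3
        exact h3.le
      have h6 : (1 : ℝ) ≤ Real.log ((∏ u, (D u : ℝ)) / Y) := by
        rw [Real.le_log_iff_exp_le (by linarith)]
        have := Real.exp_one_lt_d9
        linarith
      exact le_trans h6 (le_abs_self _)
    rw [MNb_lam_zero h4, mul_zero]
  rw [h1, ← Finset.sum_fiberwise_of_maps_to (g := fun D : ι → ℕ => ∏ u, D u) (t := Icc 1 N)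
    (fun D hD => (Finset.mem_filter.1 hD).2)]
  apply Finset.sum_congr rfl
  intro n hn
  rw [Finset.mem_Icc] at hn
  unfold SSg
  rw [Finset.sum_mul]
  apply Finset.sum_congr
  · ext D
    simp only [Finset.mem_filter, Fintype.mem_piFinset, Finset.mem_Icc, Nat.mem_divisors]
    constructor
    · rintro ⟨⟨_, _⟩, h⟩
      refine ⟨fun u => ⟨?_, by omega⟩, h⟩
      rw [← h]
      exact Finset.dvd_prod_of_mem D (Finset.mem_univ u)
    · rintro ⟨hd, h⟩
      refine ⟨⟨fun u => ?_, ?_⟩, h⟩
      · obtain ⟨h1, h2⟩ := hd u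
        exact ⟨Nat.pos_of_dvd_of_pos h1 (by omega), le_trans (Nat.le_of_dvd (by omega) h1) hn.2⟩
      · rw [h]; exact hn
  · intro D hD
    rw [Finset.mem_filter] at hD
    have : (∏ u, (D u : ℝ)) = (n : ℝ) := by
      rw [← hD.2]; push_cast; rfl
    rw [this]

theorem MNb_short (α : ℝ) (oc : ι → ι → Bool) (C : ℝ) (hms : ∀ (κ : ι → ℤ) (X : ℝ), (∀ w, K4 (κ w)) → 1 ≤ X →
    |MSg α oc κ X (fun _ => Icc 1 ⌊3 * X⌋₊)| ≤ C * X) (κ : ι → ℤ) (hκ : ∀ w, K4 (κ w))
    (h0 : ∀ n, 0 ≤ SSg α oc κ n) (Y : ℝ) (hY : 1 ≤ Y) (S : Finset ℕ)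
    (hS : ∀ n ∈ S, 1 ≤ n ∧ |Real.log (n / Y)| ≤ 1 / 2) :
    ∑ n ∈ S, SSg α oc κ n ≤ 2 * C * Y := by
  have hY0 : 0 < Y := by linarith
  have h1 := le_trans (le_abs_self _) (hms κ Y hκ hY)
  rw [MNb_group α oc κ Y hY] at h1
  have hsub : S ⊆ Icc 1 ⌊3 * Y⌋₊ := by
    intro n hn
    obtain ⟨h2, h3⟩ := hS n hn
    rw [Finset.mem_Icc]
    refine ⟨h2, Nat.le_floor ?_⟩
    have hn0 : (0 : ℝ) < n := by exact_mod_cast h2
    have h4 : Real.log (n / Y) ≤ 1 := by
      have := (abs_le.1 h3).2
      linarith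
    have h5 : (n : ℝ) / Y ≤ Real.exp 1 := by
      rwa [Real.log_le_iff_le_exp (by positivity)] at h4
    have h6 := Real.exp_one_lt_d9
    rw [div_le_iff₀ hY0] at h5
    nlinarith
  have h2 : ∑ n ∈ S, SSg α oc κ n * (1 / 2) ≤ ∑ n ∈ Icc 1 ⌊3 * Y⌋₊, SSg α oc κ n * Lam (Real.log (n / Y)) := by
    calc ∑ n ∈ S, SSg α oc κ n * (1 / 2) ≤ ∑ n ∈ S, SSg α oc κ n * Lam (Real.log (n / Y)) := by
          apply Finset.sum_le_sum
          intro n hn
          exact mul_le_mul_of_nonneg_left (MNb_lam_half (hS n hn).2) (h0 n)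
      _ ≤ _ := by
          apply Finset.sum_le_sum_of_subset_of_nonneg hsub
          intro n _ _
          exact mul_nonneg (h0 n) (MNb_lam_nonneg _)
  rw [← Finset.sum_mul] at h2
  linarith

theorem ss_bound (α : ℝ) (h0 : 0 < α) (h1 : α ≤ 1) (oc : ι → ι → Bool) (M : ℕ)
    (hM : (M : ℝ) * α ≤ 1) (hU : ∀ J : Finset ι, Unl oc J → J.card ≤ M) :
    ∃ C : ℝ, 0 ≤ C ∧ ∀ (κ : ι → ℤ), (∀ w, K4 (κ w)) → (∀ n, 0 ≤ SSg α oc κ n) →
    ∀ X : ℝ, 1 ≤ X → ∑ n ∈ Icc 1 ⌊X⌋₊, SSg α oc κ n ≤ C * X := by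
  obtain ⟨C, hC, hms⟩ := ms_bound α h0 h1 oc M hM hU
  refine ⟨4 * C, by positivity, ?_⟩
  intro κ hκ h0
  have hone : SSg α oc κ 1 ≤ 2 * C := by
    have := MNb_short α oc C hms κ hκ h0 1 le_rfl {1} (by
      intro n hn
      rw [Finset.mem_singleton] at hn
      subst hn
      refine ⟨le_rfl, ?_⟩
      simp)
    simpa using this
  have key : ∀ m : ℕ, ∀ X : ℝ, 0 ≤ X → X ≤ Real.exp m →
      ∑ n ∈ Icc 1 ⌊X⌋₊, SSg α oc κ n ≤ 4 * C * X := by
    intro m
    induction m with
    | zero =>
      intro X hX0 hX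
      rw [Nat.cast_zero, Real.exp_zero] at hX
      rcases lt_or_eq_of_le hX with h | h
      · rw [Nat.floor_eq_zero.2 h]
        simp only [zero_lt_one, Icc_eq_empty_of_lt, sum_empty]
        positivity
      · subst h
        simp only [Nat.floor_one, Icc_self, sum_singleton]
        linarith
    | succ m ih =>
      intro X hX0 hX
      set q := Real.exp (1 / 2) with hq
      have hq1 : (1.6 : ℝ) < q := by
        have h1 : q * q = Real.exp 1 := by rw [hq, ← Real.exp_add]; norm_num
        have h2 := Real.exp_one_gt_d9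
        have h3 : 0 < q := Real.exp_pos _
        nlinarith
      have hqq : q * q = Real.exp 1 := by rw [hq, ← Real.exp_add]; norm_num
      have hq2 : q < 2 := by
        have h2 := Real.exp_one_lt_d9
        nlinarith
      have hq0 : 0 < q := by linarith
      rcases lt_or_ge X q with h | h
      · rcases lt_or_ge X 1 with h' | h'
        · rw [Nat.floor_eq_zero.2 h']
          simp only [zero_lt_one, Icc_eq_empty_of_lt, sum_empty]
          positivity
        · have : ⌊X⌋₊ = 1 := by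
            rw [Nat.floor_eq_iff hX0]
            constructor
            · simpa using h'
            · norm_num; linarith
          rw [this]
          simp only [Icc_self, sum_singleton]
          nlinarith
      · have hX1 : 1 ≤ X / q := by rw [le_div_iff₀ hq0]; linarith
        have hXe : X / Real.exp 1 ≤ Real.exp m := by
          rw [div_le_iff₀ (Real.exp_pos _), ← Real.exp_add]
          have : ((m + 1 : ℕ) : ℝ) = (m : ℝ) + 1 := by push_cast; ring
          rw [this] at hX
          exact hX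
        have h1 := ih (X / Real.exp 1) (by positivity) hXe
        have h2 := MNb_short α oc C hms κ hκ h0 (X / q) hX1 (Ioc ⌊X / Real.exp 1⌋₊ ⌊X⌋₊) (by
          intro n hn
          rw [Finset.mem_Ioc] at hn
          obtain ⟨hn1, hn2⟩ := hn
          have hn0 : 1 ≤ n := by omega
          refine ⟨hn0, ?_⟩
          have hn0' : (0 : ℝ) < n := by exact_mod_cast hn0
          have hlow : X / Real.exp 1 < n := Nat.lt_of_floor_lt hn1
          have hhigh : (n : ℝ) ≤ X := (Nat.le_floor_iff hX0).1 hn2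
          have hXpos : 0 < X := by linarith
          rw [abs_le]
          constructor
          · rw [Real.le_log_iff_exp_le (by positivity), le_div_iff₀ (by positivity)]
            have : Real.exp (-(1 / 2)) * (X / q) = X / Real.exp 1 := by
              rw [Real.exp_neg, ← hq, ← hqq]
              field_simp
            rw [this]
            exact hlow.le
          · rw [Real.log_le_iff_le_exp (by positivity), div_le_iff₀ (by positivity), ← hq]
            have : q * (X / q) = X := by field_simp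
            rw [this]
            exact hhigh)
        have h3 : ∑ n ∈ Icc 1 ⌊X⌋₊, SSg α oc κ n = ∑ n ∈ Icc 1 ⌊X / Real.exp 1⌋₊, SSg α oc κ n +
            ∑ n ∈ Ioc ⌊X / Real.exp 1⌋₊ ⌊X⌋₊, SSg α oc κ n := by
          have hle : ⌊X / Real.exp 1⌋₊ ≤ ⌊X⌋₊ := by
            apply Nat.floor_le_floor
            apply div_le_self hX0
            have := Real.exp_one_gt_d9
            linarith
          rw [← Finset.sum_union]
          · congr 1
            ext n
            simp only [Finset.mem_Icc, Finset.mem_union, Finset.mem_Ioc]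
            omega
          · rw [Finset.disjoint_left]
            intro n h4 h5
            rw [Finset.mem_Icc] at h4
            rw [Finset.mem_Ioc] at h5
            omega
        rw [h3]
        have h4 : X / Real.exp 1 ≤ X / 2.7 := by
          apply div_le_div_of_nonneg_left hX0 (by norm_num)
          have := Real.exp_one_gt_d9
          linarith
        have h5 : X / q ≤ X / 1.6 := by
          apply div_le_div_of_nonneg_left hX0 (by norm_num) hq1.le
        have h6 : 4 * C * (X / Real.exp 1) ≤ 4 * C * (X / 2.7) :=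
          mul_le_mul_of_nonneg_left h4 (by positivity)
        have h7 : 2 * C * (X / q) ≤ 2 * C * (X / 1.6) :=
          mul_le_mul_of_nonneg_left h5 (by positivity)
        have h8 : 0 ≤ C * X := by positivity
        have h9 : 4 * C * (X / 2.7) + 2 * C * (X / 1.6) ≤ 4 * C * X := by
          have : 4 * C * (X / 2.7) + 2 * C * (X / 1.6) = (4 / 2.7 + 2 / 1.6) * (C * X) := by ring
          rw [this]
          have : (4 / 2.7 + 2 / 1.6 : ℝ) ≤ 4 := by norm_num
          nlinarith
        linarith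
  intro X hX
  obtain ⟨m, hm⟩ := exists_nat_ge (Real.log X)
  apply key m X (by linarith)
  rw [← Real.log_le_iff_le_exp (by linarith)]
  exact hm

end Pool.Agent.AVK
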