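import Pool.Agent.Lib_helper21.AVK.Defs

/-! # HD: the size of the unlinked sets; products -/

set_option autoImplicit false

namespace Pool.Agent.AVK

open Finset
open Pool.Agent.AV (om js Lam K4 n4)

variable {ι : Type} [Fintype ι] [DecidableEq ι]

theorem had_unl (oc : ι → ι → Bool) (M : ℕ) (hH : Had oc M) (J : Finset ι) (hJ : Unl oc J) :
    J.card ≤ M := by
  have h1 : ∑ w, (∑ u ∈ J, sg oc u w) ^ 2 = (J.card : ℝ) * (M : ℝ) ^ 2 := by
    have e : ∀ w : ι, (∑ u ∈ J, sg oc u w) ^ 2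
        = ∑ u ∈ J, ∑ v ∈ J, sg oc u w * sg oc v w := by
      intro w
      rw [sq, Finset.sum_mul_sum]
    rw [Finset.sum_congr rfl fun w _ => e w, Finset.sum_comm]
    have e2 : ∀ u ∈ J, ∑ w, ∑ v ∈ J, sg oc u w * sg oc v w = (M : ℝ) ^ 2 := by
      intro u hu
      rw [Finset.sum_comm, Finset.sum_congr rfl fun v _ => hH u v, Finset.sum_ite_eq]
      simp [hu]
    rw [Finset.sum_congr rfl e2, Finset.sum_const, nsmul_eq_mul]
  have h2 : ∀ w ∈ J, (∑ u ∈ J, sg oc u w) ^ 2 = (J.card : ℝ) ^ 2 := by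
    intro w hw
    have : ∑ u ∈ J, sg oc u w = (J.card : ℝ) := by
      rw [Finset.sum_congr rfl (g := fun _ => (1 : ℝ))]
      · simp
      · intro u hu
        simp [sg, hJ u hu w hw]
    rw [this]
  have h3 : (J.card : ℝ) * (J.card : ℝ) ^ 2 ≤ (J.card : ℝ) * (M : ℝ) ^ 2 := by
    rw [← h1]
    calc (J.card : ℝ) * (J.card : ℝ) ^ 2 = ∑ w ∈ J, (∑ u ∈ J, sg oc u w) ^ 2 := by
          rw [Finset.sum_congr rfl h2, Finset.sum_const, nsmul_eq_mul]
      _ ≤ ∑ w, (∑ u ∈ J, sg oc u w) ^ 2 :=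
          Finset.sum_le_sum_of_subset_of_nonneg (Finset.subset_univ J)
            (fun w _ _ => sq_nonneg _)
  rcases Nat.eq_zero_or_pos J.card with h0 | h0
  · rw [h0]; exact Nat.zero_le _
  · have hp : (0 : ℝ) < (J.card : ℝ) := by exact_mod_cast h0
    have h4 : (J.card : ℝ) ^ 2 ≤ (M : ℝ) ^ 2 := le_of_mul_le_mul_left h3 hp
    have h5 : (J.card : ℝ) ≤ (M : ℝ) :=
      (pow_le_pow_iff_left₀ (Nat.cast_nonneg _) (Nat.cast_nonneg _) two_ne_zero).1 h4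
    exact_mod_cast h5

private theorem had_sg_prod {ι₁ ι₂ : Type} (oc₁ : ι₁ → ι₁ → Bool) (oc₂ : ι₂ → ι₂ → Bool)
    (u v : ι₁ × ι₂) : sg (ocp oc₁ oc₂) u v = sg oc₁ u.1 v.1 * sg oc₂ u.2 v.2 := by
  unfold sg lkg ocp
  cases oc₁ u.1 v.1 <;> cases oc₁ v.1 u.1 <;> cases oc₂ u.2 v.2 <;> cases oc₂ v.2 u.2 <;> simp

theorem had_prod {ι₁ ι₂ : Type} [Fintype ι₁] [DecidableEq ι₁] [Fintype ι₂] [DecidableEq ι₂]
    (oc₁ : ι₁ → ι₁ → Bool) (oc₂ : ι₂ → ι₂ → Bool) (M₁ M₂ : ℕ) (h₁ : Had oc₁ M₁)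
    (h₂ : Had oc₂ M₂) : Had (ocp oc₁ oc₂) (M₁ * M₂) := by
  intro u v
  have e : ∑ w : ι₁ × ι₂, sg (ocp oc₁ oc₂) u w * sg (ocp oc₁ oc₂) v w
      = (∑ a, sg oc₁ u.1 a * sg oc₁ v.1 a) * (∑ b, sg oc₂ u.2 b * sg oc₂ v.2 b) := by
    rw [Finset.sum_mul_sum, ← Finset.sum_product']
    refine Finset.sum_congr rfl fun w _ => ?_
    rw [had_sg_prod, had_sg_prod]
    ring
  rw [e, h₁ u.1 v.1, h₂ u.2 v.2]
  by_cases h : u = v
  · subst h
    simp only [if_true]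
    push_cast
    ring
  · rw [if_neg h]
    by_cases h' : u.1 = v.1
    · have h'' : u.2 ≠ v.2 := fun h2 => h (Prod.ext h' h2)
      rw [if_neg h'', mul_zero]
    · rw [if_neg h', zero_mul]

private def had_sgZ (u v : Pool.Agent.AV.V) : ℤ :=
  if lkg Pool.Agent.AV.occ u v then -1 else 1

private theorem had_baseZ : ∀ u v : Pool.Agent.AV.V,
    ∑ w, had_sgZ u w * had_sgZ v w = if u = v then (16 : ℤ) else 0 := by
  decide +kernel

theorem had_base : Had Pool.Agent.AV.occ 4 := by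
  intro u v
  have h := had_baseZ u v
  have hc : ∀ a b : Pool.Agent.AV.V, sg Pool.Agent.AV.occ a b = ((had_sgZ a b : ℤ) : ℝ) := by
    intro a b
    unfold sg had_sgZ
    split_ifs <;> simp
  have h2 : ((∑ w, had_sgZ u w * had_sgZ v w : ℤ) : ℝ)
      = ((if u = v then (16 : ℤ) else 0 : ℤ) : ℝ) := by rw [h]
  rw [Finset.sum_congr rfl fun w _ => by rw [hc u w, hc v w]]
  push_cast at h2
  rw [h2]
  by_cases huv : u = v
  · simp only [huv, if_true]; norm_num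
  · simp only [huv, if_false]

end Pool.Agent.AVK
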