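import Pool.Agent.Lib_helper21.AVK.Defs

/-! # PA: pairs of factorisations -/

set_option autoImplicit false

namespace Pool.Agent.AVK

open Finset
open Pool.Agent.AV (om js Lam K4 n4)

theorem PA_cop {ι : Type} [Fintype ι] [DecidableEq ι] {F : ι → ℕ} (h : Squarefree (∏ x, F x))
    {x y : ι} (hxy : x ≠ y) : (F x).Coprime (F y) := by
  have h1 : F x * F y ∣ ∏ z, F z := by
    rw [← Finset.mul_prod_erase univ F (Finset.mem_univ x)]
    exact mul_dvd_mul_left _ (Finset.dvd_prod_of_mem F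
      (Finset.mem_erase.2 ⟨hxy.symm, Finset.mem_univ y⟩))
  exact Nat.coprime_of_squarefree_mul (h.squarefree_of_dvd h1)

theorem PA_gcd {ι : Type} [DecidableEq ι] (s : Finset ι) (E : ι → ℕ)
    (hc : ∀ a ∈ s, ∀ b ∈ s, a ≠ b → (E a).Coprime (E b)) (k : ℕ) :
    ∏ a ∈ s, Nat.gcd k (E a) = Nat.gcd k (∏ a ∈ s, E a) := by
  induction s using Finset.induction_on with
  | empty => simp
  | insert a s ha ih =>
    rw [Finset.prod_insert ha, Finset.prod_insert ha, ih fun b hb c hc' => hc b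
      (Finset.mem_insert_of_mem hb) c (Finset.mem_insert_of_mem hc')]
    rw [Nat.Coprime.gcd_mul]
    refine Nat.Coprime.prod_right fun b hb => ?_
    refine hc a (Finset.mem_insert_self _ _) b (Finset.mem_insert_of_mem hb) ?_
    rintro rfl
    exact ha hb

theorem PA_mem {ι : Type} [Fintype ι] [DecidableEq ι] {n : ℕ} (hn : n ≠ 0) {D : ι → ℕ} :
    D ∈ (Fintype.piFinset fun _ : ι => n.divisors).filter (fun D => ∏ u, D u = n) ↔
      ∏ u, D u = n := by
  rw [Finset.mem_filter, Fintype.mem_piFinset]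
  constructor
  · exact fun h => h.2
  · intro h
    refine ⟨fun u => Nat.mem_divisors.2 ⟨?_, hn⟩, h⟩
    rw [← h]
    exact Finset.dvd_prod_of_mem D (Finset.mem_univ u)

/-- pairs of factorisations of a squarefree number and their common refinement -/
theorem pair_sum {ι₁ ι₂ : Type} [Fintype ι₁] [DecidableEq ι₁] [Fintype ι₂] [DecidableEq ι₂]
    (n : ℕ) (hn : Squarefree n) (G : (ι₁ → ℕ) → (ι₂ → ℕ) → ℝ) :
    ∑ D ∈ (Fintype.piFinset fun _ : ι₁ => n.divisors).filter (fun D => ∏ u, D u = n),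
      ∑ E ∈ (Fintype.piFinset fun _ : ι₂ => n.divisors).filter (fun E => ∏ a, E a = n), G D E =
    ∑ F ∈ (Fintype.piFinset fun _ : ι₁ × ι₂ => n.divisors).filter (fun F => ∏ x, F x = n),
      G (fun u => ∏ a, F (u, a)) (fun a => ∏ u, F (u, a)) := by
  have hn0 : n ≠ 0 := hn.ne_zero
  rw [← Finset.sum_product']
  symm
  refine Finset.sum_nbij' (fun F => (fun u => ∏ a, F (u, a), fun a => ∏ u, F (u, a)))
    (fun p x => Nat.gcd (p.1 x.1) (p.2 x.2)) ?_ ?_ ?_ ?_ ?_
  · intro F hF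
    rw [PA_mem hn0] at hF
    rw [Finset.mem_product, PA_mem hn0, PA_mem hn0]
    constructor
    · rw [← hF, Fintype.prod_prod_type]
    · rw [← hF, Fintype.prod_prod_type_right]
  · intro p hp
    rw [Finset.mem_product, PA_mem hn0, PA_mem hn0] at hp
    obtain ⟨h1, h2⟩ := hp
    rw [PA_mem hn0, Fintype.prod_prod_type]
    have h3 : ∀ u, ∏ a, Nat.gcd (p.1 u) (p.2 a) = p.1 u := by
      intro u
      rw [PA_gcd univ p.2 (fun a _ b _ hab => PA_cop (by rw [h2]; exact hn) hab), h2]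
      refine Nat.gcd_eq_left ?_
      rw [← h1]
      exact Finset.dvd_prod_of_mem p.1 (Finset.mem_univ u)
    calc ∏ u, ∏ a, Nat.gcd (p.1 u) (p.2 a) = ∏ u, p.1 u := Finset.prod_congr rfl fun u _ => h3 u
      _ = n := h1
  · intro F hF
    rw [PA_mem hn0] at hF
    have hsq : Squarefree (∏ x, F x) := by rw [hF]; exact hn
    funext x
    obtain ⟨u, a⟩ := x
    show Nat.gcd (∏ b, F (u, b)) (∏ w, F (w, a)) = F (u, a)
    rw [← Finset.mul_prod_erase univ (fun b => F (u, b)) (Finset.mem_univ a),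
      ← Finset.mul_prod_erase univ (fun w => F (w, a)) (Finset.mem_univ u), Nat.gcd_mul_left]
    have h1 : Nat.Coprime (∏ b ∈ univ.erase a, F (u, b)) (∏ w ∈ univ.erase u, F (w, a)) := by
      refine Nat.Coprime.prod_left fun b hb => Nat.Coprime.prod_right fun w hw => ?_
      refine PA_cop hsq ?_
      intro h
      exact (Finset.mem_erase.1 hb).1 (congrArg Prod.snd h)
    rw [h1.gcd_eq_one, mul_one]
  · intro p hp
    rw [Finset.mem_product, PA_mem hn0, PA_mem hn0] at hp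
    obtain ⟨h1, h2⟩ := hp
    ext u
    · show ∏ a, Nat.gcd (p.1 u) (p.2 a) = p.1 u
      rw [PA_gcd univ p.2 (fun a _ b _ hab => PA_cop (by rw [h2]; exact hn) hab), h2]
      refine Nat.gcd_eq_left ?_
      rw [← h1]
      exact Finset.dvd_prod_of_mem p.1 (Finset.mem_univ u)
    · show ∏ w, Nat.gcd (p.1 w) (p.2 u) = p.2 u
      have h4 : ∏ w, Nat.gcd (p.1 w) (p.2 u) = ∏ w, Nat.gcd (p.2 u) (p.1 w) :=
        Finset.prod_congr rfl fun w _ => Nat.gcd_comm _ _
      rw [h4, PA_gcd univ p.1 (fun a _ b _ hab => PA_cop (by rw [h1]; exact hn) hab), h1]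
      refine Nat.gcd_eq_left ?_
      rw [← h2]
      exact Finset.dvd_prod_of_mem p.2 (Finset.mem_univ u)
  · intro F _
    rfl

end Pool.Agent.AVK
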