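import Pool.Agent.Lib_helper21.AVK.Defs
import Pool.Agent.Lib_helper21.AVK.W.STa

/-! # PB: the weight of the common refinement -/

set_option autoImplicit false

namespace Pool.Agent.AVK

open Finset
open Pool.Agent.AV (om js Lam K4 n4)

theorem PB_cop {ι : Type} [Fintype ι] [DecidableEq ι] {F : ι → ℕ} (h : Squarefree (∏ x, F x))
    {x y : ι} (hxy : x ≠ y) : (F x).Coprime (F y) := by
  have h1 : F x * F y ∣ ∏ z, F z := by
    rw [← Finset.mul_prod_erase univ F (Finset.mem_univ x)]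
    exact mul_dvd_mul_left _ (Finset.dvd_prod_of_mem F
      (Finset.mem_erase.2 ⟨hxy.symm, Finset.mem_univ y⟩))
  exact Nat.coprime_of_squarefree_mul (h.squarefree_of_dvd h1)

theorem PB_so {ι : Type} [Fintype ι] [DecidableEq ι] {F : ι → ℕ} (h : Squarefree (∏ x, F x))
    (ho : Odd (∏ x, F x)) (x : ι) : Squarefree (F x) ∧ Odd (F x) := by
  have h1 : F x ∣ ∏ z, F z := Finset.dvd_prod_of_mem F (Finset.mem_univ x)
  exact ⟨h.squarefree_of_dvd h1, Odd.of_dvd_nat ho h1⟩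

theorem PB_js_left {β : Type} [DecidableEq β] (s : Finset β) (f : β → ℕ) (m : ℕ) :
    js ((∏ b ∈ s, f b : ℕ) : ℤ) m = ∏ b ∈ s, js (f b : ℤ) m := by
  induction s using Finset.induction_on with
  | empty => simp [js, jacobiSym.one_left]
  | insert b s hb ih =>
    rw [Finset.prod_insert hb, Finset.prod_insert hb, ← ih]
    unfold js
    rw [Nat.cast_mul, jacobiSym.mul_left]
    push_cast
    rfl

theorem PB_js_right {β : Type} [DecidableEq β] (s : Finset β) (f : β → ℕ)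
    (h0 : ∀ b ∈ s, f b ≠ 0) (a : ℤ) :
    js a (∏ b ∈ s, f b) = ∏ b ∈ s, js a (f b) := by
  induction s using Finset.induction_on with
  | empty => simp [js, jacobiSym.one_right]
  | insert b s hb ih =>
    rw [Finset.prod_insert hb, Finset.prod_insert hb,
      ← ih fun c hc => h0 c (Finset.mem_insert_of_mem hc)]
    unfold js
    rw [jacobiSym.mul_right' a (h0 b (Finset.mem_insert_self _ _))
      (Finset.prod_ne_zero_iff.2 fun c hc => h0 c (Finset.mem_insert_of_mem hc))]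
    push_cast
    rfl

/-- the weight of a product over one index -/
theorem PB_gwa {β : Type} [Fintype β] [DecidableEq β] (α : ℝ) (f : β → ℕ)
    (hs : Squarefree (∏ b, f b)) (ho : Odd (∏ b, f b)) :
    gwa α (∏ b, f b) = ∏ b, gwa α (f b) := by
  have h1 : ∀ b, gwa α (f b) = α ^ om (f b) := fun b => if_pos (PB_so hs ho b)
  have h2 : gwa α (∏ b, f b) = α ^ om (∏ b, f b) := if_pos ⟨hs, ho⟩
  have h3 : om (∏ b, f b) = ∑ b, om (f b) := by
    have key : ∀ s : Finset β, om (∏ b ∈ s, f b) = ∑ b ∈ s, om (f b) := by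
      intro s
      induction s using Finset.induction_on with
      | empty => simp [om]
      | insert b s hb ih =>
        rw [Finset.prod_insert hb, Finset.sum_insert hb, ← ih]
        have hc : (f b).Coprime (∏ c ∈ s, f c) := Nat.Coprime.prod_right fun c hc => by
          refine PB_cop hs ?_
          rintro rfl
          exact hb hc
        unfold om
        rw [Nat.Coprime.primeFactors_mul hc, Finset.card_union_of_disjoint
          hc.disjoint_primeFactors]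
    exact key univ
  rw [h2, h3, ← Finset.prod_pow_eq_pow_sum]
  exact Finset.prod_congr rfl fun b _ => (h1 b).symm

/-- all pairs -/
theorem PB_pairs {ι : Type} [Fintype ι] [DecidableEq ι] (oc : ι → ι → Bool)
    (o : ∀ u, oc u u = false) (F : ι → ℕ) (hs : Squarefree (∏ x, F x)) :
    ∏ x, ∏ y ∈ univ.erase x, phg oc x y (F x) (F y)
      = ∏ x, ∏ y, if oc x y then js (F y : ℤ) (F x) else 1 := by
  refine Finset.prod_congr rfl fun x _ => ?_
  rw [← Finset.mul_prod_erase univ (fun y => if oc x y then js (F y : ℤ) (F x) else 1)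
    (Finset.mem_univ x)]
  have h0 : (if oc x x then js (F x : ℤ) (F x) else 1) = (1 : ℝ) := by
    rw [o x]; rfl
  rw [h0, one_mul]
  refine Finset.prod_congr rfl fun y hy => ?_
  have hc := PB_cop hs (Finset.mem_erase.1 hy).1.symm
  unfold phg
  rw [if_pos hc, one_mul]

theorem PB_sq {a b : ℕ} (h : a.Coprime b) : js (a : ℤ) b * js (a : ℤ) b = 1 := by
  have h1 : jacobiSym (a : ℤ) b ^ 2 = 1 := jacobiSym.sq_one (by
    rw [Int.gcd_natCast_natCast]; exact h)
  unfold js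
  have h2 : (jacobiSym (a : ℤ) b : ℝ) ^ 2 = 1 := by exact_mod_cast h1
  rw [← pow_two]
  exact h2

theorem PB_fac : (Nat.factorization 1) 2 = 0 ∧ (Nat.factorization 2) 2 = 1 ∧
    (Nat.factorization 4) 2 = 2 := by
  refine ⟨by simp, ?_, ?_⟩
  · exact Nat.Prime.factorization_self Nat.prime_two
  · have h : (Nat.factorization (2 ^ 2)) 2 = 2 := by
      rw [Nat.factorization_pow, Finsupp.smul_apply, Nat.Prime.factorization_self Nat.prime_two]
      rfl
    exact h

theorem PB_n4 : n4 1 = 1 ∧ n4 (-1) = -1 ∧ n4 2 = 2 ∧ n4 (-2) = -2 ∧ n4 4 = 1 ∧ n4 (-4) = -1 := by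
  obtain ⟨h1, h2, h4⟩ := PB_fac
  have e1 : (1 : ℤ).natAbs = 1 := rfl
  have e1' : (-1 : ℤ).natAbs = 1 := rfl
  have e2 : (2 : ℤ).natAbs = 2 := rfl
  have e2' : (-2 : ℤ).natAbs = 2 := rfl
  have e4 : (4 : ℤ).natAbs = 4 := rfl
  have e4' : (-4 : ℤ).natAbs = 4 := rfl
  have s1 : (1 : ℤ).sign = 1 := rfl
  have s1' : (-1 : ℤ).sign = -1 := rfl
  have s2 : (2 : ℤ).sign = 1 := rfl
  have s2' : (-2 : ℤ).sign = -1 := rfl
  have s4 : (4 : ℤ).sign = 1 := rfl
  have s4' : (-4 : ℤ).sign = -1 := rfl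
  have ev0 : Even 0 := by decide
  have ev1 : ¬ Even 1 := by decide
  have ev2 : Even 2 := by decide
  unfold n4
  refine ⟨?_, ?_, ?_, ?_, ?_, ?_⟩
  · rw [e1, h1, s1, if_pos ev0]; rfl
  · rw [e1', h1, s1', if_pos ev0]; rfl
  · rw [e2, h2, s2, if_neg ev1]; rfl
  · rw [e2', h2, s2', if_neg ev1]; rfl
  · rw [e4, h4, s4, if_pos ev2]; rfl
  · rw [e4', h4, s4', if_pos ev2]; rfl

theorem PB_four {m : ℕ} (hm : Odd m) : jacobiSym 4 m = 1 := by
  have h : (4 : ℤ) = 2 ^ 2 := by norm_num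
  rw [h, jacobiSym.pow_left]
  refine jacobiSym.sq_one ?_
  have h2 : Int.gcd 2 (m : ℤ) = Nat.gcd 2 m := rfl
  rw [h2]
  exact (Nat.coprime_two_left).2 hm

theorem PB_js_n4 {k k' : ℤ} (hk : K4 k) (hk' : K4 k') {m : ℕ} (hm : Odd m) :
    js (n4 (k * k')) m = js k m * js k' m := by
  have hmul : js k m * js k' m = js (k * k') m := by
    unfold js
    rw [jacobiSym.mul_left]
    push_cast
    rfl
  rw [hmul]
  obtain ⟨n1, n1', n2, n2', n44, n44'⟩ := PB_n4
  have h4 : js 4 m = js 1 m := by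
    unfold js
    rw [PB_four hm, jacobiSym.one_left]
  have h4' : js (-4) m = js (-1) m := by
    unfold js
    have : (-4 : ℤ) = -1 * 4 := by norm_num
    rw [this, jacobiSym.mul_left, PB_four hm, mul_one]
  rcases hk with rfl | rfl | rfl | rfl <;> rcases hk' with rfl | rfl | rfl | rfl <;> norm_num <;>
    first
      | rw [n1] | rw [n1'] | rw [n2] | rw [n2'] | rw [n44, h4] | rw [n44', h4']

theorem pair_wt {ι₁ ι₂ : Type} [Fintype ι₁] [DecidableEq ι₁] [Fintype ι₂] [DecidableEq ι₂]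
    (α₁ α₂ : ℝ) (oc₁ : ι₁ → ι₁ → Bool) (oc₂ : ι₂ → ι₂ → Bool) (κ₁ : ι₁ → ℤ) (κ₂ : ι₂ → ℤ)
    (o₁ : ∀ u, oc₁ u u = false) (o₂ : ∀ a, oc₂ a a = false) (k₁ : ∀ u, K4 (κ₁ u))
    (k₂ : ∀ a, K4 (κ₂ a)) (F : ι₁ × ι₂ → ℕ) (hs : Squarefree (∏ x, F x)) (ho : Odd (∏ x, F x)) :
    wtg (α₁ * α₂) (ocp oc₁ oc₂) (kpp κ₁ κ₂) F =
      wtg α₁ oc₁ κ₁ (fun u => ∏ a, F (u, a)) * wtg α₂ oc₂ κ₂ (fun a => ∏ u, F (u, a)) := by
  have hne : ∀ x, F x ≠ 0 := fun x => (PB_so hs ho x).1.ne_zero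
  have hD : ∏ u, ∏ a, F (u, a) = ∏ x, F x := (Fintype.prod_prod_type F).symm
  have hE : ∏ a, ∏ u, F (u, a) = ∏ x, F x := (Fintype.prod_prod_type_right F).symm
  have hDs : Squarefree (∏ u, ∏ a, F (u, a)) := by rw [hD]; exact hs
  have hDo : Odd (∏ u, ∏ a, F (u, a)) := by rw [hD]; exact ho
  have hEs : Squarefree (∏ a, ∏ u, F (u, a)) := by rw [hE]; exact hs
  have hEo : Odd (∏ a, ∏ u, F (u, a)) := by rw [hE]; exact ho
  have oo : ∀ x, ocp oc₁ oc₂ x x = false := fun x => by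
    unfold ocp; rw [o₁, o₂]; rfl
  unfold wtg
  rw [PB_pairs _ oo F hs, PB_pairs _ o₁ (fun u => ∏ a, F (u, a)) hDs,
    PB_pairs _ o₂ (fun a => ∏ u, F (u, a)) hEs]
  -- the single factors
  have hA : ∏ x, gwa (α₁ * α₂) (F x) * js (kpp κ₁ κ₂ x) (F x)
      = (∏ u, gwa α₁ (∏ a, F (u, a)) * js (κ₁ u) (∏ a, F (u, a)))
        * (∏ a, gwa α₂ (∏ u, F (u, a)) * js (κ₂ a) (∏ u, F (u, a))) := by
    have h1 : ∏ u, gwa α₁ (∏ a, F (u, a)) * js (κ₁ u) (∏ a, F (u, a))
        = ∏ x, gwa α₁ (F x) * js (κ₁ x.1) (F x) := by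
      rw [Fintype.prod_prod_type]
      refine Finset.prod_congr rfl fun u _ => ?_
      rw [PB_gwa α₁ (fun a => F (u, a)) (PB_so hDs hDo u).1 (PB_so hDs hDo u).2,
        PB_js_right univ (fun a => F (u, a)) (fun a _ => hne _), ← Finset.prod_mul_distrib]
    have h2 : ∏ a, gwa α₂ (∏ u, F (u, a)) * js (κ₂ a) (∏ u, F (u, a))
        = ∏ x, gwa α₂ (F x) * js (κ₂ x.2) (F x) := by
      rw [Fintype.prod_prod_type_right]
      refine Finset.prod_congr rfl fun a _ => ?_
      rw [PB_gwa α₂ (fun u => F (u, a)) (PB_so hEs hEo a).1 (PB_so hEs hEo a).2,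
        PB_js_right univ (fun u => F (u, a)) (fun u _ => hne _), ← Finset.prod_mul_distrib]
    rw [h1, h2, ← Finset.prod_mul_distrib]
    refine Finset.prod_congr rfl fun x _ => ?_
    have hx := PB_so hs ho x
    unfold kpp
    rw [PB_js_n4 (k₁ x.1) (k₂ x.2) hx.2]
    unfold gwa
    rw [if_pos hx, if_pos hx, if_pos hx, mul_pow]
    ring
  -- the pairs
  have hB : (∏ x, ∏ y, if ocp oc₁ oc₂ x y then js (F y : ℤ) (F x) else 1)
      = (∏ u, ∏ v, if oc₁ u v then js ((∏ a, F (v, a) : ℕ) : ℤ) (∏ a, F (u, a)) else 1)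
        * (∏ a, ∏ b, if oc₂ a b then js ((∏ u, F (u, b) : ℕ) : ℤ) (∏ u, F (u, a)) else 1) := by
    have h1 : (∏ u, ∏ v, if oc₁ u v then js ((∏ a, F (v, a) : ℕ) : ℤ) (∏ a, F (u, a)) else 1)
        = ∏ x : ι₁ × ι₂, ∏ y : ι₁ × ι₂, if oc₁ x.1 y.1 then js (F y : ℤ) (F x) else 1 := by
      rw [Fintype.prod_prod_type]
      refine Finset.prod_congr rfl fun u _ => ?_
      have h2 : ∀ a : ι₂, (∏ y : ι₁ × ι₂, if oc₁ u y.1 then js (F y : ℤ) (F (u, a)) else 1)
          = ∏ v, ∏ b, if oc₁ u v then js (F (v, b) : ℤ) (F (u, a)) else 1 :=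
        fun a => Fintype.prod_prod_type _
      simp_rw [h2]
      rw [Finset.prod_comm]
      refine Finset.prod_congr rfl fun v _ => ?_
      by_cases h : oc₁ u v = true
      · simp only [h, if_true]
        rw [PB_js_right univ (fun a => F (u, a)) (fun a _ => hne _)]
        refine Finset.prod_congr rfl fun a _ => ?_
        exact PB_js_left univ (fun b => F (v, b)) _
      · simp only [h, if_false, Bool.false_eq_true]
        simp
    have h2 : (∏ a, ∏ b, if oc₂ a b then js ((∏ u, F (u, b) : ℕ) : ℤ) (∏ u, F (u, a)) else 1)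
        = ∏ x : ι₁ × ι₂, ∏ y : ι₁ × ι₂, if oc₂ x.2 y.2 then js (F y : ℤ) (F x) else 1 := by
      rw [Fintype.prod_prod_type_right]
      refine Finset.prod_congr rfl fun a _ => ?_
      have h3 : ∀ u : ι₁, (∏ y : ι₁ × ι₂, if oc₂ a y.2 then js (F y : ℤ) (F (u, a)) else 1)
          = ∏ b, ∏ v, if oc₂ a b then js (F (v, b) : ℤ) (F (u, a)) else 1 :=
        fun u => Fintype.prod_prod_type_right _
      simp_rw [h3]
      rw [Finset.prod_comm]
      refine Finset.prod_congr rfl fun b _ => ?_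
      by_cases h : oc₂ a b = true
      · simp only [h, if_true]
        rw [PB_js_right univ (fun u => F (u, a)) (fun u _ => hne _)]
        refine Finset.prod_congr rfl fun u _ => ?_
        exact PB_js_left univ (fun v => F (v, b)) _
      · simp only [h, if_false, Bool.false_eq_true]
        simp
    rw [h1, h2, ← Finset.prod_mul_distrib]
    refine Finset.prod_congr rfl fun x _ => ?_
    rw [← Finset.prod_mul_distrib]
    refine Finset.prod_congr rfl fun y _ => ?_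
    by_cases hxy : x = y
    · subst hxy
      rw [oo x, o₁ x.1, o₂ x.2]
      simp
    · have hJ := PB_sq (PB_cop hs (Ne.symm hxy) : (F y).Coprime (F x))
      unfold ocp
      cases h3 : oc₁ x.1 y.1 <;> cases h4 : oc₂ x.2 y.2 <;> simp [hJ]
  rw [hA, hB]
  ring

end Pool.Agent.AVK
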