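import Pool.Agent.Lib_helper21.AVK.Defs
import Pool.Agent.Lib_helper21.AVK.W.PA
import Pool.Agent.Lib_helper21.AVK.W.PB

/-! # PC: products of the sums over factorisations -/

set_option autoImplicit false

namespace Pool.Agent.AVK

open Finset
open Pool.Agent.AV (om js Lam K4 n4)

theorem SSg_mul {ι₁ ι₂ : Type} [Fintype ι₁] [DecidableEq ι₁] [Fintype ι₂] [DecidableEq ι₂]
    (α₁ α₂ : ℝ) (oc₁ : ι₁ → ι₁ → Bool) (oc₂ : ι₂ → ι₂ → Bool) (κ₁ : ι₁ → ℤ) (κ₂ : ι₂ → ℤ)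
    (o₁ : ∀ u, oc₁ u u = false) (o₂ : ∀ a, oc₂ a a = false) (k₁ : ∀ u, K4 (κ₁ u))
    (k₂ : ∀ a, K4 (κ₂ a)) (n : ℕ) (hn : Squarefree n) (ho : Odd n) :
    SSg (α₁ * α₂) (ocp oc₁ oc₂) (kpp κ₁ κ₂) n = SSg α₁ oc₁ κ₁ n * SSg α₂ oc₂ κ₂ n := by
  have h := pair_sum (ι₁ := ι₁) (ι₂ := ι₂) n hn fun D E => wtg α₁ oc₁ κ₁ D * wtg α₂ oc₂ κ₂ E
  unfold SSg
  rw [Finset.sum_mul_sum, h]
  refine Finset.sum_congr rfl fun F hF => ?_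
  have h1 : ∏ x, F x = n := (Finset.mem_filter.1 hF).2
  exact pair_wt α₁ α₂ oc₁ oc₂ κ₁ κ₂ o₁ o₂ k₁ k₂ F (h1 ▸ hn) (h1 ▸ ho)

/-- the sum vanishes for the other `n` -/
theorem SSg_zero {ι : Type} [Fintype ι] [DecidableEq ι] (α : ℝ) (oc : ι → ι → Bool) (κ : ι → ℤ)
    (n : ℕ) (hn : ¬ (Squarefree n ∧ Odd n)) : SSg α oc κ n = 0 := by
  unfold SSg
  refine Finset.sum_eq_zero fun D hD => ?_
  have h1 : ∏ x, D x = n := (Finset.mem_filter.1 hD).2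
  exact wtg_zero α oc κ D (h1 ▸ hn)

/-- the case of AV -/
theorem SSg_AV (κ : Pool.Agent.AV.V → ℤ) (n : ℕ) :
    SSg (1 / 4) Pool.Agent.AV.occ κ n = Pool.Agent.AV.SS κ n := rfl

theorem PC_n4 {k : ℤ} (hk : k ≠ 0) : K4 (n4 k) := by
  unfold K4 n4
  rcases lt_or_gt_of_ne hk with h | h
  · rw [Int.sign_eq_neg_one_of_neg h]
    split_ifs
    · right; left; norm_num
    · right; right; right; norm_num
  · rw [Int.sign_eq_one_of_pos h]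
    split_ifs
    · left; norm_num
    · right; right; left; norm_num

theorem PC_ne {k : ℤ} (hk : K4 k) : k ≠ 0 := by
  rcases hk with rfl | rfl | rfl | rfl <;> norm_num

theorem kpp_K4 {ι₁ ι₂ : Type} (κ₁ : ι₁ → ℤ) (κ₂ : ι₂ → ℤ) (k₁ : ∀ u, K4 (κ₁ u))
    (k₂ : ∀ a, K4 (κ₂ a)) (u : ι₁ × ι₂) : K4 (kpp κ₁ κ₂ u) :=
  PC_n4 (mul_ne_zero (PC_ne (k₁ _)) (PC_ne (k₂ _)))

end Pool.Agent.AVK
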