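import Pool.Agent.Lib_helper21.AVK.Defs
import Pool.Agent.Lib_helper21.AVK.W.PC
import Pool.Agent.Lib_helper21.AVK.W.HD
import Pool.Agent.Lib_helper21.AV.W.EXc

/-! # PD: powers of the number of factorisations with local conditions -/

set_option autoImplicit false

namespace Pool.Agent.AVK

open Finset
open Pool.Agent.AV (om js Lam K4 n4)

theorem PD_zero (n : ℕ) (hn : Squarefree n) (ho : Odd n) :
    SSg (ι := Unit) 1 (fun _ _ => false) (fun _ => 1) n = 1 := by
  have hn0 : n ≠ 0 := hn.ne_zero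
  unfold SSg
  have h1 : (Fintype.piFinset fun _ : Unit => n.divisors).filter (fun D => ∏ u, D u = n)
      = {fun _ => n} := by
    ext D
    rw [Finset.mem_filter, Fintype.mem_piFinset, Finset.mem_singleton, Fintype.prod_unique]
    constructor
    · rintro ⟨_, h⟩
      funext u
      exact h
    · rintro rfl
      exact ⟨fun _ => Nat.mem_divisors.2 ⟨dvd_rfl, hn0⟩, rfl⟩
  rw [h1, Finset.sum_singleton]
  unfold wtg
  have h2 : ∀ u : Unit, (univ.erase u : Finset Unit) = ∅ := by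
    intro u
    ext v
    simp
  have h3 : js 1 n = 1 := by
    unfold js
    rw [jacobiSym.one_left]
    norm_num
  have h4 : gwa 1 n = 1 := by
    unfold gwa
    rw [if_pos ⟨hn, ho⟩, one_pow]
  rw [Fintype.prod_unique, Fintype.prod_unique, h2, Finset.prod_empty, h3, h4]
  norm_num

theorem PD_occ (a : Pool.Agent.AV.V) : Pool.Agent.AV.occ a a = false := by
  unfold Pool.Agent.AV.occ
  simp

theorem powers (K : ℕ) : ∃ (ι : Type) (_ : Fintype ι) (_ : DecidableEq ι) (oc : ι → ι → Bool)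
    (M : ℕ), 0 < M ∧ (∀ u, oc u u = false) ∧ Had oc M ∧
    ∀ κ : Pool.Agent.AV.V → ℤ, (∀ u, K4 (κ u)) → Pool.Agent.AV.PR κ →
      ∃ κ' : ι → ℤ, (∀ u, K4 (κ' u)) ∧ ∀ n : ℕ, Squarefree n → Odd n →
        SSg (1 / M : ℝ) oc κ' n = ((Pool.Agent.AV.NN κ n).card : ℝ) ^ K := by
  induction K with
  | zero =>
    refine ⟨Unit, inferInstance, inferInstance, fun _ _ => false, 1, Nat.one_pos, fun _ => rfl,
      ?_, fun κ _ _ => ⟨fun _ => 1, fun _ => Or.inl rfl, fun n hn ho => ?_⟩⟩
    · intro u v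
      have h1 : ∀ a b : Unit, sg (fun _ _ : Unit => false) a b = 1 := by
        intro a b
        unfold sg lkg
        simp
      rw [Fintype.sum_unique, h1, if_pos (Subsingleton.elim u v)]
      norm_num
    · rw [pow_zero, Nat.cast_one, div_one]
      exact PD_zero n hn ho
  | succ K ih =>
    obtain ⟨ι, i1, i2, oc, M, hM, ho, hH, hk⟩ := ih
    refine ⟨ι × Pool.Agent.AV.V, inferInstance, inferInstance, ocp oc Pool.Agent.AV.occ, M * 4,
      by omega, fun u => ?_, had_prod oc Pool.Agent.AV.occ M 4 hH had_base,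
      fun κ hκ hp => ?_⟩
    · unfold ocp
      rw [ho, PD_occ]
      rfl
    · obtain ⟨κ', hκ', hS⟩ := hk κ hκ hp
      refine ⟨kpp κ' κ, kpp_K4 κ' κ hκ' hκ, fun n hn hodd => ?_⟩
      have h1 : (1 / ((M * 4 : ℕ) : ℝ)) = (1 / (M : ℝ)) * (1 / 4) := by
        push_cast
        rw [one_div_mul_one_div]
      rw [h1, SSg_mul _ _ oc Pool.Agent.AV.occ κ' κ ho PD_occ hκ' hκ n hn hodd, hS n hn hodd,
        SSg_AV, Pool.Agent.AV.expand κ hκ hp n hn hodd, pow_succ]

end Pool.Agent.AVK
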