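import Pool.Agent.Lib_helper21.AVK.Defs
import Pool.Agent.Lib_helper21.AVK.W.PD
import Pool.Agent.Lib_helper21.AVK.W.MNb

/-! # MO: all moments of the number of factorisations -/

set_option autoImplicit false

namespace Pool.Agent.AVK

open Finset
open Pool.Agent.AV (om js Lam K4 n4)

theorem nn_moment (K : ℕ) : ∃ C : ℝ, 0 ≤ C ∧ ∀ κ : Pool.Agent.AV.V → ℤ, (∀ u, K4 (κ u)) →
    Pool.Agent.AV.PR κ → ∀ X : ℕ, 1 ≤ X →
    ∑ n ∈ (Icc 1 X).filter (fun n => Squarefree n ∧ Odd n),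
      ((Pool.Agent.AV.NN κ n).card : ℝ) ^ K ≤ C * X := by
  obtain ⟨ι, hf, hd, oc, M, hM, ho, hH, hP⟩ := powers K
  have hM0 : (0 : ℝ) < (M : ℝ) := by exact_mod_cast hM
  have hM1 : (1 : ℝ) ≤ (M : ℝ) := by exact_mod_cast hM
  have ha0 : (0 : ℝ) < (1 / M : ℝ) := by positivity
  have ha1 : (1 / M : ℝ) ≤ 1 := by
    rw [div_le_one hM0]
    exact hM1
  have hMa : (M : ℝ) * (1 / M : ℝ) ≤ 1 := by
    rw [mul_one_div_cancel hM0.ne']
  obtain ⟨C, hC0, hC⟩ := ss_bound (1 / M : ℝ) ha0 ha1 oc M hMa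
    (fun J hJ => had_unl oc M hH J hJ)
  refine ⟨C, hC0, ?_⟩
  intro κ hκ hPR X hX
  obtain ⟨κ', hκ', hS⟩ := hP κ hκ hPR
  have hnn : ∀ n, 0 ≤ SSg (1 / M : ℝ) oc κ' n := by
    intro n
    by_cases h : Squarefree n ∧ Odd n
    · rw [hS n h.1 h.2]
      positivity
    · rw [SSg_zero (1 / M : ℝ) oc κ' n h]
  have h1 := hC κ' hκ' hnn (X : ℝ) (by exact_mod_cast hX)
  rw [Nat.floor_natCast] at h1
  refine le_trans ?_ h1
  have h2 : ∑ n ∈ (Icc 1 X).filter (fun n => Squarefree n ∧ Odd n),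
      ((Pool.Agent.AV.NN κ n).card : ℝ) ^ K =
      ∑ n ∈ (Icc 1 X).filter (fun n => Squarefree n ∧ Odd n), SSg (1 / M : ℝ) oc κ' n := by
    refine Finset.sum_congr rfl (fun n hn => ?_)
    have h3 := (Finset.mem_filter.1 hn).2
    rw [hS n h3.1 h3.2]
  rw [h2]
  exact Finset.sum_le_sum_of_subset_of_nonneg (Finset.filter_subset _ _) (fun n _ _ => hnn n)

end Pool.Agent.AVK
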