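import Pool.Agent.Lib_helper21.AVK.Defs
import Pool.Agent.Lib_helper21.AVK.W.MO
import Pool.Agent.Lib_helper21.AV.W.EXd

/-! # AG: all moments of the bound for `2 ^ rank` -/

set_option autoImplicit false

namespace Pool.Agent.AVK

open Finset
open Pool.Agent.AV (om js Lam K4 n4)

theorem AG_ep (D : ℕ) : Pool.Agent.AV.ep D = 1 ∨ Pool.Agent.AV.ep D = 2 := by
  unfold Pool.Agent.AV.ep
  split_ifs
  · exact Or.inr rfl
  · exact Or.inl rfl

theorem AG_op (D : ℕ) (hD : Squarefree D) :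
    Squarefree (Pool.Agent.AV.op D) ∧ Odd (Pool.Agent.AV.op D) := by
  unfold Pool.Agent.AV.op
  split_ifs with h
  · obtain ⟨k, hk⟩ := h.two_dvd
    have h2 : D / 2 = k := by omega
    rw [h2]
    refine ⟨hD.squarefree_of_dvd ⟨2, by rw [hk]; ring⟩, ?_⟩
    rw [← Nat.not_even_iff_odd]
    intro h3
    obtain ⟨j, hj⟩ := h3.two_dvd
    have h4 : 2 * 2 ∣ D := ⟨j, by rw [hk, hj]; ring⟩
    have h5 := hD 2 h4
    rw [Nat.isUnit_iff] at h5
    omega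
  · exact ⟨hD, Nat.not_even_iff_odd.1 h⟩

theorem AG_split (f : ℤ → ℕ → ℝ) (hf1 : ∀ n, 0 ≤ f 1 n) (hf2 : ∀ n, 0 ≤ f 2 n) (X : ℕ) :
    ∑ D ∈ (Icc 1 X).filter Squarefree, f (Pool.Agent.AV.ep D) (Pool.Agent.AV.op D) ≤
      ∑ n ∈ Icc 1 X, f 1 n + ∑ n ∈ Icc 1 X, f 2 n := by
  classical
  rw [← sum_filter_not_add_sum_filter ((Icc 1 X).filter Squarefree) (fun D => Even D)
    (fun D => f (Pool.Agent.AV.ep D) (Pool.Agent.AV.op D))]
  refine add_le_add ?_ ?_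
  · have h1 : ∑ D ∈ ((Icc 1 X).filter Squarefree).filter (fun D => ¬ Even D),
        f (Pool.Agent.AV.ep D) (Pool.Agent.AV.op D) =
        ∑ D ∈ ((Icc 1 X).filter Squarefree).filter (fun D => ¬ Even D), f 1 D := by
      refine sum_congr rfl fun D hD => ?_
      have h2 := (mem_filter.1 hD).2
      simp only [Pool.Agent.AV.ep, Pool.Agent.AV.op, h2, if_false]
    rw [h1]
    refine sum_le_sum_of_subset_of_nonneg ?_ fun n _ _ => hf1 n
    exact (filter_subset _ _).trans (filter_subset _ _)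
  · have h1 : ∑ D ∈ ((Icc 1 X).filter Squarefree).filter (fun D => Even D),
        f (Pool.Agent.AV.ep D) (Pool.Agent.AV.op D) =
        ∑ D ∈ ((Icc 1 X).filter Squarefree).filter (fun D => Even D), f 2 (D / 2) := by
      refine sum_congr rfl fun D hD => ?_
      have h2 := (mem_filter.1 hD).2
      simp only [Pool.Agent.AV.ep, Pool.Agent.AV.op, h2, if_true]
    have h3 : ∑ D ∈ ((Icc 1 X).filter Squarefree).filter (fun D => Even D), f 2 (D / 2) =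
        ∑ n ∈ (((Icc 1 X).filter Squarefree).filter (fun D => Even D)).image (fun D => D / 2),
          f 2 n := by
      rw [sum_image]
      intro a ha b hb hab
      have h4 := (mem_filter.1 (mem_coe.1 ha)).2.two_dvd
      have h5 := (mem_filter.1 (mem_coe.1 hb)).2.two_dvd
      simp only at hab
      omega
    rw [h1, h3]
    refine sum_le_sum_of_subset_of_nonneg ?_ fun n _ _ => hf2 n
    intro n hn
    obtain ⟨D, hD, rfl⟩ := mem_image.1 hn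
    obtain ⟨h4, h5⟩ := mem_filter.1 hD
    obtain ⟨h6, h7⟩ := mem_Icc.1 (mem_filter.1 h4).1
    have h8 := h5.two_dvd
    rw [mem_Icc]
    omega

/-- power of a sum -/
theorem AG_pow {s : Finset ℤ} (hs : s.Nonempty) (f : ℤ → ℝ) (hf : ∀ x ∈ s, 0 ≤ f x) (K : ℕ) :
    (∑ x ∈ s, f x) ^ K ≤ (s.card : ℝ) ^ K * ∑ x ∈ s, f x ^ K := by
  obtain ⟨j, hj, hmax⟩ := Finset.exists_max_image s f hs
  have h1 : ∑ x ∈ s, f x ≤ s.card * f j := by
    calc ∑ x ∈ s, f x ≤ ∑ _x ∈ s, f j := sum_le_sum fun x hx => hmax x hx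
      _ = s.card * f j := by rw [sum_const, nsmul_eq_mul]
  calc (∑ x ∈ s, f x) ^ K ≤ (s.card * f j) ^ K :=
        pow_le_pow_left₀ (sum_nonneg hf) h1 K
    _ = (s.card : ℝ) ^ K * f j ^ K := mul_pow _ _ _
    _ ≤ (s.card : ℝ) ^ K * ∑ x ∈ s, f x ^ K := by
        refine mul_le_mul_of_nonneg_left ?_ (by positivity)
        exact single_le_sum (f := fun x => f x ^ K) (fun x hx => pow_nonneg (hf x hx) K) hj

theorem AG_F4 : ((Pool.Agent.AV.F4.card : ℕ) : ℝ) = 4 := by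
  have : Pool.Agent.AV.F4.card = 4 := by decide
  rw [this]; norm_num

theorem AG_F4n : Pool.Agent.AV.F4.Nonempty := ⟨1, by decide⟩

/-- power of the bound -/
theorem AG_GG (D K : ℕ) : Pool.Agent.AV.GG D ^ K ≤ 2 ^ (K - 1) * (4 ^ K + 4 ^ K * (4 ^ K * (4 ^ K *
    ∑ x ∈ Pool.Agent.AV.F4, ∑ y ∈ Pool.Agent.AV.F4, ∑ z ∈ Pool.Agent.AV.F4,
      ((Pool.Agent.AV.NN (Pool.Agent.AV.kap (Pool.Agent.AV.ep D) x y z)
        (Pool.Agent.AV.op D)).card : ℝ) ^ K))) := by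
  set a : ℤ → ℤ → ℤ → ℝ := fun x y z =>
    ((Pool.Agent.AV.NN (Pool.Agent.AV.kap (Pool.Agent.AV.ep D) x y z)
        (Pool.Agent.AV.op D)).card : ℝ) with ha
  have a0 : ∀ x y z, 0 ≤ a x y z := fun x y z => Nat.cast_nonneg _
  have e0 : Pool.Agent.AV.GG D = 4 + ∑ x ∈ Pool.Agent.AV.F4, ∑ y ∈ Pool.Agent.AV.F4,
      ∑ z ∈ Pool.Agent.AV.F4, a x y z := rfl
  have e1 : ∀ x y, (∑ z ∈ Pool.Agent.AV.F4, a x y z) ^ K ≤
      4 ^ K * ∑ z ∈ Pool.Agent.AV.F4, a x y z ^ K := fun x y => by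
    have h := AG_pow AG_F4n (fun z => a x y z) (fun z _ => a0 x y z) K
    rwa [AG_F4] at h
  have e2 : ∀ x, (∑ y ∈ Pool.Agent.AV.F4, ∑ z ∈ Pool.Agent.AV.F4, a x y z) ^ K ≤
      4 ^ K * (4 ^ K * ∑ y ∈ Pool.Agent.AV.F4, ∑ z ∈ Pool.Agent.AV.F4, a x y z ^ K) := fun x => by
    have h := AG_pow AG_F4n (fun y => ∑ z ∈ Pool.Agent.AV.F4, a x y z)
      (fun y _ => sum_nonneg fun z _ => a0 x y z) K
    rw [AG_F4] at h
    refine le_trans h (mul_le_mul_of_nonneg_left ?_ (by positivity))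
    rw [mul_sum]
    exact sum_le_sum fun y _ => e1 x y
  have e3 : (∑ x ∈ Pool.Agent.AV.F4, ∑ y ∈ Pool.Agent.AV.F4, ∑ z ∈ Pool.Agent.AV.F4,
      a x y z) ^ K ≤ 4 ^ K * (4 ^ K * (4 ^ K * ∑ x ∈ Pool.Agent.AV.F4, ∑ y ∈ Pool.Agent.AV.F4,
      ∑ z ∈ Pool.Agent.AV.F4, a x y z ^ K)) := by
    have h := AG_pow AG_F4n (fun x => ∑ y ∈ Pool.Agent.AV.F4, ∑ z ∈ Pool.Agent.AV.F4, a x y z)
      (fun x _ => sum_nonneg fun y _ => sum_nonneg fun z _ => a0 x y z) K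
    rw [AG_F4] at h
    refine le_trans h (mul_le_mul_of_nonneg_left ?_ (by positivity))
    rw [mul_sum, mul_sum]
    refine sum_le_sum fun x _ => ?_
    rw [← mul_assoc]
    have := e2 x
    rw [← mul_assoc] at this
    exact this
  rw [e0]
  refine le_trans (add_pow_le (by norm_num)
    (sum_nonneg fun x _ => sum_nonneg fun y _ => sum_nonneg fun z _ => a0 x y z) K) ?_
  exact mul_le_mul_of_nonneg_left (add_le_add le_rfl e3) (by positivity)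

theorem moments (K : ℕ) : ∃ C : ℝ, 0 ≤ C ∧ ∀ X : ℕ, 1 ≤ X →
    ∑ D ∈ (Icc 1 X).filter Squarefree, Pool.Agent.AV.GG D ^ K ≤ C * X := by
  classical
  obtain ⟨C, hC, hb⟩ := nn_moment K
  refine ⟨2 ^ (K - 1) * (4 ^ K + 4 ^ K * (4 ^ K * (4 ^ K * (128 * C)))), by positivity, ?_⟩
  intro X hX
  -- one triple
  have h1 : ∀ x ∈ Pool.Agent.AV.F4, ∀ y ∈ Pool.Agent.AV.F4, ∀ z ∈ Pool.Agent.AV.F4,
      ∑ D ∈ (Icc 1 X).filter Squarefree,
        ((Pool.Agent.AV.NN (Pool.Agent.AV.kap (Pool.Agent.AV.ep D) x y z)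
          (Pool.Agent.AV.op D)).card : ℝ) ^ K ≤ 2 * (C * X) := by
    intro x hx y hy z hz
    set f : ℤ → ℕ → ℝ := fun e n => if Squarefree n ∧ Odd n then
      ((Pool.Agent.AV.NN (Pool.Agent.AV.kap e x y z) n).card : ℝ) ^ K else 0 with hf
    have f0 : ∀ e n, 0 ≤ f e n := by
      intro e n
      simp only [hf]
      split_ifs
      · positivity
      · exact le_rfl
    have h2 : ∀ e : ℤ, (e = 1 ∨ e = 2) → ∑ n ∈ Icc 1 X, f e n ≤ C * X := by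
      intro e he
      obtain ⟨k1, k2⟩ := Pool.Agent.AV.kap_K4 e x y z he hx hy hz
      have h3 := hb (Pool.Agent.AV.kap e x y z) k1 k2 X hX
      rw [sum_filter] at h3
      exact h3
    have h4 := AG_split f (f0 1) (f0 2) X
    have h5 := h2 1 (Or.inl rfl)
    have h6 := h2 2 (Or.inr rfl)
    have h7 : ∑ D ∈ (Icc 1 X).filter Squarefree,
        ((Pool.Agent.AV.NN (Pool.Agent.AV.kap (Pool.Agent.AV.ep D) x y z)
          (Pool.Agent.AV.op D)).card : ℝ) ^ K =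
        ∑ D ∈ (Icc 1 X).filter Squarefree, f (Pool.Agent.AV.ep D) (Pool.Agent.AV.op D) := by
      refine sum_congr rfl fun D hD => ?_
      simp only [hf]
      rw [if_pos (AG_op D (mem_filter.1 hD).2)]
    rw [h7]
    linarith
  -- the sum over the triples
  have h2 : ∑ D ∈ (Icc 1 X).filter Squarefree,
      (∑ x ∈ Pool.Agent.AV.F4, ∑ y ∈ Pool.Agent.AV.F4, ∑ z ∈ Pool.Agent.AV.F4,
        ((Pool.Agent.AV.NN (Pool.Agent.AV.kap (Pool.Agent.AV.ep D) x y z)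
          (Pool.Agent.AV.op D)).card : ℝ) ^ K) ≤ 128 * (C * X) := by
    have h3 : ∑ D ∈ (Icc 1 X).filter Squarefree,
        (∑ x ∈ Pool.Agent.AV.F4, ∑ y ∈ Pool.Agent.AV.F4, ∑ z ∈ Pool.Agent.AV.F4,
          ((Pool.Agent.AV.NN (Pool.Agent.AV.kap (Pool.Agent.AV.ep D) x y z)
            (Pool.Agent.AV.op D)).card : ℝ) ^ K) =
        ∑ x ∈ Pool.Agent.AV.F4, ∑ y ∈ Pool.Agent.AV.F4, ∑ z ∈ Pool.Agent.AV.F4,
          ∑ D ∈ (Icc 1 X).filter Squarefree,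
          ((Pool.Agent.AV.NN (Pool.Agent.AV.kap (Pool.Agent.AV.ep D) x y z)
            (Pool.Agent.AV.op D)).card : ℝ) ^ K := by
      rw [sum_comm]
      refine sum_congr rfl fun x _ => ?_
      rw [sum_comm]
      refine sum_congr rfl fun y _ => ?_
      rw [sum_comm]
    rw [h3]
    calc _ ≤ ∑ _x ∈ Pool.Agent.AV.F4, ∑ _y ∈ Pool.Agent.AV.F4, ∑ _z ∈ Pool.Agent.AV.F4,
          2 * (C * X) :=
          sum_le_sum fun x hx => sum_le_sum fun y hy => sum_le_sum fun z hz => h1 x hx y hy z hz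
      _ = 128 * (C * X) := by
          simp only [sum_const, nsmul_eq_mul, AG_F4]
          ring
  have h3 : (((Icc 1 X).filter Squarefree).card : ℝ) ≤ X := by
    have h5 := card_filter_le (Icc 1 X) Squarefree
    rw [Nat.card_Icc] at h5
    have h6 : ((Icc 1 X).filter Squarefree).card ≤ X := by omega
    exact_mod_cast h6
  calc ∑ D ∈ (Icc 1 X).filter Squarefree, Pool.Agent.AV.GG D ^ K
      ≤ ∑ D ∈ (Icc 1 X).filter Squarefree, 2 ^ (K - 1) * (4 ^ K + 4 ^ K * (4 ^ K * (4 ^ K *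
        ∑ x ∈ Pool.Agent.AV.F4, ∑ y ∈ Pool.Agent.AV.F4, ∑ z ∈ Pool.Agent.AV.F4,
        ((Pool.Agent.AV.NN (Pool.Agent.AV.kap (Pool.Agent.AV.ep D) x y z)
        (Pool.Agent.AV.op D)).card : ℝ) ^ K))) := sum_le_sum fun D _ => AG_GG D K
    _ = 2 ^ (K - 1) * (((Icc 1 X).filter Squarefree).card * 4 ^ K + 4 ^ K * (4 ^ K * (4 ^ K *
        ∑ D ∈ (Icc 1 X).filter Squarefree,
        (∑ x ∈ Pool.Agent.AV.F4, ∑ y ∈ Pool.Agent.AV.F4, ∑ z ∈ Pool.Agent.AV.F4,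
        ((Pool.Agent.AV.NN (Pool.Agent.AV.kap (Pool.Agent.AV.ep D) x y z)
        (Pool.Agent.AV.op D)).card : ℝ) ^ K)))) := by
        rw [← mul_sum, sum_add_distrib, sum_const, nsmul_eq_mul, ← mul_sum, ← mul_sum, ← mul_sum]
    _ ≤ 2 ^ (K - 1) * (X * 4 ^ K + 4 ^ K * (4 ^ K * (4 ^ K * (128 * (C * X))))) := by
        gcongr
    _ = 2 ^ (K - 1) * (4 ^ K + 4 ^ K * (4 ^ K * (4 ^ K * (128 * C)))) * X := by ring

end Pool.Agent.AVK
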